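import Pool.Agent.helper75.HT.Defs

/-!
# Covar : dilations and translations

`FT (sc s f) ξ = 2^{-s} e^{-πi(ξ.1+ξ.2)} FT f (2^{-s}ξ)` (substitution `z = 2^s (y - (1/2,1/2))`, `dz = 4^s dy`), so
`Tk η0 k (sc s f) x = 2^s Tk η0 (k+s) f (2^s (x - (1/2,1/2)))` (substitution `ξ = 2^s ζ`, `4^k ξ.1 ξ.2 = 4^{k+s} ζ.1 ζ.2`); norms by the
substitution in the outer integral.
-/

set_option autoImplicit false

namespace Pool.Agent.helper75.HT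

open Finset MeasureTheory

theorem Covar_A (s : ℕ) (x : ℝ × ℝ) :
    (((2 : ℝ) ^ s * (x.1 - 1 / 2), (2 : ℝ) ^ s * (x.2 - 1 / 2)) : ℝ × ℝ) =
      (2 : ℝ) ^ s • (x - ((1 / 2 : ℝ), (1 / 2 : ℝ))) := by
  ext <;> simp

theorem Covar_fr : Module.finrank ℝ (ℝ × ℝ) = 2 := by simp [Module.finrank_prod]

theorem Covar_lint {c : ℝ} (hc : 0 < c) (F : ℝ × ℝ → ENNReal) (hF : Measurable F) :
    ∫⁻ x : ℝ × ℝ, F (c • x) = ENNReal.ofReal ((c ^ 2)⁻¹) * ∫⁻ x, F x := by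
  have h := Measure.map_addHaar_smul (volume : Measure (ℝ × ℝ)) hc.ne'
  have h2 : ∫⁻ x, F x ∂(Measure.map (c • ·) (volume : Measure (ℝ × ℝ))) = ∫⁻ x, F (c • x) :=
    lintegral_map hF (measurable_const_smul c)
  rw [← h2, h, lintegral_smul_measure, Covar_fr, abs_of_pos (by positivity), smul_eq_mul]

theorem lintegral_sc (s : ℕ) (F : ℝ × ℝ → ENNReal) (hF : Measurable F) :
    ∫⁻ x : ℝ × ℝ, (4 : ENNReal) ^ s *
        F ((2 : ℝ) ^ s * (x.1 - 1 / 2), (2 : ℝ) ^ s * (x.2 - 1 / 2)) = ∫⁻ x, F x := by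
  have hc : (0 : ℝ) < 2 ^ s := by positivity
  simp only [Covar_A]
  rw [lintegral_const_mul' _ _ (by finiteness)]
  rw [lintegral_sub_right_eq_self (fun x : ℝ × ℝ => F ((2 : ℝ) ^ s • x)) ((1 / 2 : ℝ), (1 / 2 : ℝ))]
  rw [Covar_lint hc F hF, ← mul_assoc]
  have h4 : (4 : ENNReal) ^ s * ENNReal.ofReal (((2 : ℝ) ^ s) ^ 2)⁻¹ = 1 := by
    have h5 : (4 : ENNReal) ^ s = ENNReal.ofReal (((2 : ℝ) ^ s) ^ 2) := by
      rw [← pow_mul, mul_comm s 2, pow_mul, ENNReal.ofReal_pow (by norm_num)]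
      norm_num
    rw [h5, ← ENNReal.ofReal_mul (by positivity), mul_inv_cancel₀ (by positivity)]
    simp
  rw [h4, one_mul]

theorem Covar_int {c : ℝ} (hc : 0 < c) (F : ℝ × ℝ → ℂ) :
    ∫ x : ℝ × ℝ, F (c • x) = ((c : ℂ) ^ 2)⁻¹ * ∫ x, F x := by
  rw [Measure.integral_comp_smul (volume : Measure (ℝ × ℝ)) F c, Covar_fr,
    abs_of_pos (by positivity), Complex.real_smul]
  push_cast
  ring

theorem FT_sc (s : ℕ) (f : ℝ × ℝ → ℂ) (ξ : ℝ × ℝ) :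
    FT (sc s f) ξ = ((2 : ℂ) ^ s)⁻¹ * Complex.exp (-((Real.pi : ℂ) * Complex.I * (ξ.1 + ξ.2))) *
      FT f (ξ.1 / 2 ^ s, ξ.2 / 2 ^ s) := by
  have hc : (0 : ℝ) < 2 ^ s := by positivity
  have hcc : ((2 : ℂ) ^ s) ≠ 0 := pow_ne_zero _ two_ne_zero
  set G : ℝ × ℝ → ℂ := fun y =>
    Complex.exp (-(2 * (Real.pi : ℂ) * Complex.I *
      (((y.1 * (ξ.1 / 2 ^ s) + y.2 * (ξ.2 / 2 ^ s) : ℝ)) : ℂ))) * f y with hG
  have h1 : ∀ y : ℝ × ℝ, Complex.exp (-(2 * (Real.pi : ℂ) * Complex.I *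
      (((y.1 * ξ.1 + y.2 * ξ.2 : ℝ)) : ℂ))) * sc s f y =
      (2 : ℂ) ^ s * Complex.exp (-((Real.pi : ℂ) * Complex.I * (ξ.1 + ξ.2))) *
        G ((2 : ℝ) ^ s • (y - ((1 / 2 : ℝ), (1 / 2 : ℝ)))) := by
    intro y
    rw [hG]
    simp only [sc, ← Covar_A]
    have h2 : Complex.exp (-(2 * (Real.pi : ℂ) * Complex.I *
        (((y.1 * ξ.1 + y.2 * ξ.2 : ℝ)) : ℂ))) =
        Complex.exp (-((Real.pi : ℂ) * Complex.I * (ξ.1 + ξ.2))) *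
        Complex.exp (-(2 * (Real.pi : ℂ) * Complex.I *
          ((((2 : ℝ) ^ s * (y.1 - 1 / 2) * (ξ.1 / 2 ^ s) +
            (2 : ℝ) ^ s * (y.2 - 1 / 2) * (ξ.2 / 2 ^ s) : ℝ)) : ℂ))) := by
      rw [← Complex.exp_add]
      congr 1
      push_cast
      field_simp
      ring
    rw [h2]
    ring
  have hR : FT f (ξ.1 / 2 ^ s, ξ.2 / 2 ^ s) = ∫ y, G y := rfl
  have hL : FT (sc s f) ξ = ∫ y : ℝ × ℝ, Complex.exp (-(2 * (Real.pi : ℂ) * Complex.I *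
      (((y.1 * ξ.1 + y.2 * ξ.2 : ℝ)) : ℂ))) * sc s f y := rfl
  rw [hR, hL]
  simp only [h1]
  rw [integral_const_mul]
  rw [integral_sub_right_eq_self (fun y : ℝ × ℝ => G ((2 : ℝ) ^ s • y)) ((1 / 2 : ℝ), (1 / 2 : ℝ))]
  rw [Covar_int hc G]
  generalize (∫ y, G y) = J
  push_cast
  field_simp

theorem Covar_phase (t : ℝ) : ‖Complex.exp (2 * (Real.pi : ℂ) * Complex.I * (t : ℂ))‖ = 1 := by
  have : (2 * (Real.pi : ℂ) * Complex.I * (t : ℂ)) = ((2 * Real.pi * t : ℝ) : ℂ) * Complex.I := by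
    push_cast
    ring
  rw [this, Complex.norm_exp_ofReal_mul_I]

theorem Covar_phase' (a b : ℝ) :
    ‖Complex.exp (-((Real.pi : ℂ) * Complex.I * ((a : ℂ) + (b : ℂ))))‖ = 1 := by
  have : (-((Real.pi : ℂ) * Complex.I * ((a : ℂ) + (b : ℂ)))) =
      ((-(Real.pi * (a + b)) : ℝ) : ℂ) * Complex.I := by
    push_cast
    ring
  rw [this, Complex.norm_exp_ofReal_mul_I]

theorem Covar_div (s : ℕ) (ξ : ℝ × ℝ) :
    ((ξ.1 / 2 ^ s, ξ.2 / 2 ^ s) : ℝ × ℝ) = ((2 : ℝ) ^ s)⁻¹ • ξ := by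
  ext <;> simp [div_eq_inv_mul]

theorem Covar_memLp {f : ℝ × ℝ → ℂ} (hc : Continuous f) :
    MemLp f 2 ↔ Integrable (fun x => ‖f x‖ ^ 2) :=
  memLp_two_iff_integrable_sq_norm hc.aestronglyMeasurable

theorem nice_sc (s : ℕ) {f : ℝ × ℝ → ℂ} (hf : Nice f) : Nice (sc s f) := by
  have hc : ((2 : ℝ) ^ s) ≠ 0 := by positivity
  have hci : ((2 : ℝ) ^ s)⁻¹ ≠ 0 := by positivity
  have hcont : Continuous (sc s f) := by
    unfold sc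
    have := hf.cont
    fun_prop
  have hF : FT (sc s f) = fun ξ => ((2 : ℂ) ^ s)⁻¹ *
      Complex.exp (-((Real.pi : ℂ) * Complex.I * (ξ.1 + ξ.2))) * FT f (((2 : ℝ) ^ s)⁻¹ • ξ) := by
    funext ξ
    rw [FT_sc, Covar_div]
  have hcontF : Continuous (FT (sc s f)) := by
    rw [hF]
    have := hf.contF
    fun_prop
  have hsc : sc s f = fun x => (2 : ℂ) ^ s * f ((2 : ℝ) ^ s • (x - ((1 / 2 : ℝ), (1 / 2 : ℝ)))) := by
    funext x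
    simp only [sc, Covar_A]
  have hnF : ∀ ξ, ‖FT (sc s f) ξ‖ = ((2 : ℝ) ^ s)⁻¹ * ‖FT f (((2 : ℝ) ^ s)⁻¹ • ξ)‖ := by
    intro ξ
    rw [hF]
    simp only [norm_mul, norm_inv, norm_pow, Covar_phase', mul_one, Complex.norm_ofNat]
  refine ⟨hcont, ?_, ?_, hcontF, ?_, ?_⟩
  · rw [hsc]
    refine Integrable.const_mul ?_ _
    exact (hf.int.comp_smul hc).comp_sub_right ((1 / 2 : ℝ), (1 / 2 : ℝ))
  · rw [Covar_memLp hcont, hsc]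
    simp only [norm_mul, mul_pow]
    refine Integrable.const_mul ?_ _
    have h1 := (Covar_memLp hf.cont).mp hf.sq
    exact (h1.comp_smul hc).comp_sub_right ((1 / 2 : ℝ), (1 / 2 : ℝ))
  · rw [← integrable_norm_iff hcontF.aestronglyMeasurable]
    simp only [hnF]
    exact ((hf.intF.norm).comp_smul hci).const_mul _
  · rw [Covar_memLp hcontF]
    simp only [hnF, mul_pow]
    have h1 := (Covar_memLp hf.contF).mp hf.sqF
    exact (h1.comp_smul hci).const_mul _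

theorem Tk_sc (η0 : SchwartzMap ℝ ℂ) (k : ℤ) (s : ℕ) (f : ℝ × ℝ → ℂ) (x : ℝ × ℝ) :
    Tk η0 k (sc s f) x =
      (2 : ℂ) ^ s * Tk η0 (k + s) f ((2 : ℝ) ^ s * (x.1 - 1 / 2), (2 : ℝ) ^ s * (x.2 - 1 / 2)) := by
  have hc : (0 : ℝ) < 2 ^ s := by positivity
  have hci : (0 : ℝ) < ((2 : ℝ) ^ s)⁻¹ := by positivity
  have hcc : ((2 : ℂ) ^ s) ≠ 0 := pow_ne_zero _ two_ne_zero
  set G : ℝ × ℝ → ℂ := fun ξ =>
    Complex.exp (2 * (Real.pi : ℂ) * Complex.I *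
      ((((2 : ℝ) ^ s * (x.1 - 1 / 2) * ξ.1 + (2 : ℝ) ^ s * (x.2 - 1 / 2) * ξ.2 : ℝ)) : ℂ)) *
      (η0 ((4 : ℝ) ^ (k + s) * ξ.1 * ξ.2) * FT f ξ) with hG
  have h1 : ∀ ξ : ℝ × ℝ, Complex.exp (2 * (Real.pi : ℂ) * Complex.I *
      (((x.1 * ξ.1 + x.2 * ξ.2 : ℝ)) : ℂ)) *
      (η0 ((4 : ℝ) ^ k * ξ.1 * ξ.2) * FT (sc s f) ξ) =
      ((2 : ℂ) ^ s)⁻¹ * G (((2 : ℝ) ^ s)⁻¹ • ξ) := by
    intro ξ
    rw [FT_sc, ← Covar_div, hG]
    simp only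
    have h3 : (4 : ℝ) ^ (k + s) * (ξ.1 / 2 ^ s) * (ξ.2 / 2 ^ s) = (4 : ℝ) ^ k * ξ.1 * ξ.2 := by
      rw [zpow_add₀ (by norm_num : (4 : ℝ) ≠ 0), zpow_natCast]
      have h4 : (4 : ℝ) ^ s = 2 ^ s * 2 ^ s := by
        rw [← mul_pow]
        norm_num
      rw [h4]
      field_simp
    have h2 : Complex.exp (2 * (Real.pi : ℂ) * Complex.I *
        ((((2 : ℝ) ^ s * (x.1 - 1 / 2) * (ξ.1 / 2 ^ s) +
          (2 : ℝ) ^ s * (x.2 - 1 / 2) * (ξ.2 / 2 ^ s) : ℝ)) : ℂ)) =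
        Complex.exp (2 * (Real.pi : ℂ) * Complex.I * (((x.1 * ξ.1 + x.2 * ξ.2 : ℝ)) : ℂ)) *
        Complex.exp (-((Real.pi : ℂ) * Complex.I * (ξ.1 + ξ.2))) := by
      rw [← Complex.exp_add]
      congr 1
      push_cast
      field_simp
      ring
    rw [h3, h2]
    ring
  have hR : Tk η0 (k + s) f ((2 : ℝ) ^ s * (x.1 - 1 / 2), (2 : ℝ) ^ s * (x.2 - 1 / 2)) =
      ∫ ξ, G ξ := rfl
  have hL : Tk η0 k (sc s f) x = ∫ ξ : ℝ × ℝ, Complex.exp (2 * (Real.pi : ℂ) * Complex.I *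
      (((x.1 * ξ.1 + x.2 * ξ.2 : ℝ)) : ℂ)) *
      (η0 ((4 : ℝ) ^ k * ξ.1 * ξ.2) * FT (sc s f) ξ) := rfl
  rw [hR, hL]
  simp only [h1]
  rw [integral_const_mul, Covar_int hci G]
  generalize (∫ ξ, G ξ) = J
  push_cast
  field_simp

theorem lintegral_sc_sq (s : ℕ) {f : ℝ × ℝ → ℂ} (hf : Continuous f) :
    ∫⁻ x, ‖sc s f x‖ₑ ^ 2 = ∫⁻ x, ‖f x‖ₑ ^ 2 := by
  rw [← lintegral_sc s (fun x => ‖f x‖ₑ ^ 2) (by fun_prop)]
  refine lintegral_congr ?_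
  intro x
  simp only [sc, enorm_mul, enorm_pow, mul_pow]
  congr 1
  have h2 : ‖(2 : ℂ)‖ₑ = 2 := by
    rw [← ofReal_norm]
    simp
  rw [h2, ← pow_mul, mul_comm s 2, pow_mul]
  norm_num

/-- `Tk` of a nice function is continuous. -/
theorem continuous_Tk (η0 : SchwartzMap ℝ ℂ) (k : ℤ) {f : ℝ × ℝ → ℂ} (hf : Nice f) :
    Continuous (Tk η0 k f) := by
  obtain ⟨C, hC⟩ : ∃ C : ℝ, ∀ t, ‖η0 t‖ ≤ C := by
    refine ⟨‖η0.toBoundedContinuousFunction‖, fun t => ?_⟩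
    exact η0.toBoundedContinuousFunction.norm_coe_le_norm t
  have hη : Continuous η0 := η0.continuous
  have hFc := hf.contF
  unfold Tk IFT
  refine continuous_of_dominated (bound := fun ξ => C * ‖FT f ξ‖) ?_ ?_ ?_ ?_
  · intro x
    refine Continuous.aestronglyMeasurable ?_
    fun_prop
  · intro x
    refine Filter.Eventually.of_forall ?_
    intro ξ
    rw [norm_mul, Covar_phase, one_mul, norm_mul]
    exact mul_le_mul_of_nonneg_right (hC _) (norm_nonneg _)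
  · exact hf.intF.norm.const_mul _
  · refine Filter.Eventually.of_forall ?_
    intro ξ
    fun_prop

theorem max_sc (η0 : SchwartzMap ℝ ℂ) (Λ : Finset ℤ) (s : ℕ) {f : ℝ × ℝ → ℂ} (hf : Nice f) :
    ∫⁻ x, (⨆ k ∈ Λ, ‖Tk η0 k f x‖ₑ) ^ 2 =
      ∫⁻ x, (⨆ k ∈ Λ.image (fun k => k - (s : ℤ)), ‖Tk η0 k (sc s f) x‖ₑ) ^ 2 := by
  have hmeas : Measurable fun x => (⨆ k ∈ Λ, ‖Tk η0 k f x‖ₑ) ^ 2 := by
    refine Measurable.pow_const ?_ _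
    refine Measurable.biSup _ (Set.to_countable _) ?_
    intro k _
    exact (continuous_Tk η0 k hf).enorm.measurable
  rw [← lintegral_sc s (fun x => (⨆ k ∈ Λ, ‖Tk η0 k f x‖ₑ) ^ 2) hmeas]
  refine lintegral_congr ?_
  intro x
  have h2 : ‖(2 : ℂ)‖ₑ = 2 := by
    rw [← ofReal_norm]
    simp
  have h1 : (⨆ k ∈ Λ.image (fun k => k - (s : ℤ)), ‖Tk η0 k (sc s f) x‖ₑ) =
      2 ^ s * ⨆ k ∈ Λ, ‖Tk η0 k f ((2 : ℝ) ^ s * (x.1 - 1 / 2), (2 : ℝ) ^ s * (x.2 - 1 / 2))‖ₑ := by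
    simp only [Finset.mem_image, iSup_exists, iSup_and, ENNReal.mul_iSup]
    rw [iSup_comm]
    refine iSup_congr ?_
    intro k
    rw [iSup_comm]
    refine iSup_congr ?_
    intro hk
    rw [iSup_iSup_eq_right]
    rw [Tk_sc, enorm_mul, enorm_pow, h2, sub_add_cancel]
  rw [h1, mul_pow]
  congr 1
  rw [← pow_mul, mul_comm s 2, pow_mul]
  norm_num

end Pool.Agent.helper75.HT
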