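import Pool.Agent.helper75.HT.Step
import Pool.Agent.helper75.HT.Covar

/-!
# Approx : approximation by step functions after dilation

`∫ over the complement of [0,1)² of ‖sc s f‖²` is `∫ over the complement of [-2^s/2, 2^s/2)² of ‖f‖²` and tends to `0`; `sc s f` is
uniformly continuous on the closed unit square, take `G w w' = sc s f` at the left endpoints of the cells, `K = L` large.
-/

set_option autoImplicit false

namespace Pool.Agent.helper75.HT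

open Finset MeasureTheory Pool.Agent.helper18.HC

open Filter Topology

/-- the large square -/
def Approx_Q (s : ℕ) : Set (ℝ × ℝ) :=
  Set.Ico (-((2 : ℝ) ^ s / 2)) ((2 : ℝ) ^ s / 2) ×ˢ Set.Ico (-((2 : ℝ) ^ s / 2)) ((2 : ℝ) ^ s / 2)

theorem Approx_Q_meas (s : ℕ) : MeasurableSet (Approx_Q s) :=
  measurableSet_Ico.prod measurableSet_Ico

/-- Two numbers with the same first `K` digits. -/
theorem Approx_floor {x x' : ℝ} (hx : 0 ≤ x ∧ x < 1) (hx' : 0 ≤ x' ∧ x' < 1) (K : ℕ)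
    (h : ∀ i < K, (⌊(2 : ℝ) ^ (i + 1) * x⌋ % 2 = 1) ↔ (⌊(2 : ℝ) ^ (i + 1) * x'⌋ % 2 = 1)) :
    ⌊(2 : ℝ) ^ K * x⌋ = ⌊(2 : ℝ) ^ K * x'⌋ := by
  induction K with
  | zero =>
    have h1 : ⌊x⌋ = 0 := Int.floor_eq_zero_iff.mpr ⟨hx.1, hx.2⟩
    have h2 : ⌊x'⌋ = 0 := Int.floor_eq_zero_iff.mpr ⟨hx'.1, hx'.2⟩
    simp [h1, h2]
  | succ K ih =>
    have h0 := ih (fun i hi => h i (Nat.lt_succ_of_lt hi))
    have h1 := h K (Nat.lt_succ_self K)
    have key : ∀ y : ℝ, ⌊(2 : ℝ) ^ (K + 1) * y⌋ / 2 = ⌊(2 : ℝ) ^ K * y⌋ := by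
      intro y
      have e : (2 : ℝ) ^ (K + 1) * y = 2 * ((2 : ℝ) ^ K * y) := by ring
      rw [e]
      set z := (2 : ℝ) ^ K * y
      have h3 : ⌊z⌋ ≤ z := Int.floor_le z
      have h4 : z < ⌊z⌋ + 1 := Int.lt_floor_add_one z
      have h5 : 2 * ⌊z⌋ ≤ ⌊2 * z⌋ := by
        rw [Int.le_floor]
        push_cast
        linarith
      have h6 : ⌊2 * z⌋ < 2 * ⌊z⌋ + 2 := by
        rw [Int.floor_lt]
        push_cast
        linarith
      omega
    have k1 := key x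
    have k2 := key x'
    omega

theorem Approx_dg {K : ℕ} {x x' : ℝ} (hx : 0 ≤ x ∧ x < 1) (hx' : 0 ≤ x' ∧ x' < 1)
    (h : dg K x = dg K x') : |x - x'| < (1 / 2) ^ K := by
  have h1 : ⌊(2 : ℝ) ^ K * x⌋ = ⌊(2 : ℝ) ^ K * x'⌋ := by
    refine Approx_floor hx hx' K (fun i hi => ?_)
    have h2 := congrFun h ⟨i, hi⟩
    simp only [dg, decide_eq_decide] at h2
    exact h2
  have h3 := Int.abs_sub_lt_one_of_floor_eq_floor h1
  rw [← mul_sub, abs_mul, abs_of_pos (by positivity : (0 : ℝ) < 2 ^ K)] at h3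
  by_contra hcon
  push Not at hcon
  have h4 : (2 : ℝ) ^ K * (1 / 2) ^ K = 1 := by
    rw [← mul_pow]
    norm_num
  have h5 := mul_le_mul_of_nonneg_left hcon (by positivity : (0 : ℝ) ≤ 2 ^ K)
  linarith

theorem Approx_enorm_sc (s : ℕ) (f : ℝ × ℝ → ℂ) (x : ℝ × ℝ) :
    ‖sc s f x‖ₑ ^ 2 = (4 : ENNReal) ^ s *
      ‖f ((2 : ℝ) ^ s * (x.1 - 1 / 2), (2 : ℝ) ^ s * (x.2 - 1 / 2))‖ₑ ^ 2 := by
  unfold sc
  rw [enorm_mul, mul_pow]
  congr 1
  rw [enorm_pow, ← pow_mul, mul_comm s 2, pow_mul]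
  congr 1
  have h : ‖(2 : ℂ)‖ₑ = 2 := by
    rw [← ofReal_norm, Complex.norm_ofNat, ENNReal.ofReal_ofNat]
  rw [h]
  norm_num

theorem Approx_tail {f : ℝ × ℝ → ℂ} (hf : Continuous f) (hf2 : MemLp f 2) {ε : ENNReal}
    (hε : 0 < ε) : ∃ s : ℕ, ∫⁻ x, (Approx_Q s)ᶜ.indicator (fun x => ‖f x‖ₑ ^ 2) x < ε := by
  have hfin : ∫⁻ x, ‖f x‖ₑ ^ 2 ≠ ⊤ := by
    have h1 := lintegral_rpow_enorm_lt_top_of_eLpNorm_lt_top (p := 2) (by norm_num) (by norm_num)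
      hf2.2
    have h2 : ∀ x, ‖f x‖ₑ ^ (2 : ENNReal).toReal = ‖f x‖ₑ ^ 2 := by
      intro x
      rw [ENNReal.toReal_ofNat]
      exact ENNReal.rpow_natCast _ 2
    simp only [h2] at h1
    exact h1.ne
  have hm : Measurable (fun x => ‖f x‖ₑ ^ 2) := hf.measurable.enorm.pow_const 2
  have ht : Tendsto (fun s : ℕ => ∫⁻ x, (Approx_Q s)ᶜ.indicator (fun x => ‖f x‖ₑ ^ 2) x) atTop
      (𝓝 (∫⁻ _ : ℝ × ℝ, 0)) := by
    refine tendsto_lintegral_of_dominated_convergence (fun x => ‖f x‖ₑ ^ 2)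
      (fun s => hm.indicator (Approx_Q_meas s).compl) (fun s => ?_) hfin ?_
    · exact Eventually.of_forall (fun x => Set.indicator_le_self _ _ x)
    · refine Eventually.of_forall (fun x => ?_)
      refine tendsto_const_nhds.congr' ?_
      have hp : Tendsto (fun s : ℕ => (2 : ℝ) ^ s / 2) atTop atTop :=
        (tendsto_pow_atTop_atTop_of_one_lt one_lt_two).atTop_div_const two_pos
      filter_upwards [hp.eventually_gt_atTop |x.1|, hp.eventually_gt_atTop |x.2|] with s h1 h2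
      have hx : x ∈ Approx_Q s := by
        have a1 := abs_lt.mp h1
        have a2 := abs_lt.mp h2
        exact ⟨⟨a1.1.le, a1.2⟩, ⟨a2.1.le, a2.2⟩⟩
      rw [Set.indicator_of_notMem (by simpa using hx)]
  rw [lintegral_zero] at ht
  exact (ht.eventually_lt_const hε).exists

theorem approx {f : ℝ × ℝ → ℂ} (hf : Continuous f) (hf2 : MemLp f 2) {ε : ENNReal} (hε : 0 < ε) :
    ∃ (s K : ℕ) (G : Dy K → Dy K → ℂ), ∫⁻ x, ‖sc s f x - stp2 G x‖ₑ ^ 2 ≤ ε := by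
  obtain ⟨r, hr0, hrε⟩ := ENNReal.lt_iff_exists_nnreal_btwn.mp hε
  have hr : 0 < (r : ℝ) := by exact_mod_cast hr0
  obtain ⟨s, hs⟩ := Approx_tail hf hf2 (ε := ENNReal.ofReal (r / 2))
    (ENNReal.ofReal_pos.mpr (by linarith))
  have hc : Continuous (sc s f) := by
    unfold sc
    exact continuous_const.mul (hf.comp (by fun_prop))
  have hcpt : IsCompact (Set.Icc (0 : ℝ) 1 ×ˢ Set.Icc (0 : ℝ) 1) := isCompact_Icc.prod isCompact_Icc
  have huc := hcpt.uniformContinuousOn_of_continuous hc.continuousOn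
  have hη : 0 < Real.sqrt (r / 2) := Real.sqrt_pos.mpr (by linarith)
  obtain ⟨δ, hδ, hδ'⟩ := Metric.uniformContinuousOn_iff.mp huc _ hη
  obtain ⟨K, hK⟩ := exists_pow_lt_of_lt_one hδ (by norm_num : (1 / 2 : ℝ) < 1)
  classical
  let P : Dy K → Dy K → (ℝ × ℝ) → Prop := fun w w' x =>
    ((0 ≤ x.1 ∧ x.1 < 1) ∧ (0 ≤ x.2 ∧ x.2 < 1)) ∧ dg K x.1 = w ∧ dg K x.2 = w'
  let G : Dy K → Dy K → ℂ := fun w w' =>
    if h : ∃ x, P w w' x then sc s f (Classical.choose h) else 0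
  refine ⟨s, K, G, ?_⟩
  set Q : Set (ℝ × ℝ) := Set.Ico (0 : ℝ) 1 ×ˢ Set.Ico (0 : ℝ) 1 with hQ
  have hQm : MeasurableSet Q := measurableSet_Ico.prod measurableSet_Ico
  rw [← lintegral_add_compl _ hQm]
  have h1 : ∫⁻ x in Q, ‖sc s f x - stp2 G x‖ₑ ^ 2 ≤ ENNReal.ofReal (r / 2) := by
    have hpt : ∀ x ∈ Q, ‖sc s f x - stp2 G x‖ₑ ^ 2 ≤ ENNReal.ofReal (r / 2) := by
      intro x hx
      have hx1 : (0 ≤ x.1 ∧ x.1 < 1) ∧ (0 ≤ x.2 ∧ x.2 < 1) := ⟨⟨hx.1.1, hx.1.2⟩, ⟨hx.2.1, hx.2.2⟩⟩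
      have hex : ∃ y, P (dg K x.1) (dg K x.2) y := ⟨x, hx1, rfl, rfl⟩
      have e1 : stp2 G x = sc s f (Classical.choose hex) := by
        unfold stp2
        rw [if_pos hx1]
        exact dif_pos hex
      have hc1 := Classical.choose_spec hex
      rw [e1]
      set c := Classical.choose hex
      have d1 : |x.1 - c.1| < δ := (Approx_dg hx1.1 hc1.1.1 hc1.2.1.symm).trans hK
      have d2 : |x.2 - c.2| < δ := (Approx_dg hx1.2 hc1.1.2 hc1.2.2.symm).trans hK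
      have d3 : dist x c < δ := by
        rw [Prod.dist_eq, Real.dist_eq, Real.dist_eq]
        exact max_lt d1 d2
      have d4 := hδ' x ⟨⟨hx1.1.1, hx1.1.2.le⟩, ⟨hx1.2.1, hx1.2.2.le⟩⟩ c
        ⟨⟨hc1.1.1.1, hc1.1.1.2.le⟩, ⟨hc1.1.2.1, hc1.1.2.2.le⟩⟩ d3
      rw [dist_eq_norm] at d4
      rw [← ofReal_norm, ← ENNReal.ofReal_pow (norm_nonneg _)]
      refine ENNReal.ofReal_le_ofReal ?_
      have d5 := Real.sq_sqrt (by linarith : (0 : ℝ) ≤ r / 2)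
      have d6 := norm_nonneg (sc s f x - sc s f c)
      nlinarith
    refine (setLIntegral_mono measurable_const hpt).trans ?_
    rw [setLIntegral_const, hQ, Measure.volume_eq_prod, Measure.prod_prod, Real.volume_Ico]
    simp
  have h2 : ∫⁻ x in Qᶜ, ‖sc s f x - stp2 G x‖ₑ ^ 2 ≤ ENNReal.ofReal (r / 2) := by
    have hm : Measurable ((Approx_Q s)ᶜ.indicator (fun x => ‖f x‖ₑ ^ 2)) :=
      (hf.measurable.enorm.pow_const 2).indicator (Approx_Q_meas s).compl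
    refine le_trans ?_ (le_of_lt hs)
    rw [← lintegral_sc s _ hm, ← lintegral_indicator hQm.compl]
    refine lintegral_mono (fun x => ?_)
    by_cases hx : x ∈ Qᶜ
    · rw [Set.indicator_of_mem hx]
      have e1 : stp2 G x = 0 := by
        unfold stp2
        rw [if_neg]
        intro h
        exact hx ⟨⟨h.1.1, h.1.2⟩, ⟨h.2.1, h.2.2⟩⟩
      have e2 : ((2 : ℝ) ^ s * (x.1 - 1 / 2), (2 : ℝ) ^ s * (x.2 - 1 / 2)) ∈ (Approx_Q s)ᶜ := by
        intro h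
        apply hx
        have hp : (0 : ℝ) < 2 ^ s := by positivity
        obtain ⟨⟨a1, a2⟩, ⟨a3, a4⟩⟩ := h
        simp only at a1 a2 a3 a4
        refine ⟨⟨?_, ?_⟩, ⟨?_, ?_⟩⟩ <;> by_contra hcon <;> push Not at hcon <;> nlinarith
      show ‖sc s f x - stp2 G x‖ₑ ^ 2 ≤ (4 : ENNReal) ^ s *
        (Approx_Q s)ᶜ.indicator (fun x => ‖f x‖ₑ ^ 2)
          ((2 : ℝ) ^ s * (x.1 - 1 / 2), (2 : ℝ) ^ s * (x.2 - 1 / 2))
      rw [e1, sub_zero, Approx_enorm_sc, Set.indicator_of_mem e2]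
    · rw [Set.indicator_of_notMem hx]
      exact zero_le
  refine (add_le_add h1 h2).trans ?_
  rw [← ENNReal.ofReal_add (by linarith) (by linarith), add_halves]
  rw [ENNReal.ofReal_coe_nnreal]
  exact hrε.le

end Pool.Agent.helper75.HT
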