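import Pool.Agent.helper75.HT.Defs
import Pool.Agent.helper75.HX.Two1

/-!
# Haar : the complex double differences

All facts follow for complex functions from real ones by `re_D1`, `im_D1`, `re_D2`, `im_D2` (`Pool.Agent.helper18.HC`), or directly.
The real versions are in `Pool.Agent.helper75.HX` (`One1.d2_flip`, `One1.meas_d2`, `Two1.sum_DD_all`, `Two1.SS_En_all`,
`Two1.D1_D2`); you may import them.
-/

set_option autoImplicit false

namespace Pool.Agent.helper75.HT

open Finset Pool.Agent.helper18.HC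

variable {K L : ℕ}

private theorem Haar_d2_const (h : Dy K → ℝ) (x x' : Dy K) : d2 0 h x = d2 0 h x' :=
  HX.meas_d2 0 h x x' (fun _ hi => absurd hi (Nat.not_lt_zero _))

private theorem Haar_d2_flip {j : ℕ} (hj : j < K) (h : Dy K → ℝ) (x : Dy K) :
    d2 (j + 1) h (fl j x) = -d2 (j + 1) h x := HX.d2_flip hj h x

/-- from the real and imaginary parts -/
private theorem Haar_of_re_im {j : ℕ} (hj : j ≤ K) (g : Dy K → ℂ) (u v : Dy K → ℝ)
    (hu : ∀ x, (g x).re = d2 j u x) (hv : ∀ x, (g x).im = d2 j v x) : HaarAt j g := by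
  cases j with
  | zero =>
    intro x x'
    apply Complex.ext
    · rw [hu, hu]
      exact Haar_d2_const u x x'
    · rw [hv, hv]
      exact Haar_d2_const v x x'
  | succ j =>
    refine ⟨?_, ?_⟩
    · intro x x' hx
      apply Complex.ext
      · rw [hu, hu]
        exact HX.meas_d2 (j + 1) u x x' hx
      · rw [hv, hv]
        exact HX.meas_d2 (j + 1) v x x' hx
    · intro x
      apply Complex.ext
      · rw [hu, Complex.neg_re, hu]
        exact Haar_d2_flip hj u x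
      · rw [hv, Complex.neg_im, hv]
        exact Haar_d2_flip hj v x

private theorem Haar_re (j l : ℕ) (G : Dy K → Dy L → ℂ) (x : Dy K) (y : Dy L) :
    (D1 j (D2 l G) x y).re = HX.DD j l (fun x y => (G x y).re) x y := by
  rw [re_D1]
  unfold HX.DD
  have : (fun x y => (D2 l G x y).re) = D2 l (fun x y => (G x y).re) := by
    funext x y
    exact re_D2 l G x y
  rw [this]

private theorem Haar_im (j l : ℕ) (G : Dy K → Dy L → ℂ) (x : Dy K) (y : Dy L) :
    (D1 j (D2 l G) x y).im = HX.DD j l (fun x y => (G x y).im) x y := by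
  rw [im_D1]
  unfold HX.DD
  have : (fun x y => (D2 l G x y).im) = D2 l (fun x y => (G x y).im) := by
    funext x y
    exact im_D2 l G x y
  rw [this]

theorem haarAt_x {j : ℕ} (hj : j ≤ K) (l : ℕ) (G : Dy K → Dy L → ℂ) (y : Dy L) :
    HaarAt j fun x => D1 j (D2 l G) x y := by
  refine Haar_of_re_im hj _ (fun x' => D2 l (fun x y => (G x y).re) x' y)
    (fun x' => D2 l (fun x y => (G x y).im) x' y) ?_ ?_
  · intro x
    rw [Haar_re]
    unfold HX.DD
    rw [HX.D1_eq]
  · intro x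
    rw [Haar_im]
    unfold HX.DD
    rw [HX.D1_eq]

theorem haarAt_y (j : ℕ) {l : ℕ} (hl : l ≤ L) (G : Dy K → Dy L → ℂ) (x : Dy K) :
    HaarAt l fun y => D1 j (D2 l G) x y := by
  refine Haar_of_re_im hl _ (D1 j (fun x y => (G x y).re) x) (D1 j (fun x y => (G x y).im) x) ?_ ?_
  · intro y
    rw [Haar_re]
    unfold HX.DD
    rw [HX.D1_D2, D2_eq]
  · intro y
    rw [Haar_im]
    unfold HX.DD
    rw [HX.D1_D2, D2_eq]

theorem sum_DD (G : Dy K → Dy L → ℂ) (x : Dy K) (y : Dy L) :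
    ∑ j ∈ range (K + 1), ∑ l ∈ range (L + 1), D1 j (D2 l G) x y = G x y := by
  apply Complex.ext
  · simp only [Complex.re_sum, Haar_re]
    exact HX.sum_DD_all _ x y
  · simp only [Complex.im_sum, Haar_im]
    exact HX.sum_DD_all _ x y

private theorem Haar_norm_sq (z : ℂ) : ‖z‖ ^ 2 = z.re ^ 2 + z.im ^ 2 := by
  rw [Complex.sq_norm, Complex.normSq_apply]
  ring

private theorem Haar_energy (f : Dy K → Dy L → ℝ) :
    ∑ j ∈ range (K + 1), ∑ l ∈ range (L + 1), ∑ x, ∑ y, (HX.DD j l f x y) ^ 2 =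
      ∑ x, ∑ y, (f x y) ^ 2 := by
  have h := HX.SS_En_all f
  unfold HX.SS HX.En HX.all at h
  simp only [if_true] at h
  rw [← h]
  calc ∑ j ∈ range (K + 1), ∑ l ∈ range (L + 1), ∑ x, ∑ y, (HX.DD j l f x y) ^ 2
      = ∑ j ∈ range (K + 1), ∑ x, ∑ l ∈ range (L + 1), ∑ y, (HX.DD j l f x y) ^ 2 :=
        Finset.sum_congr rfl fun j _ => Finset.sum_comm
    _ = ∑ j ∈ range (K + 1), ∑ x, ∑ y, ∑ l ∈ range (L + 1), (HX.DD j l f x y) ^ 2 :=
        Finset.sum_congr rfl fun j _ => Finset.sum_congr rfl fun x _ => Finset.sum_comm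
    _ = ∑ x, ∑ j ∈ range (K + 1), ∑ y, ∑ l ∈ range (L + 1), (HX.DD j l f x y) ^ 2 :=
        Finset.sum_comm
    _ = ∑ x, ∑ y, ∑ j ∈ range (K + 1), ∑ l ∈ range (L + 1), (HX.DD j l f x y) ^ 2 :=
        Finset.sum_congr rfl fun x _ => Finset.sum_comm

/-- Orthogonality. -/
theorem sum_nsq (G : Dy K → Dy L → ℂ) :
    ∑ j ∈ range (K + 1), ∑ l ∈ range (L + 1), nsq (D1 j (D2 l G)) = nsq G := by
  unfold nsq
  simp only [← Finset.sum_div]
  congr 1
  simp only [Haar_norm_sq, Haar_re, Haar_im, Finset.sum_add_distrib]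
  rw [Haar_energy, Haar_energy]

/-- `HyZ k` is `HypSum (-2k-1)` for `k < 0` and `0` for `k ≥ 0`. -/
theorem HyZ_neg {k : ℤ} (hk : k < 0) (G : Dy K → Dy L → ℂ) (x : Dy K) (y : Dy L) :
    HyZ k G x y = HypSum (-2 * k - 1).toNat G x y := by
  unfold HyZ HypSum
  apply Finset.sum_congr rfl
  intro j _
  apply Finset.sum_congr rfl
  intro l _
  have hiff : ((j : ℤ) + l + 2 * k < 0) ↔ (j + l ≤ (-2 * k - 1).toNat) := by omega
  by_cases h : (j : ℤ) + l + 2 * k < 0
  · rw [if_pos h, if_pos (hiff.1 h)]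
  · rw [if_neg h, if_neg fun h' => h (hiff.2 h')]

theorem HyZ_nonneg {k : ℤ} (hk : 0 ≤ k) (G : Dy K → Dy L → ℂ) (x : Dy K) (y : Dy L) :
    HyZ k G x y = 0 := by
  unfold HyZ
  apply Finset.sum_eq_zero
  intro j _
  apply Finset.sum_eq_zero
  intro l _
  rw [if_neg (by omega)]

end Pool.Agent.helper75.HT
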