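import Pool.Agent.helper75.HT.Weights

/-!
# Mult : square sums of the multipliers

`B ≥ 1` with `|η0 t - η0 0| ≤ B min(1,|t|)` (derivative bounded) and `|η0 t| ≤ B min(1, 1/|t|)` (Schwartz decay).  Let
`v = |s|/2^u`, `n = u + 2k`, so `4^k |s| = 2^n v`.  For `n < 0` the term is `≤ B² min(1, 2^n v)² ≤ B² (2^n v)^{1/4}`; different `k` give
different `n`, `∑_{n<0, step 2} 2^{n/4} ≤ 1/(1 - 2^{-1/2}) ≤ 4`.  For `n ≥ 0` the term is `≤ B² min(1, 1/(2^n v))² ≤ B² (2^n v)^{-1/4}`.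
Total `≤ 4B² (v^{1/4} + v^{-1/4})`.
-/

set_option autoImplicit false

namespace Pool.Agent.helper75.HT

open Finset

theorem Mult_bound (η0 : SchwartzMap ℝ ℂ) : ∃ B : ℝ, 0 ≤ B ∧ (∀ t, ‖η0 t‖ ≤ B) ∧
    (∀ t, |t| * ‖η0 t‖ ≤ B) ∧ ∀ t, ‖η0 t - η0 0‖ ≤ B * |t| := by
  obtain ⟨C0, hC0, h0⟩ := η0.decay 0 0
  obtain ⟨C1, hC1, h1⟩ := η0.decay 1 0
  obtain ⟨C2, hC2, h2⟩ := η0.decay 0 1
  refine ⟨C0 + C1 + C2, by positivity, fun t => ?_, fun t => ?_, fun t => ?_⟩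
  · have h := h0 t
    rw [pow_zero, one_mul, norm_iteratedFDeriv_zero] at h
    linarith
  · have h := h1 t
    rw [pow_one, norm_iteratedFDeriv_zero, Real.norm_eq_abs] at h
    linarith
  · have h := Convex.norm_image_sub_le_of_norm_fderiv_le (𝕜 := ℝ) (f := η0) (C := C2)
      (s := Set.univ) (x := 0) (y := t) (fun x _ => η0.differentiableAt)
      (fun x _ => by
        have h3 := h2 x
        rw [pow_zero, one_mul, norm_iteratedFDeriv_one] at h3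
        exact h3) convex_univ (Set.mem_univ _) (Set.mem_univ _)
    rw [sub_zero, Real.norm_eq_abs] at h
    have h4 := abs_nonneg t
    nlinarith [mul_nonneg hC0.le h4, mul_nonneg hC1.le h4]

/-- the factor `2 ^ (-1/4)` -/
noncomputable def Mult_r : ℝ := (1 / 2 : ℝ) ^ (1 / 4 : ℝ)

theorem Mult_r_pos : 0 < Mult_r := Real.rpow_pos_of_pos (by norm_num) _

theorem Mult_r_lt : Mult_r < 1 := Real.rpow_lt_one (by norm_num) (by norm_num) (by norm_num)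

theorem Mult_r_pow (m : ℕ) : ((1 / 2 : ℝ) ^ m) ^ (1 / 4 : ℝ) = Mult_r ^ m :=
  (Real.rpow_pow_comm (by norm_num) _ _).symm

theorem Mult_summable : Summable fun n : ℤ => Mult_r ^ n.natAbs := by
  refine Summable.of_nat_of_neg ?_ ?_
  · simp only [Int.natAbs_natCast]
    exact summable_geometric_of_lt_one Mult_r_pos.le Mult_r_lt
  · simp only [Int.natAbs_neg, Int.natAbs_natCast]
    exact summable_geometric_of_lt_one Mult_r_pos.le Mult_r_lt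

/-- the terms with negative `n` -/
theorem Mult_neg {B x z : ℝ} (hx : 0 < x) (hz0 : 0 ≤ z) (hz : z ≤ 2 * B)
    (hz1 : z ≤ B * x) (hB : 0 ≤ B) : z ^ 2 ≤ 4 * B ^ 2 * x ^ (1 / 4 : ℝ) := by
  have h4 : (0 : ℝ) ≤ 4 * B ^ 2 := by positivity
  by_cases h1 : x ≤ 1
  · have h2 : x ^ 2 ≤ x ^ (1 / 4 : ℝ) := by
      rw [← Real.rpow_natCast x 2]
      exact Real.rpow_le_rpow_of_exponent_ge hx h1 (by norm_num)
    have h3 : z ^ 2 ≤ (B * x) ^ 2 := pow_le_pow_left₀ hz0 hz1 2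
    calc z ^ 2 ≤ (B * x) ^ 2 := h3
      _ = B ^ 2 * x ^ 2 := by ring
      _ ≤ 4 * B ^ 2 * x ^ 2 := by nlinarith [sq_nonneg (B * x)]
      _ ≤ _ := mul_le_mul_of_nonneg_left h2 h4
  · have h2 : 1 ≤ x ^ (1 / 4 : ℝ) := Real.one_le_rpow (not_le.1 h1).le (by norm_num)
    have h3 : z ^ 2 ≤ (2 * B) ^ 2 := pow_le_pow_left₀ hz0 hz 2
    calc z ^ 2 ≤ (2 * B) ^ 2 := h3
      _ = 4 * B ^ 2 * 1 := by ring
      _ ≤ _ := mul_le_mul_of_nonneg_left h2 h4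

/-- the terms with nonnegative `n` -/
theorem Mult_pos {B x z : ℝ} (hx : 0 < x) (hz0 : 0 ≤ z) (hz : z ≤ B)
    (hz1 : x * z ≤ B) (hB : 0 ≤ B) : z ^ 2 ≤ 4 * B ^ 2 * x ^ (-(1 / 4) : ℝ) := by
  have h4 : (0 : ℝ) ≤ 4 * B ^ 2 := by positivity
  by_cases h1 : x ≤ 1
  · have h2 : 1 ≤ x ^ (-(1 / 4) : ℝ) :=
      Real.one_le_rpow_of_pos_of_le_one_of_nonpos hx h1 (by norm_num)
    have h3 : z ^ 2 ≤ B ^ 2 := pow_le_pow_left₀ hz0 hz 2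
    calc z ^ 2 ≤ B ^ 2 := h3
      _ ≤ 4 * B ^ 2 * 1 := by nlinarith [sq_nonneg B]
      _ ≤ _ := mul_le_mul_of_nonneg_left h2 h4
  · have h1' := (not_le.1 h1).le
    have h2 : (x ^ 2)⁻¹ ≤ x ^ (-(1 / 4) : ℝ) := by
      rw [← Real.rpow_natCast x 2, ← Real.rpow_neg hx.le]
      exact Real.rpow_le_rpow_of_exponent_le h1' (by norm_num)
    have h3 : z ≤ B / x := by
      rw [le_div_iff₀ hx, mul_comm]
      exact hz1
    have h5 : z ^ 2 ≤ (B / x) ^ 2 := pow_le_pow_left₀ hz0 h3 2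
    calc z ^ 2 ≤ (B / x) ^ 2 := h5
      _ = B ^ 2 * (x ^ 2)⁻¹ := by
        rw [div_pow, div_eq_mul_inv]
      _ ≤ 4 * B ^ 2 * (x ^ 2)⁻¹ := by
        have : 0 ≤ B ^ 2 * (x ^ 2)⁻¹ := by positivity
        nlinarith
      _ ≤ _ := mul_le_mul_of_nonneg_left h2 h4

theorem Mult_abs (k : ℤ) (u : ℕ) (s : ℝ) :
    |(4 : ℝ) ^ k * s| = (2 : ℝ) ^ ((u : ℤ) + 2 * k) * |s / 2 ^ u| := by
  have h1 : (2 : ℝ) ^ u ≠ 0 := by positivity
  rw [abs_mul, abs_div, abs_of_pos (zpow_pos (by norm_num : (0 : ℝ) < 4) k),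
    abs_of_pos (pow_pos (by norm_num : (0 : ℝ) < 2) u), zpow_add₀ (by norm_num : (2 : ℝ) ≠ 0),
    zpow_natCast, zpow_mul, show (2 : ℝ) ^ (2 : ℤ) = 4 by norm_num]
  field_simp

theorem Mult_term {B : ℝ} (hB : 0 ≤ B) {η0 : SchwartzMap ℝ ℂ} (h0 : ∀ t, ‖η0 t‖ ≤ B)
    (h1 : ∀ t, |t| * ‖η0 t‖ ≤ B) (h2 : ∀ t, ‖η0 t - η0 0‖ ≤ B * |t|) (u : ℕ) {s : ℝ}
    (hs : s ≠ 0) (k : ℤ) :
    ‖η0 ((4 : ℝ) ^ k * s) - (if (u : ℤ) + 2 * k < 0 then η0 0 else 0)‖ ^ 2 ≤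
      4 * B ^ 2 * wt (s / 2 ^ u) * Mult_r ^ ((u : ℤ) + 2 * k).natAbs := by
  set n : ℤ := (u : ℤ) + 2 * k with hn
  set v : ℝ := |s / 2 ^ u| with hv
  have hv0 : 0 < v := abs_pos.2 (div_ne_zero hs (by positivity))
  have hx : |(4 : ℝ) ^ k * s| = (2 : ℝ) ^ n * v := Mult_abs k u s
  have h2n : (0 : ℝ) < (2 : ℝ) ^ n := zpow_pos (by norm_num) n
  have hx0 : 0 < (2 : ℝ) ^ n * v := mul_pos h2n hv0
  have hr : 0 < Mult_r ^ n.natAbs := pow_pos Mult_r_pos _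
  have hwt : wt (s / 2 ^ u) = v ^ (1 / 4 : ℝ) + v ^ (-(1 / 4) : ℝ) := rfl
  have hw1 : 0 < v ^ (1 / 4 : ℝ) := Real.rpow_pos_of_pos hv0 _
  have hw2 : 0 < v ^ (-(1 / 4) : ℝ) := Real.rpow_pos_of_pos hv0 _
  by_cases hneg : n < 0
  · rw [if_pos hneg]
    have h3 := Mult_neg hx0 (norm_nonneg (η0 ((4 : ℝ) ^ k * s) - η0 0))
      (by
        have := norm_sub_le (η0 ((4 : ℝ) ^ k * s)) (η0 0)
        have := h0 ((4 : ℝ) ^ k * s)
        have := h0 0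
        linarith)
      (by
        rw [← hx]
        exact h2 _) hB
    have h4 : ((2 : ℝ) ^ n * v) ^ (1 / 4 : ℝ) = Mult_r ^ n.natAbs * v ^ (1 / 4 : ℝ) := by
      rw [Real.mul_rpow h2n.le hv0.le, ← Mult_r_pow]
      congr 2
      rw [one_div, inv_pow, ← zpow_natCast, ← zpow_neg]
      congr 1
      omega
    rw [h4] at h3
    refine h3.trans ?_
    rw [hwt]
    have : 0 ≤ 4 * B ^ 2 * (Mult_r ^ n.natAbs * v ^ (-(1 / 4) : ℝ)) := by positivity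
    nlinarith
  · rw [if_neg hneg, sub_zero]
    have h3 := Mult_pos hx0 (norm_nonneg (η0 ((4 : ℝ) ^ k * s))) (h0 _)
      (by
        rw [← hx]
        exact h1 _) hB
    have h4 : ((2 : ℝ) ^ n * v) ^ (-(1 / 4) : ℝ) = Mult_r ^ n.natAbs * v ^ (-(1 / 4) : ℝ) := by
      rw [Real.mul_rpow h2n.le hv0.le, ← Mult_r_pow]
      congr 1
      rw [Real.rpow_neg h2n.le, ← Real.inv_rpow h2n.le]
      congr 1
      rw [one_div, inv_pow]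
      congr 1
      rw [← zpow_natCast]
      congr 1
      omega
    rw [h4] at h3
    refine h3.trans ?_
    rw [hwt]
    have : 0 ≤ 4 * B ^ 2 * (Mult_r ^ n.natAbs * v ^ (1 / 4 : ℝ)) := by positivity
    nlinarith

theorem mult_sum (η0 : SchwartzMap ℝ ℂ) : ∃ C : ℝ, 0 ≤ C ∧ ∀ (Λ : Finset ℤ) (u : ℕ) (s : ℝ),
    s ≠ 0 → ∑ k ∈ Λ, ‖η0 ((4 : ℝ) ^ k * s) - (if (u : ℤ) + 2 * k < 0 then η0 0 else 0)‖ ^ 2 ≤
      C * wt (s / 2 ^ u) := by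
  obtain ⟨B, hB, h0, h1, h2⟩ := Mult_bound η0
  have hT : 0 ≤ ∑' n : ℤ, Mult_r ^ n.natAbs := tsum_nonneg fun n => pow_nonneg Mult_r_pos.le _
  refine ⟨4 * B ^ 2 * ∑' n : ℤ, Mult_r ^ n.natAbs, by positivity, fun Λ u s hs => ?_⟩
  have hinj : Function.Injective fun k : ℤ => (u : ℤ) + 2 * k := by
    intro a b hab
    have : (u : ℤ) + 2 * a = u + 2 * b := hab
    omega
  have hw : 0 ≤ wt (s / 2 ^ u) := wt_nonneg _
  calc ∑ k ∈ Λ, ‖η0 ((4 : ℝ) ^ k * s) - (if (u : ℤ) + 2 * k < 0 then η0 0 else 0)‖ ^ 2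
      ≤ ∑ k ∈ Λ, 4 * B ^ 2 * wt (s / 2 ^ u) * Mult_r ^ ((u : ℤ) + 2 * k).natAbs :=
        sum_le_sum fun k _ => Mult_term hB h0 h1 h2 u hs k
    _ = 4 * B ^ 2 * wt (s / 2 ^ u) * ∑ k ∈ Λ, Mult_r ^ ((u : ℤ) + 2 * k).natAbs := by
        rw [mul_sum]
    _ = 4 * B ^ 2 * wt (s / 2 ^ u) *
          ∑ n ∈ Λ.map ⟨fun k : ℤ => (u : ℤ) + 2 * k, hinj⟩, Mult_r ^ n.natAbs := by
        rw [sum_map]
        rfl
    _ ≤ 4 * B ^ 2 * wt (s / 2 ^ u) * ∑' n : ℤ, Mult_r ^ n.natAbs := by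
        refine mul_le_mul_of_nonneg_left ?_ (by positivity)
        exact Mult_summable.sum_le_tsum _ fun n _ => pow_nonneg Mult_r_pos.le _
    _ = _ := by ring

end Pool.Agent.helper75.HT
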