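import Pool.Agent.helper75.HT.Key2
import Pool.Agent.helper75.HT.Mult
import Pool.Agent.helper75.HT.Haar

/-!
# Freq : comparison of the multipliers with the dyadic sums, on the frequency side

Let `g j l = D1 j (D2 l G)`, `m k u ξ = η0 (4^k ξ.1 ξ.2) - (if u + 2k < 0 then η0 0 else 0)`.  By `sum_DD` and `FT_stp2_sum` the function inside is
`∑_{j,l} m k (j+l) ξ · FT (stp2 (g j l)) ξ`.  For `ξ.1, ξ.2 ≠ 0` (almost everywhere), Cauchy-Schwarz with weights and `sum_inv_wt`: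
`|..|² ≤ (∑_{j,l} 1/(wt (ξ.1/2^j) wt (ξ.2/2^l))) ∑_{j,l} wt (ξ.1/2^j) wt (ξ.2/2^l) |m k (j+l) ξ|² |FT (stp2 (g j l)) ξ|²`, first factor `≤ 256`.
Sum over `k ∈ Λ`: `∑_k |m k (j+l) ξ|² ≤ C wt (ξ.1 ξ.2/2^{j+l}) ≤ C wt (ξ.1/2^j) wt (ξ.2/2^l)` (`mult_sum`, `wt_mul_le`).
Integrate and use `key2` (`haarAt_x`, `haarAt_y`), then `sum_nsq`.
-/

set_option autoImplicit false

namespace Pool.Agent.helper75.HT

open Finset MeasureTheory Pool.Agent.helper18.HC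

/-- one term -/
noncomputable def Freq_a {K L : ℕ} (G : Dy K → Dy L → ℂ) (p : ℕ × ℕ) (ξ : ℝ × ℝ) : ℂ :=
  FT (stp2 (D1 p.1 (D2 p.2 G))) ξ

/-- its multiplier -/
noncomputable def Freq_m (η0 : SchwartzMap ℝ ℂ) (k : ℤ) (p : ℕ × ℕ) (ξ : ℝ × ℝ) : ℂ :=
  η0 ((4 : ℝ) ^ k * (ξ.1 * ξ.2)) - (if (((p.1 + p.2 : ℕ)) : ℤ) + 2 * k < 0 then η0 0 else 0)

theorem Freq_FT {K L : ℕ} (G : Dy K → Dy L → ℂ) (ξ : ℝ × ℝ) :
    FT (stp2 G) ξ = ∑ p ∈ range (K + 1) ×ˢ range (L + 1), Freq_a G p ξ := by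
  have h1 : G = fun x y => ∑ p ∈ range (K + 1) ×ˢ range (L + 1), D1 p.1 (D2 p.2 G) x y := by
    funext x y
    rw [Finset.sum_product]
    exact (sum_DD G x y).symm
  conv_lhs => rw [h1]
  rw [FT_stp2_sum]
  rfl

theorem Freq_Hy {K L : ℕ} (k : ℤ) (G : Dy K → Dy L → ℂ) (ξ : ℝ × ℝ) :
    FT (stp2 (HyZ k G)) ξ = ∑ p ∈ range (K + 1) ×ˢ range (L + 1),
      if (((p.1 + p.2 : ℕ)) : ℤ) + 2 * k < 0 then Freq_a G p ξ else 0 := by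
  have h1 : HyZ k G = fun x y => ∑ p ∈ (range (K + 1) ×ˢ range (L + 1)).filter
      (fun p => (((p.1 + p.2 : ℕ)) : ℤ) + 2 * k < 0), D1 p.1 (D2 p.2 G) x y := by
    funext x y
    rw [Finset.sum_filter, Finset.sum_product]
    unfold HyZ
    refine Finset.sum_congr rfl fun j _ => Finset.sum_congr rfl fun l _ => ?_
    push_cast
    rfl
  rw [h1, FT_stp2_sum, Finset.sum_filter]
  rfl

theorem Freq_sum (η0 : SchwartzMap ℝ ℂ) {K L : ℕ} (k : ℤ) (G : Dy K → Dy L → ℂ) (ξ : ℝ × ℝ) :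
    η0 ((4 : ℝ) ^ k * ξ.1 * ξ.2) * FT (stp2 G) ξ - η0 0 * FT (stp2 (HyZ k G)) ξ =
      ∑ p ∈ range (K + 1) ×ˢ range (L + 1), Freq_m η0 k p ξ * Freq_a G p ξ := by
  rw [Freq_FT, Freq_Hy, Finset.mul_sum, Finset.mul_sum, ← Finset.sum_sub_distrib]
  refine Finset.sum_congr rfl fun p _ => ?_
  unfold Freq_m
  rw [mul_assoc ((4 : ℝ) ^ k)]
  split_ifs <;> ring

/-- the weight of one term -/
noncomputable def Freq_w (p : ℕ × ℕ) (ξ : ℝ × ℝ) : ℝ := wt (ξ.1 / 2 ^ p.1) * wt (ξ.2 / 2 ^ p.2)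

theorem Freq_w_pos (p : ℕ × ℕ) {ξ : ℝ × ℝ} (h1 : ξ.1 ≠ 0) (h2 : ξ.2 ≠ 0) : 0 < Freq_w p ξ := by
  have h3 : 2 ≤ wt (ξ.1 / 2 ^ p.1) := two_le_wt (div_ne_zero h1 (by positivity))
  have h4 : 2 ≤ wt (ξ.2 / 2 ^ p.2) := two_le_wt (div_ne_zero h2 (by positivity))
  exact mul_pos (by linarith) (by linarith)

theorem Freq_inv {ξ : ℝ × ℝ} (h1 : ξ.1 ≠ 0) (h2 : ξ.2 ≠ 0) (m n : ℕ) :
    ∑ p ∈ range m ×ˢ range n, (Freq_w p ξ)⁻¹ ≤ 256 := by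
  have h3 : ∑ p ∈ range m ×ˢ range n, (Freq_w p ξ)⁻¹ =
      (∑ j ∈ range m, (wt (ξ.1 / 2 ^ j))⁻¹) * ∑ l ∈ range n, (wt (ξ.2 / 2 ^ l))⁻¹ := by
    rw [Finset.sum_product, Finset.sum_mul_sum]
    refine Finset.sum_congr rfl fun j _ => Finset.sum_congr rfl fun l _ => ?_
    unfold Freq_w
    rw [mul_inv]
  rw [h3]
  have h4 := sum_inv_wt h1 m
  have h5 := sum_inv_wt h2 n
  have h6 : 0 ≤ ∑ j ∈ range m, (wt (ξ.1 / 2 ^ j))⁻¹ :=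
    Finset.sum_nonneg fun j _ => inv_nonneg.2 (wt_nonneg _)
  have h7 : 0 ≤ ∑ l ∈ range n, (wt (ξ.2 / 2 ^ l))⁻¹ :=
    Finset.sum_nonneg fun j _ => inv_nonneg.2 (wt_nonneg _)
  calc _ ≤ (16 : ℝ) * 16 := mul_le_mul h4 h5 h7 (by norm_num)
    _ = 256 := by norm_num

theorem Freq_point {η0 : SchwartzMap ℝ ℂ} {C : ℝ} (hC : 0 ≤ C)
    (hm : ∀ (Λ : Finset ℤ) (u : ℕ) (s : ℝ), s ≠ 0 →
      ∑ k ∈ Λ, ‖η0 ((4 : ℝ) ^ k * s) - (if (u : ℤ) + 2 * k < 0 then η0 0 else 0)‖ ^ 2 ≤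
        C * wt (s / 2 ^ u)) (Λ : Finset ℤ) {K L : ℕ} (G : Dy K → Dy L → ℂ) {ξ : ℝ × ℝ}
    (h1 : ξ.1 ≠ 0) (h2 : ξ.2 ≠ 0) :
    ∑ k ∈ Λ, ‖η0 ((4 : ℝ) ^ k * ξ.1 * ξ.2) * FT (stp2 G) ξ -
        η0 0 * FT (stp2 (HyZ k G)) ξ‖ ^ 2 ≤
      (256 * C) * ∑ p ∈ range (K + 1) ×ˢ range (L + 1), Freq_w p ξ ^ 2 * ‖Freq_a G p ξ‖ ^ 2 := by
  set I := range (K + 1) ×ˢ range (L + 1) with hI
  have hk : ∀ k ∈ Λ, ‖η0 ((4 : ℝ) ^ k * ξ.1 * ξ.2) * FT (stp2 G) ξ -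
        η0 0 * FT (stp2 (HyZ k G)) ξ‖ ^ 2 ≤
      256 * ∑ p ∈ I, Freq_w p ξ * (‖Freq_m η0 k p ξ‖ ^ 2 * ‖Freq_a G p ξ‖ ^ 2) := by
    intro k _
    rw [Freq_sum]
    have h3 : ‖∑ p ∈ I, Freq_m η0 k p ξ * Freq_a G p ξ‖ ≤
        ∑ p ∈ I, ‖Freq_m η0 k p ξ‖ * ‖Freq_a G p ξ‖ := by
      refine (norm_sum_le _ _).trans (Finset.sum_le_sum fun p _ => ?_)
      rw [norm_mul]
    have h4 : (∑ p ∈ I, ‖Freq_m η0 k p ξ‖ * ‖Freq_a G p ξ‖) ^ 2 ≤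
        (∑ p ∈ I, (Freq_w p ξ)⁻¹) *
          ∑ p ∈ I, Freq_w p ξ * (‖Freq_m η0 k p ξ‖ ^ 2 * ‖Freq_a G p ξ‖ ^ 2) := by
      refine Finset.sum_sq_le_sum_mul_sum_of_sq_le_mul I (fun p _ => ?_) (fun p _ => ?_)
        (fun p _ => le_of_eq ?_)
      · exact inv_nonneg.2 (Freq_w_pos p h1 h2).le
      · exact mul_nonneg (Freq_w_pos p h1 h2).le (by positivity)
      · have := (Freq_w_pos p h1 h2).ne'
        field_simp
    have h5 : 0 ≤ ∑ p ∈ I, Freq_w p ξ * (‖Freq_m η0 k p ξ‖ ^ 2 * ‖Freq_a G p ξ‖ ^ 2) :=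
      Finset.sum_nonneg fun p _ => mul_nonneg (Freq_w_pos p h1 h2).le (by positivity)
    calc _ ≤ (∑ p ∈ I, ‖Freq_m η0 k p ξ‖ * ‖Freq_a G p ξ‖) ^ 2 :=
          pow_le_pow_left₀ (norm_nonneg _) h3 2
      _ ≤ _ := h4
      _ ≤ _ := mul_le_mul_of_nonneg_right (Freq_inv h1 h2 _ _) h5
  refine (Finset.sum_le_sum hk).trans ?_
  rw [← Finset.mul_sum, Finset.sum_comm, mul_assoc, Finset.mul_sum (a := C)]
  refine mul_le_mul_of_nonneg_left (Finset.sum_le_sum fun p _ => ?_) (by norm_num)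
  have h6 : ∑ k ∈ Λ, Freq_w p ξ * (‖Freq_m η0 k p ξ‖ ^ 2 * ‖Freq_a G p ξ‖ ^ 2) =
      (Freq_w p ξ * ‖Freq_a G p ξ‖ ^ 2) * ∑ k ∈ Λ, ‖Freq_m η0 k p ξ‖ ^ 2 := by
    rw [Finset.mul_sum]
    refine Finset.sum_congr rfl fun k _ => ?_
    ring
  rw [h6]
  have h7 : ∑ k ∈ Λ, ‖Freq_m η0 k p ξ‖ ^ 2 ≤ C * Freq_w p ξ := by
    have h8 := hm Λ (p.1 + p.2) (ξ.1 * ξ.2) (mul_ne_zero h1 h2)
    refine h8.trans (mul_le_mul_of_nonneg_left ?_ hC)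
    have h9 : ξ.1 * ξ.2 / 2 ^ (p.1 + p.2) = (ξ.1 / 2 ^ p.1) * (ξ.2 / 2 ^ p.2) := by
      rw [pow_add]
      field_simp
    rw [h9]
    exact wt_mul_le _ _
  calc _ ≤ (Freq_w p ξ * ‖Freq_a G p ξ‖ ^ 2) * (C * Freq_w p ξ) :=
        mul_le_mul_of_nonneg_left h7
          (mul_nonneg (Freq_w_pos p h1 h2).le (by positivity))
    _ = _ := by ring

theorem Freq_meas {K L : ℕ} (G : Dy K → Dy L → ℂ) : Measurable (FT (stp2 G)) := by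
  unfold FT
  have h1 : StronglyMeasurable (Function.uncurry fun (ξ y : ℝ × ℝ) =>
      Complex.exp (-(2 * (Real.pi : ℂ) * Complex.I * (((y.1 * ξ.1 + y.2 * ξ.2 : ℝ)) : ℂ))) *
        stp2 G y) := by
    refine StronglyMeasurable.mul ?_ ?_
    · refine Continuous.stronglyMeasurable ?_
      fun_prop
    · exact ((measurable_stp2 G).comp measurable_snd).stronglyMeasurable
  exact (StronglyMeasurable.integral_prod_right h1).measurable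

theorem Freq_le {α ι : Type*} [MeasurableSpace α] (μ : Measure α) (s : Finset ι)
    (f : ι → α → ENNReal) : ∑ i ∈ s, ∫⁻ x, f i x ∂μ ≤ ∫⁻ x, ∑ i ∈ s, f i x ∂μ := by
  classical
  induction s using Finset.induction_on with
  | empty => simp
  | insert a s ha ih =>
    rw [Finset.sum_insert ha]
    simp only [Finset.sum_insert ha]
    exact (add_le_add le_rfl ih).trans (le_lintegral_add _ _)

theorem Freq_ae : ∀ᵐ ξ : ℝ × ℝ, ξ.1 ≠ 0 ∧ ξ.2 ≠ 0 := by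
  have h1 : ∀ᵐ ξ : ℝ × ℝ, ξ.1 ≠ 0 := by
    have h2 : (volume : Measure (ℝ × ℝ)) {ξ | ξ.1 = 0} = 0 := by
      have h3 : {ξ : ℝ × ℝ | ξ.1 = 0} = {(0 : ℝ)} ×ˢ Set.univ := by
        ext ξ
        simp
      rw [h3, Measure.volume_eq_prod, Measure.prod_prod]
      simp
    rw [ae_iff]
    simpa using h2
  have h4 : ∀ᵐ ξ : ℝ × ℝ, ξ.2 ≠ 0 := by
    have h2 : (volume : Measure (ℝ × ℝ)) {ξ | ξ.2 = 0} = 0 := by
      have h3 : {ξ : ℝ × ℝ | ξ.2 = 0} = Set.univ ×ˢ {(0 : ℝ)} := by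
        ext ξ
        simp
      rw [h3, Measure.volume_eq_prod, Measure.prod_prod]
      simp
    rw [ae_iff]
    simpa using h2
  exact h1.and h4

theorem freq (η0 : SchwartzMap ℝ ℂ) : ∃ C : ℝ, 0 ≤ C ∧ ∀ (Λ : Finset ℤ) (K L : ℕ)
    (G : Dy K → Dy L → ℂ),
    ∑ k ∈ Λ, ∫⁻ ξ : ℝ × ℝ, ‖η0 ((4 : ℝ) ^ k * ξ.1 * ξ.2) * FT (stp2 G) ξ -
        η0 0 * FT (stp2 (HyZ k G)) ξ‖ₑ ^ 2 ≤ ENNReal.ofReal (C * nsq G) := by
  obtain ⟨C1, hC1, hm⟩ := mult_sum η0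
  obtain ⟨C2, hC2, hk⟩ := key2
  refine ⟨256 * C1 * C2, by positivity, fun Λ K L G => ?_⟩
  set I := range (K + 1) ×ˢ range (L + 1) with hI
  have h0 : (0 : ℝ) ≤ 256 * C1 := by positivity
  have h1 : ∫⁻ ξ : ℝ × ℝ, ∑ k ∈ Λ, ‖η0 ((4 : ℝ) ^ k * ξ.1 * ξ.2) * FT (stp2 G) ξ -
        η0 0 * FT (stp2 (HyZ k G)) ξ‖ₑ ^ 2 ≤
      ∫⁻ ξ : ℝ × ℝ, ENNReal.ofReal (256 * C1) * ∑ p ∈ I,
        (ENNReal.ofReal (wt (ξ.1 / 2 ^ p.1) ^ 2 * wt (ξ.2 / 2 ^ p.2) ^ 2) *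
          ‖Freq_a G p ξ‖ₑ ^ 2) := by
    refine lintegral_mono_ae (Freq_ae.mono fun ξ hξ => ?_)
    have h2 := ENNReal.ofReal_le_ofReal (Freq_point hC1 hm Λ G hξ.1 hξ.2)
    rw [ENNReal.ofReal_sum_of_nonneg (fun k _ => by positivity), ENNReal.ofReal_mul h0,
      ENNReal.ofReal_sum_of_nonneg (fun k _ => by positivity)] at h2
    refine le_trans (le_of_eq ?_) (h2.trans (le_of_eq ?_))
    · refine Finset.sum_congr rfl fun k _ => ?_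
      rw [ENNReal.ofReal_pow (norm_nonneg _), ofReal_norm]
    · congr 1
      refine Finset.sum_congr rfl fun p _ => ?_
      rw [ENNReal.ofReal_mul (by positivity), ENNReal.ofReal_pow (norm_nonneg _),
        ofReal_norm]
      unfold Freq_w
      rw [mul_pow]
  have hmeas : ∀ p ∈ I, Measurable fun ξ : ℝ × ℝ =>
      (ENNReal.ofReal (wt (ξ.1 / 2 ^ p.1) ^ 2 * wt (ξ.2 / 2 ^ p.2) ^ 2) *
          ‖Freq_a G p ξ‖ₑ ^ 2) := by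
    intro p _
    have h3 : Measurable fun ξ : ℝ × ℝ => wt (ξ.1 / 2 ^ p.1) :=
      measurable_wt.comp (measurable_fst.div_const _)
    have h4 : Measurable fun ξ : ℝ × ℝ => wt (ξ.2 / 2 ^ p.2) :=
      measurable_wt.comp (measurable_snd.div_const _)
    have h5 : Measurable fun ξ : ℝ × ℝ => Freq_a G p ξ := Freq_meas _
    exact ((h3.pow_const 2).mul (h4.pow_const 2)).ennreal_ofReal.mul (h5.enorm.pow_const 2)
  refine (Freq_le _ Λ _).trans (h1.trans ?_)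
  rw [lintegral_const_mul _ (Finset.measurable_sum I hmeas), lintegral_finsetSum I hmeas]
  have h6 : ∑ p ∈ I, ∫⁻ ξ : ℝ × ℝ,
      (ENNReal.ofReal (wt (ξ.1 / 2 ^ p.1) ^ 2 * wt (ξ.2 / 2 ^ p.2) ^ 2) *
          ‖Freq_a G p ξ‖ₑ ^ 2) ≤ ∑ p ∈ I, ENNReal.ofReal (C2 * nsq (D1 p.1 (D2 p.2 G))) := by
    refine Finset.sum_le_sum fun p hp => ?_
    rw [hI, Finset.mem_product, Finset.mem_range, Finset.mem_range] at hp
    exact hk K L p.1 p.2 (by omega) (by omega) (D1 p.1 (D2 p.2 G))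
      (fun y => haarAt_x (by omega) p.2 G y) (fun x => haarAt_y p.1 (by omega) G x)
  have hn : ∀ H : Dy K → Dy L → ℂ, 0 ≤ nsq H := by
    intro H
    unfold nsq
    positivity
  have h7 : ∑ p ∈ I, ENNReal.ofReal (C2 * nsq (D1 p.1 (D2 p.2 G))) =
      ENNReal.ofReal (C2 * nsq G) := by
    rw [← ENNReal.ofReal_sum_of_nonneg fun p _ => mul_nonneg hC2 (hn _), ← Finset.mul_sum,
      Finset.sum_product, sum_nsq]
  calc _ ≤ ENNReal.ofReal (256 * C1) * ENNReal.ofReal (C2 * nsq G) := by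
        rw [← h7]
        gcongr
    _ = _ := by
        rw [← ENNReal.ofReal_mul h0]
        congr 1
        ring

end Pool.Agent.helper75.HT
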