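import Pool.Agent.helper75.HT.Step
import Pool.Agent.helper75.HT.Haar
import Pool.Agent.helper75.HX.Final

/-!
# Grid : the dyadic theorem for step functions on the plane

`complex_hyp` (`Pool.Agent.helper75.HX.Final`) for `Λ' = {-2k-1 : k ∈ Λ, k < 0}` (if it is nonempty; otherwise the left side
is `0`), `|Λ'| ≤ |Λ|`, `HyZ_neg`, `HyZ_nonneg`, `lintegral_dg2`.
-/

set_option autoImplicit false

namespace Pool.Agent.helper75.HT

open Finset MeasureTheory Pool.Agent.helper18.HC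

theorem Grid_AN_mono {a b : ℕ} (ha : 1 ≤ a) (hab : a ≤ b) : AN a ≤ AN b := by
  unfold AN
  have ha' : (1 : ℝ) ≤ (a : ℝ) := by exact_mod_cast ha
  have hab' : (a : ℝ) ≤ (b : ℝ) := by exact_mod_cast hab
  have h1 : 0 ≤ Real.log (a : ℝ) := Real.log_nonneg ha'
  have h2 : Real.log (a : ℝ) ≤ Real.log (b : ℝ) := Real.log_le_log (by linarith) hab'
  have h3 : 0 ≤ Real.log (1 + Real.log (a : ℝ)) := Real.log_nonneg (by linarith)
  have h4 : Real.log (1 + Real.log (a : ℝ)) ≤ Real.log (1 + Real.log (b : ℝ)) :=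
    Real.log_le_log (by linarith) (by linarith)
  exact pow_le_pow_left₀ (by linarith) (by linarith) 10

theorem Grid_AN_nonneg {a : ℕ} (ha : 1 ≤ a) : 0 ≤ AN a := by
  unfold AN
  have ha' : (1 : ℝ) ≤ (a : ℝ) := by exact_mod_cast ha
  have h1 : 0 ≤ Real.log (a : ℝ) := Real.log_nonneg ha'
  have h3 : 0 ≤ Real.log (1 + Real.log (a : ℝ)) := Real.log_nonneg (by linarith)
  exact pow_nonneg (by linarith) 10

theorem Grid_dyadic {K L : ℕ} (Λ : Finset ℤ) (hΛ : Λ.Nonempty) (G : Dy K → Dy L → ℂ) :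
    ∃ ψ : Dy K → Dy L → ℝ, (∀ x y, 0 ≤ ψ x y) ∧ (∀ k ∈ Λ, ∀ x y, ‖HyZ k G x y‖ ≤ ψ x y) ∧
      ∑ x, ∑ y, ψ x y ^ 2 ≤ Pool.Agent.helper75.HX.CC * AN Λ.card * ∑ x, ∑ y, ‖G x y‖ ^ 2 := by
  classical
  set Λ' : Finset ℕ := (Λ.filter fun k => k < 0).image fun k => (-2 * k - 1).toNat with hΛ'
  have hC : 0 ≤ Pool.Agent.helper75.HX.CC := by
    unfold Pool.Agent.helper75.HX.CC
    positivity
  have hG0 : 0 ≤ ∑ x, ∑ y, ‖G x y‖ ^ 2 := by positivity
  have hc1 : 1 ≤ Λ.card := Finset.card_pos.mpr hΛ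
  by_cases hne : Λ'.Nonempty
  · refine ⟨fun x y => Λ'.sup' hne fun n => ‖HypSum n G x y‖, ?_, ?_, ?_⟩
    · intro x y
      obtain ⟨n, hn⟩ := hne
      exact (norm_nonneg _).trans (Finset.le_sup' (fun n => ‖HypSum n G x y‖) hn)
    · intro k hk x y
      by_cases hk0 : k < 0
      · have hm : (-2 * k - 1).toNat ∈ Λ' := by
          rw [hΛ', Finset.mem_image]
          exact ⟨k, Finset.mem_filter.2 ⟨hk, hk0⟩, rfl⟩
        rw [HyZ_neg hk0]
        exact Finset.le_sup' (fun n => ‖HypSum n G x y‖) hm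
      · rw [HyZ_nonneg (not_lt.1 hk0), norm_zero]
        obtain ⟨n, hn⟩ := hne
        exact (norm_nonneg _).trans (Finset.le_sup' (fun n => ‖HypSum n G x y‖) hn)
    · refine (Pool.Agent.helper75.HX.complex_hyp Λ' hne G).trans ?_
      refine mul_le_mul_of_nonneg_right ?_ hG0
      refine mul_le_mul_of_nonneg_left ?_ hC
      have h1 : 1 ≤ Λ'.card := Finset.card_pos.mpr hne
      have h2 : Λ'.card ≤ Λ.card := Finset.card_image_le.trans (Finset.card_filter_le _ _)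
      exact Grid_AN_mono h1 h2
  · refine ⟨fun _ _ => 0, fun _ _ => le_rfl, ?_, ?_⟩
    · intro k hk x y
      have hk0 : 0 ≤ k := by
        by_contra h
        refine hne ⟨(-2 * k - 1).toNat, ?_⟩
        rw [hΛ', Finset.mem_image]
        exact ⟨k, Finset.mem_filter.2 ⟨hk, not_le.1 h⟩, rfl⟩
      rw [HyZ_nonneg hk0, norm_zero]
    · have h1 : 0 ≤ Pool.Agent.helper75.HX.CC * AN Λ.card * ∑ x, ∑ y, ‖G x y‖ ^ 2 :=
        mul_nonneg (mul_nonneg hC (Grid_AN_nonneg hc1)) hG0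
      simpa using h1

theorem Grid_toReal {K L : ℕ} (ψ : Dy K → Dy L → ℝ) :
    (∑ x, ∑ y, ENNReal.ofReal (ψ x y ^ 2)) / ((2 : ENNReal) ^ K * 2 ^ L) =
      ENNReal.ofReal ((∑ x, ∑ y, ψ x y ^ 2) / (2 ^ K * 2 ^ L)) := by
  rw [ENNReal.ofReal_div_of_pos (by positivity), ENNReal.ofReal_mul (by positivity),
    ENNReal.ofReal_pow (by norm_num), ENNReal.ofReal_pow (by norm_num), ENNReal.ofReal_ofNat,
    ENNReal.ofReal_sum_of_nonneg fun x _ => Finset.sum_nonneg fun y _ => sq_nonneg _]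
  congr 1
  refine Finset.sum_congr rfl fun x _ => ?_
  rw [ENNReal.ofReal_sum_of_nonneg fun y _ => sq_nonneg _]

theorem grid_max : ∃ C : ℝ, 0 ≤ C ∧ ∀ (Λ : Finset ℤ) (_ : Λ.Nonempty) (K L : ℕ)
    (G : Dy K → Dy L → ℂ),
    ∫⁻ x, (⨆ k ∈ Λ, ‖stp2 (HyZ k G) x‖ₑ) ^ 2 ≤ ENNReal.ofReal (C * AN Λ.card * nsq G) := by
  refine ⟨Pool.Agent.helper75.HX.CC, ?_, fun Λ hΛ K L G => ?_⟩
  · unfold Pool.Agent.helper75.HX.CC
    positivity
  obtain ⟨ψ, hψ0, hψ, hsum⟩ := Grid_dyadic Λ hΛ G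
  have hms : MeasurableSet (Set.Ico (0 : ℝ) 1 ×ˢ Set.Ico (0 : ℝ) 1) :=
    measurableSet_Ico.prod measurableSet_Ico
  calc ∫⁻ x, (⨆ k ∈ Λ, ‖stp2 (HyZ k G) x‖ₑ) ^ 2
      ≤ ∫⁻ x, (Set.Ico (0 : ℝ) 1 ×ˢ Set.Ico (0 : ℝ) 1).indicator
          (fun x : ℝ × ℝ => ENNReal.ofReal (ψ (dg K x.1) (dg L x.2) ^ 2)) x := by
        refine lintegral_mono fun x => ?_
        by_cases hx : x ∈ Set.Ico (0 : ℝ) 1 ×ˢ Set.Ico (0 : ℝ) 1
        · rw [Set.indicator_of_mem hx]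
          have hx' : (0 ≤ x.1 ∧ x.1 < 1) ∧ (0 ≤ x.2 ∧ x.2 < 1) := hx
          rw [ENNReal.ofReal_pow (hψ0 _ _)]
          refine pow_le_pow_left₀ zero_le ?_ 2
          refine iSup₂_le fun k hk => ?_
          unfold stp2
          rw [if_pos hx', ← ofReal_norm]
          exact ENNReal.ofReal_le_ofReal (hψ k hk _ _)
        · rw [Set.indicator_of_notMem hx]
          have hx' : ¬((0 ≤ x.1 ∧ x.1 < 1) ∧ (0 ≤ x.2 ∧ x.2 < 1)) := hx
          have h0 : (⨆ k ∈ Λ, ‖stp2 (HyZ k G) x‖ₑ) = 0 := by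
            refine le_antisymm (iSup₂_le fun k hk => ?_) zero_le
            unfold stp2
            rw [if_neg hx', enorm_zero]
          rw [h0]
          simp
    _ = ∫⁻ x in Set.Ico (0 : ℝ) 1 ×ˢ Set.Ico (0 : ℝ) 1,
          ENNReal.ofReal (ψ (dg K x.1) (dg L x.2) ^ 2) := lintegral_indicator hms _
    _ = (∑ x, ∑ y, ENNReal.ofReal (ψ x y ^ 2)) / (2 ^ K * 2 ^ L) :=
        lintegral_dg2 fun x y => ENNReal.ofReal (ψ x y ^ 2)
    _ = ENNReal.ofReal ((∑ x, ∑ y, ψ x y ^ 2) / (2 ^ K * 2 ^ L)) := Grid_toReal ψ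
    _ ≤ ENNReal.ofReal (Pool.Agent.helper75.HX.CC * AN Λ.card * nsq G) := by
        refine ENNReal.ofReal_le_ofReal ?_
        unfold nsq
        rw [← mul_div_assoc]
        exact div_le_div_of_nonneg_right hsum (by positivity)

end Pool.Agent.helper75.HT
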