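import Pool.Agent.helper75.HT.Planch
import Pool.Agent.helper75.HT.Freq
import Pool.Agent.helper75.HT.Grid

/-!
# Assemble : the main inequality for functions near a step function

`R k = Tk η0 k f - η0 0 · stp2 (HyZ k G)`.  `planch2` with `u = η0 (4^k ξ.1 ξ.2) FT f` (integrable and in `L²` because `η0` is bounded),
`g = η0 0 · stp2 (HyZ k G)`: `∫ |R k|² = ∫ |u - FT g|² ≤ 2 ∫ |η0 (..)|² |FT f - FT (stp2 G)|² + 2 ∫ |η0 (..) FT (stp2 G) - η0 0 FT (stp2 (HyZ k G))|²`,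
first term `≤ 2 C₀² ∫ ‖f - stp2 G‖²` (`planch` for `f - stp2 G`), the sum over `k` of the second terms is at most
`2 C nsq G` (`freq`).  `(⨆ ‖Tk f‖)² ≤ 2 ‖η0 0‖² (⨆ ‖stp2 (HyZ k G)‖)² + 2 ∑_k ‖R k‖²`, `grid_max`, and
`nsq G = ∫ ‖stp2 G‖² ≤ 2 ∫ ‖f‖² + 2 ∫ ‖f - stp2 G‖²` (`lintegral_stp2_sq`).  `AN N ≥ 1` for `N ≥ 1`.
-/

set_option autoImplicit false

namespace Pool.Agent.helper75.HT

open Finset MeasureTheory Pool.Agent.helper18.HC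

private theorem Assemble_sq_add (a b : ENNReal) : (a + b) ^ 2 ≤ 4 * a ^ 2 + 4 * b ^ 2 := by
  rcases le_total a b with h | h
  · calc (a + b) ^ 2 ≤ (b + b) ^ 2 := pow_le_pow_left' (add_le_add_left h b) 2
      _ = 4 * b ^ 2 := by ring
      _ ≤ 4 * a ^ 2 + 4 * b ^ 2 := le_add_self
  · calc (a + b) ^ 2 ≤ (a + a) ^ 2 := pow_le_pow_left' (add_le_add_right h a) 2
      _ = 4 * a ^ 2 := by ring
      _ ≤ 4 * a ^ 2 + 4 * b ^ 2 := le_self_add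

private theorem Assemble_sup_sq (Λ : Finset ℤ) (a : ℤ → ENNReal) {M : ENNReal}
    (h : ∀ k ∈ Λ, a k ^ 2 ≤ M) : (⨆ k ∈ Λ, a k) ^ 2 ≤ M := by
  have h1 : ∀ x : ENNReal, (x ^ 2) ^ (1 / 2 : ℝ) = x := by
    intro x
    rw [← ENNReal.rpow_natCast, ← ENNReal.rpow_mul]
    norm_num
  have h2 : (⨆ k ∈ Λ, a k) ≤ M ^ (1 / 2 : ℝ) := by
    refine iSup₂_le fun k hk => ?_
    rw [← h1 (a k)]
    exact ENNReal.rpow_le_rpow (h k hk) (by norm_num)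
  calc (⨆ k ∈ Λ, a k) ^ 2 ≤ (M ^ (1 / 2 : ℝ)) ^ 2 := pow_le_pow_left' h2 2
    _ = M := by
      rw [← ENNReal.rpow_natCast, ← ENNReal.rpow_mul]
      norm_num

private theorem Assemble_meas_FT {g : ℝ × ℝ → ℂ} (hg : Measurable g) : Measurable (FT g) := by
  have h1 : Measurable fun p : (ℝ × ℝ) × (ℝ × ℝ) =>
      Complex.exp (-(2 * (Real.pi : ℂ) * Complex.I * (((p.2.1 * p.1.1 + p.2.2 * p.1.2 : ℝ)) : ℂ))) *
        g p.2 := by
    refine Measurable.mul ?_ (hg.comp measurable_snd)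
    have h2 : Continuous fun p : (ℝ × ℝ) × (ℝ × ℝ) =>
        Complex.exp (-(2 * (Real.pi : ℂ) * Complex.I *
          (((p.2.1 * p.1.1 + p.2.2 * p.1.2 : ℝ)) : ℂ))) := by fun_prop
    exact h2.measurable
  exact (h1.stronglyMeasurable.integral_prod_right' (ν := volume)).measurable

private theorem Assemble_meas_IFT {g : ℝ × ℝ → ℂ} (hg : Measurable g) : Measurable (IFT g) := by
  have h1 : Measurable fun p : (ℝ × ℝ) × (ℝ × ℝ) =>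
      Complex.exp (2 * (Real.pi : ℂ) * Complex.I * (((p.1.1 * p.2.1 + p.1.2 * p.2.2 : ℝ)) : ℂ)) *
        g p.2 := by
    refine Measurable.mul ?_ (hg.comp measurable_snd)
    have h2 : Continuous fun p : (ℝ × ℝ) × (ℝ × ℝ) =>
        Complex.exp (2 * (Real.pi : ℂ) * Complex.I *
          (((p.1.1 * p.2.1 + p.1.2 * p.2.2 : ℝ)) : ℂ)) := by fun_prop
    exact h2.measurable
  exact (h1.stronglyMeasurable.integral_prod_right' (ν := volume)).measurable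

private theorem Assemble_FT_const (c : ℂ) (g : ℝ × ℝ → ℂ) (ξ : ℝ × ℝ) :
    FT (fun x => c * g x) ξ = c * FT g ξ := by
  unfold FT
  rw [← integral_const_mul]
  congr 1
  funext y
  ring

private theorem Assemble_bexp (g : ℝ × ℝ → ℂ) (ξ y : ℝ × ℝ) :
    ‖Complex.exp (-(2 * (Real.pi : ℂ) * Complex.I * (((y.1 * ξ.1 + y.2 * ξ.2 : ℝ)) : ℂ))) * g y‖ =
      ‖g y‖ := by
  have h1 : -(2 * (Real.pi : ℂ) * Complex.I * (((y.1 * ξ.1 + y.2 * ξ.2 : ℝ)) : ℂ)) =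
      ((-(2 * Real.pi * (y.1 * ξ.1 + y.2 * ξ.2)) : ℝ) : ℂ) * Complex.I := by
    push_cast
    ring
  rw [norm_mul, h1, Complex.norm_exp_ofReal_mul_I, one_mul]

private theorem Assemble_int {g : ℝ × ℝ → ℂ} (hg : Integrable g) (ξ : ℝ × ℝ) :
    Integrable fun y : ℝ × ℝ =>
      Complex.exp (-(2 * (Real.pi : ℂ) * Complex.I * (((y.1 * ξ.1 + y.2 * ξ.2 : ℝ)) : ℂ))) *
        g y := by
  refine hg.norm.mono' ?_ (Filter.Eventually.of_forall fun y => (Assemble_bexp g ξ y).le)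
  refine AEStronglyMeasurable.mul ?_ hg.aestronglyMeasurable
  have h2 : Continuous fun y : ℝ × ℝ =>
      Complex.exp (-(2 * (Real.pi : ℂ) * Complex.I *
        (((y.1 * ξ.1 + y.2 * ξ.2 : ℝ)) : ℂ))) := by fun_prop
  exact h2.aestronglyMeasurable

private theorem Assemble_FT_sub {g h : ℝ × ℝ → ℂ} (hg : Integrable g) (hh : Integrable h)
    (ξ : ℝ × ℝ) : FT (fun x => g x - h x) ξ = FT g ξ - FT h ξ := by
  unfold FT
  rw [← integral_sub (Assemble_int hg ξ) (Assemble_int hh ξ)]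
  congr 1
  funext y
  ring

private theorem Assemble_AN {N : ℕ} (hN : 1 ≤ N) : 1 ≤ AN N := by
  unfold AN
  have h1 : (1 : ℝ) ≤ (N : ℝ) := by exact_mod_cast hN
  have h2 : 0 ≤ Real.log N := Real.log_nonneg h1
  have h3 : 0 ≤ Real.log (1 + Real.log N) := Real.log_nonneg (by linarith)
  exact one_le_pow₀ (by linarith)

private theorem Assemble_nsq {f : ℝ × ℝ → ℂ} (hf : Nice f) {K L : ℕ} (G : Dy K → Dy L → ℂ) :
    ENNReal.ofReal (nsq G) ≤ 4 * (∫⁻ x, ‖f x‖ₑ ^ 2) + 4 * ∫⁻ x, ‖f x - stp2 G x‖ₑ ^ 2 := by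
  rw [← lintegral_stp2_sq]
  have hm1 : Measurable fun x => 4 * ‖f x‖ₑ ^ 2 :=
    ((hf.cont.measurable.enorm).pow_const 2).const_mul 4
  have hm2 : Measurable fun x => ‖f x‖ₑ ^ 2 := (hf.cont.measurable.enorm).pow_const 2
  have hm3 : Measurable fun x => ‖f x - stp2 G x‖ₑ ^ 2 :=
    ((hf.cont.measurable.sub (measurable_stp2 G)).enorm).pow_const 2
  rw [← lintegral_const_mul 4 hm2, ← lintegral_const_mul 4 hm3, ← lintegral_add_left hm1]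
  refine lintegral_mono fun x => ?_
  have h1 : ‖stp2 G x‖ₑ ≤ ‖f x‖ₑ + ‖f x - stp2 G x‖ₑ := by
    have h2 : stp2 G x = f x - (f x - stp2 G x) := by ring
    calc ‖stp2 G x‖ₑ = ‖f x - (f x - stp2 G x)‖ₑ := by rw [← h2]
      _ ≤ ‖f x‖ₑ + ‖f x - stp2 G x‖ₑ := enorm_sub_le
  exact (pow_le_pow_left' h1 2).trans (Assemble_sq_add _ _)

private theorem Assemble_bdd (η0 : SchwartzMap ℝ ℂ) : ∃ C0 : ℝ, 0 ≤ C0 ∧ ∀ t, ‖η0 t‖ ≤ C0 := by
  refine ⟨SchwartzMap.seminorm ℝ 0 0 η0, apply_nonneg _ _, fun t => ?_⟩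
  exact SchwartzMap.norm_le_seminorm ℝ η0 t

private theorem Assemble_R (η0 : SchwartzMap ℝ ℂ) {C0 : ℝ} (hC0 : 0 ≤ C0)
    (hC : ∀ t, ‖η0 t‖ ≤ C0) {f : ℝ × ℝ → ℂ} (hf : Nice f) {K L : ℕ} (G : Dy K → Dy L → ℂ)
    (k : ℤ) :
    ∫⁻ x, ‖Tk η0 k f x - η0 0 * stp2 (HyZ k G) x‖ₑ ^ 2 ≤
      ENNReal.ofReal (4 * C0 ^ 2) * (∫⁻ x, ‖f x - stp2 G x‖ₑ ^ 2) +
      4 * ∫⁻ ξ : ℝ × ℝ, ‖η0 ((4 : ℝ) ^ k * ξ.1 * ξ.2) * FT (stp2 G) ξ -
        η0 0 * FT (stp2 (HyZ k G)) ξ‖ₑ ^ 2 := by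
  have hηc : Continuous fun ξ : ℝ × ℝ => η0 ((4 : ℝ) ^ k * ξ.1 * ξ.2) :=
    η0.continuous.comp (by fun_prop)
  have huc : Continuous fun ξ : ℝ × ℝ => η0 ((4 : ℝ) ^ k * ξ.1 * ξ.2) * FT f ξ :=
    hηc.mul hf.contF
  have hu1 : Integrable fun ξ : ℝ × ℝ => η0 ((4 : ℝ) ^ k * ξ.1 * ξ.2) * FT f ξ := by
    refine (hf.intF.norm.const_mul C0).mono' huc.aestronglyMeasurable
      (Filter.Eventually.of_forall fun ξ => ?_)
    rw [norm_mul]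
    exact mul_le_mul_of_nonneg_right (hC _) (norm_nonneg _)
  have hu2 : MemLp (fun ξ : ℝ × ℝ => η0 ((4 : ℝ) ^ k * ξ.1 * ξ.2) * FT f ξ) 2 := by
    refine MemLp.of_le_mul (c := C0) hf.sqF huc.aestronglyMeasurable
      (Filter.Eventually.of_forall fun ξ => ?_)
    rw [norm_mul]
    exact mul_le_mul_of_nonneg_right (hC _) (norm_nonneg _)
  have hg1 : Integrable fun x => η0 0 * stp2 (HyZ k G) x := (integrable_stp2 _).const_mul _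
  have hg2 : MemLp (fun x => η0 0 * stp2 (HyZ k G) x) 2 := (memLp_stp2 _).const_mul _
  have hP := planch2 hu1 hu2 hg1 hg2
  have hd1 : Integrable fun x => f x - stp2 G x := hf.int.sub (integrable_stp2 G)
  have hd2 : MemLp (fun x => f x - stp2 G x) 2 := hf.sq.sub (memLp_stp2 G)
  have hD := planch hd1 hd2
  have hFTS : Measurable (FT (stp2 G)) := Assemble_meas_FT (measurable_stp2 G)
  have hFTH : Measurable (FT (stp2 (HyZ k G))) := Assemble_meas_FT (measurable_stp2 _)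
  have hm1 : Measurable fun ξ : ℝ × ℝ => ‖FT (fun x => f x - stp2 G x) ξ‖ₑ ^ 2 :=
    (Assemble_meas_FT (hf.cont.measurable.sub (measurable_stp2 G))).enorm.pow_const 2
  have hm2 : Measurable fun ξ : ℝ × ℝ =>
      ENNReal.ofReal (4 * C0 ^ 2) * ‖FT (fun x => f x - stp2 G x) ξ‖ₑ ^ 2 := hm1.const_mul _
  have hm3 : Measurable fun ξ : ℝ × ℝ => ‖η0 ((4 : ℝ) ^ k * ξ.1 * ξ.2) * FT (stp2 G) ξ -
        η0 0 * FT (stp2 (HyZ k G)) ξ‖ₑ ^ 2 :=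
    (((hηc.measurable.mul hFTS).sub (hFTH.const_mul _)).enorm).pow_const 2
  change ∫⁻ x, ‖IFT (fun ξ => η0 ((4 : ℝ) ^ k * ξ.1 * ξ.2) * FT f ξ) x -
    η0 0 * stp2 (HyZ k G) x‖ₑ ^ 2 ≤ _
  rw [hP, ← hD, ← lintegral_const_mul _ hm1, ← lintegral_const_mul _ hm3,
    ← lintegral_add_left hm2]
  refine lintegral_mono fun ξ => ?_
  simp only
  rw [Assemble_FT_const, Assemble_FT_sub hf.int (integrable_stp2 G)]
  set a := η0 ((4 : ℝ) ^ k * ξ.1 * ξ.2) with ha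
  have h1 : a * FT f ξ - η0 0 * FT (stp2 (HyZ k G)) ξ = a * (FT f ξ - FT (stp2 G) ξ) +
      (a * FT (stp2 G) ξ - η0 0 * FT (stp2 (HyZ k G)) ξ) := by ring
  rw [h1]
  refine (pow_le_pow_left' (enorm_add_le _ _) 2).trans ((Assemble_sq_add _ _).trans ?_)
  refine add_le_add ?_ le_rfl
  have h2 : ‖a‖ₑ ≤ ENNReal.ofReal C0 := by
    rw [← ofReal_norm]
    exact ENNReal.ofReal_le_ofReal (hC _)
  rw [enorm_mul, mul_pow, ← mul_assoc]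
  refine mul_le_mul_left ?_ _
  rw [ENNReal.ofReal_mul (by norm_num), ENNReal.ofReal_pow hC0]
  refine mul_le_mul' ?_ (pow_le_pow_left' h2 2)
  norm_num

theorem assemble (η0 : SchwartzMap ℝ ℂ) : ∃ C : ℝ, 0 ≤ C ∧ ∀ N : ℕ, 1 ≤ N → ∃ B : ℝ, 0 ≤ B ∧
    ∀ (Λ : Finset ℤ) (_ : Λ.card = N) (f : ℝ × ℝ → ℂ) (_ : Nice f) (K L : ℕ)
      (G : Dy K → Dy L → ℂ),
    ∫⁻ x, (⨆ k ∈ Λ, ‖Tk η0 k f x‖ₑ) ^ 2 ≤
      ENNReal.ofReal (C * AN N) * (∫⁻ x, ‖f x‖ₑ ^ 2) +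
        ENNReal.ofReal B * ∫⁻ x, ‖f x - stp2 G x‖ₑ ^ 2 := by
  obtain ⟨C0, hC0, hC⟩ := Assemble_bdd η0
  obtain ⟨Cf, hCf, hfreq⟩ := freq η0
  obtain ⟨Cg, hCg, hgrid⟩ := grid_max
  set D : ℝ := 4 * ‖η0 0‖ ^ 2 * Cg + 16 * Cf with hD
  have hD0 : 0 ≤ D := by positivity
  refine ⟨4 * D, by positivity, fun N hN => ?_⟩
  have hAN := Assemble_AN hN
  refine ⟨4 * D * AN N + 16 * C0 ^ 2 * N, by positivity, ?_⟩
  intro Λ hΛ f hf K L G
  have hΛne : Λ.Nonempty := by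
    rw [← Finset.card_pos]
    omega
  set I : ENNReal := ∫⁻ x, ‖f x - stp2 G x‖ₑ ^ 2 with hI
  set Fn : ENNReal := ∫⁻ x, ‖f x‖ₑ ^ 2 with hFn
  set R : ℤ → ℝ × ℝ → ℂ := fun k x => Tk η0 k f x - η0 0 * stp2 (HyZ k G) x with hR
  have hTm : ∀ k, Measurable (Tk η0 k f) := by
    intro k
    refine Assemble_meas_IFT ?_
    have hηc : Continuous fun ξ : ℝ × ℝ => η0 ((4 : ℝ) ^ k * ξ.1 * ξ.2) :=
      η0.continuous.comp (by fun_prop)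
    exact (hηc.mul hf.contF).measurable
  have hRm : ∀ k, Measurable fun x => ‖R k x‖ₑ ^ 2 := by
    intro k
    exact (((hTm k).sub ((measurable_stp2 _).const_mul _)).enorm).pow_const 2
  have hSm : Measurable fun x => (⨆ k ∈ Λ, ‖stp2 (HyZ k G) x‖ₑ) ^ 2 := by
    refine Measurable.pow_const ?_ 2
    refine Measurable.iSup fun k => ?_
    exact Measurable.iSup_Prop _ (measurable_stp2 _).enorm
  -- pointwise bound
  have hpt : ∀ x, (⨆ k ∈ Λ, ‖Tk η0 k f x‖ₑ) ^ 2 ≤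
      4 * ‖η0 0‖ₑ ^ 2 * (⨆ k ∈ Λ, ‖stp2 (HyZ k G) x‖ₑ) ^ 2 + 4 * ∑ k ∈ Λ, ‖R k x‖ₑ ^ 2 := by
    intro x
    refine Assemble_sup_sq Λ _ fun k hk => ?_
    have h1 : Tk η0 k f x = η0 0 * stp2 (HyZ k G) x + R k x := by
      simp only [hR]
      ring
    have h2 : ‖stp2 (HyZ k G) x‖ₑ ≤ ⨆ k ∈ Λ, ‖stp2 (HyZ k G) x‖ₑ :=
      le_iSup₂ (f := fun k (_ : k ∈ Λ) => ‖stp2 (HyZ k G) x‖ₑ) k hk
    have h3 : ‖R k x‖ₑ ^ 2 ≤ ∑ k ∈ Λ, ‖R k x‖ₑ ^ 2 :=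
      Finset.single_le_sum (f := fun k => ‖R k x‖ₑ ^ 2) (fun _ _ => zero_le) hk
    rw [h1]
    refine (pow_le_pow_left' (enorm_add_le _ _) 2).trans ((Assemble_sq_add _ _).trans ?_)
    refine add_le_add ?_ ?_
    · rw [enorm_mul, mul_pow, mul_assoc]
      gcongr
    · gcongr
  have hstep1 : ∫⁻ x, (⨆ k ∈ Λ, ‖Tk η0 k f x‖ₑ) ^ 2 ≤
      4 * ‖η0 0‖ₑ ^ 2 * (∫⁻ x, (⨆ k ∈ Λ, ‖stp2 (HyZ k G) x‖ₑ) ^ 2) +
        4 * ∑ k ∈ Λ, ∫⁻ x, ‖R k x‖ₑ ^ 2 := by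
    refine (lintegral_mono hpt).trans (le_of_eq ?_)
    rw [lintegral_add_left (hSm.const_mul _), lintegral_const_mul _ hSm, lintegral_const_mul _
      (Finset.measurable_fun_sum _ fun k _ => hRm k), lintegral_finsetSum _ fun k _ => hRm k]
  have hstep2 : ∑ k ∈ Λ, ∫⁻ x, ‖R k x‖ₑ ^ 2 ≤
      ENNReal.ofReal (4 * C0 ^ 2 * N) * I + 4 * ENNReal.ofReal (Cf * nsq G) := by
    calc ∑ k ∈ Λ, ∫⁻ x, ‖R k x‖ₑ ^ 2
        ≤ ∑ k ∈ Λ, (ENNReal.ofReal (4 * C0 ^ 2) * I +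
          4 * ∫⁻ ξ : ℝ × ℝ, ‖η0 ((4 : ℝ) ^ k * ξ.1 * ξ.2) * FT (stp2 G) ξ -
            η0 0 * FT (stp2 (HyZ k G)) ξ‖ₑ ^ 2) :=
          Finset.sum_le_sum fun k _ => Assemble_R η0 hC0 hC hf G k
      _ = ENNReal.ofReal (4 * C0 ^ 2 * N) * I + 4 * ∑ k ∈ Λ,
          ∫⁻ ξ : ℝ × ℝ, ‖η0 ((4 : ℝ) ^ k * ξ.1 * ξ.2) * FT (stp2 G) ξ -
            η0 0 * FT (stp2 (HyZ k G)) ξ‖ₑ ^ 2 := by
          rw [Finset.sum_add_distrib, Finset.sum_const, hΛ, Finset.mul_sum, nsmul_eq_mul,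
            ENNReal.ofReal_mul (p := 4 * C0 ^ 2) (by positivity), ENNReal.ofReal_natCast]
          ring
      _ ≤ ENNReal.ofReal (4 * C0 ^ 2 * N) * I + 4 * ENNReal.ofReal (Cf * nsq G) := by
          gcongr
          exact hfreq Λ K L G
  have hnsq0 : 0 ≤ nsq G := by
    unfold nsq
    positivity
  have hnsq := Assemble_nsq hf G
  have hgr := hgrid Λ hΛne K L G
  rw [hΛ] at hgr
  have hη : ‖η0 0‖ₑ ^ 2 = ENNReal.ofReal (‖η0 0‖ ^ 2) := by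
    rw [← ofReal_norm, ENNReal.ofReal_pow (norm_nonneg _)]
  have hstep3 : ∫⁻ x, (⨆ k ∈ Λ, ‖Tk η0 k f x‖ₑ) ^ 2 ≤
      ENNReal.ofReal (D * AN N) * ENNReal.ofReal (nsq G) + ENNReal.ofReal (16 * C0 ^ 2 * N) * I := by
    refine hstep1.trans ?_
    calc 4 * ‖η0 0‖ₑ ^ 2 * (∫⁻ x, (⨆ k ∈ Λ, ‖stp2 (HyZ k G) x‖ₑ) ^ 2) +
          4 * ∑ k ∈ Λ, ∫⁻ x, ‖R k x‖ₑ ^ 2
        ≤ 4 * ‖η0 0‖ₑ ^ 2 * ENNReal.ofReal (Cg * AN N * nsq G) +
          4 * (ENNReal.ofReal (4 * C0 ^ 2 * N) * I + 4 * ENNReal.ofReal (Cf * nsq G)) := by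
          gcongr
      _ = ENNReal.ofReal ((4 * ‖η0 0‖ ^ 2 * Cg * AN N + 16 * Cf) * nsq G) +
          ENNReal.ofReal (16 * C0 ^ 2 * N) * I := by
          rw [hη]
          have e4 : (4 : ENNReal) = ENNReal.ofReal 4 := by norm_num
          rw [e4, mul_add, ← mul_assoc (ENNReal.ofReal 4) (ENNReal.ofReal (4 * C0 ^ 2 * N)) I,
            ← ENNReal.ofReal_mul (by norm_num), ← ENNReal.ofReal_mul (by positivity),
            ← ENNReal.ofReal_mul (by norm_num), ← ENNReal.ofReal_mul (by norm_num),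
            ← ENNReal.ofReal_mul (by norm_num), add_left_comm,
            ← ENNReal.ofReal_add (by positivity) (by positivity), add_comm]
          congr 2
          · ring_nf
          · ring
      _ ≤ ENNReal.ofReal (D * AN N) * ENNReal.ofReal (nsq G) +
          ENNReal.ofReal (16 * C0 ^ 2 * N) * I := by
          gcongr
          rw [← ENNReal.ofReal_mul (by positivity)]
          refine ENNReal.ofReal_le_ofReal (mul_le_mul_of_nonneg_right ?_ hnsq0)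
          rw [hD]
          nlinarith
  refine hstep3.trans ?_
  calc ENNReal.ofReal (D * AN N) * ENNReal.ofReal (nsq G) + ENNReal.ofReal (16 * C0 ^ 2 * N) * I
      ≤ ENNReal.ofReal (D * AN N) * (4 * Fn + 4 * I) + ENNReal.ofReal (16 * C0 ^ 2 * N) * I := by
        gcongr
    _ = ENNReal.ofReal (4 * D * AN N) * Fn +
        ENNReal.ofReal (4 * D * AN N + 16 * C0 ^ 2 * N) * I := by
        have e1 : ENNReal.ofReal (4 * D * AN N) = 4 * ENNReal.ofReal (D * AN N) := by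
          rw [mul_assoc, ENNReal.ofReal_mul (by norm_num)]
          norm_num
        rw [ENNReal.ofReal_add (by positivity) (by positivity), e1]
        ring

end Pool.Agent.helper75.HT
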