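import Pool.Agent.helper18.HC.Two

/-!
# Transfer to the plane (`MP_a22eb9_an`): definitions

Explicit Fourier integrals on `ℝ × ℝ` and `ℝ`, the operators `Tk`, step functions on the dyadic grid of the
unit square, the weight `wt t = |t|^{1/4} + |t|^{-1/4}` (`= 0` for `t = 0`).
-/

set_option autoImplicit false

namespace Pool.Agent.helper75.HT

open Finset MeasureTheory Pool.Agent.helper18.HC

/-- Fourier transform on the plane. -/
noncomputable def FT (g : ℝ × ℝ → ℂ) (ξ : ℝ × ℝ) : ℂ :=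
  ∫ y : ℝ × ℝ, Complex.exp (-(2 * (Real.pi : ℂ) * Complex.I * (((y.1 * ξ.1 + y.2 * ξ.2 : ℝ)) : ℂ))) *
    g y

/-- Inverse Fourier transform on the plane. -/
noncomputable def IFT (u : ℝ × ℝ → ℂ) (x : ℝ × ℝ) : ℂ :=
  ∫ ξ : ℝ × ℝ, Complex.exp (2 * (Real.pi : ℂ) * Complex.I * (((x.1 * ξ.1 + x.2 * ξ.2 : ℝ)) : ℂ)) *
    u ξ

/-- Fourier transform on the line. -/
noncomputable def FT1 (g : ℝ → ℂ) (t : ℝ) : ℂ :=
  ∫ y : ℝ, Complex.exp (-(2 * (Real.pi : ℂ) * Complex.I * ((y * t : ℝ) : ℂ))) * g y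

/-- The hyperbolic cross multiplier operators. -/
noncomputable def Tk (η0 : SchwartzMap ℝ ℂ) (k : ℤ) (f : ℝ × ℝ → ℂ) : ℝ × ℝ → ℂ :=
  IFT fun ξ => η0 ((4 : ℝ) ^ k * ξ.1 * ξ.2) * FT f ξ

/-- The functions we work with. -/
structure Nice (f : ℝ × ℝ → ℂ) : Prop where
  cont : Continuous f
  int : Integrable f
  sq : MemLp f 2
  contF : Continuous (FT f)
  intF : Integrable (FT f)
  sqF : MemLp (FT f) 2

/-- The first `K` binary digits of `x`. -/
noncomputable def dg (K : ℕ) (x : ℝ) : Dy K := fun i => decide (⌊(2 : ℝ) ^ (i.val + 1) * x⌋ % 2 = 1)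

/-- The step function on `[0,1)` with values `g`. -/
noncomputable def stp {K : ℕ} (g : Dy K → ℂ) (x : ℝ) : ℂ :=
  if 0 ≤ x ∧ x < 1 then g (dg K x) else 0

/-- The step function on `[0,1)²` with values `G`. -/
noncomputable def stp2 {K L : ℕ} (G : Dy K → Dy L → ℂ) (x : ℝ × ℝ) : ℂ :=
  if (0 ≤ x.1 ∧ x.1 < 1) ∧ (0 ≤ x.2 ∧ x.2 < 1) then G (dg K x.1) (dg L x.2) else 0

/-- The weight. -/
noncomputable def wt (t : ℝ) : ℝ := |t| ^ (1 / 4 : ℝ) + |t| ^ (-(1 / 4) : ℝ)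

/-- Flipping the digit number `j`. -/
def fl {K : ℕ} (j : ℕ) (x : Dy K) : Dy K := fun i => if i.val = j then !(x i) else x i

/-- Dyadic differences of level `j`: constants for `j = 0`; for `j + 1`: functions of the first `j + 1` digits
which change sign when digit `j` is flipped. -/
def HaarAt {K : ℕ} (j : ℕ) (g : Dy K → ℂ) : Prop :=
  match j with
  | 0 => ∀ x x' : Dy K, g x = g x'
  | j + 1 => (∀ x x' : Dy K, (∀ i : Fin K, i.val < j + 1 → x i = x' i) → g x = g x') ∧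
      ∀ x : Dy K, g (fl j x) = -g x

/-- The hyperbolic sum `∑_{j+l+2k<0}`. -/
noncomputable def HyZ {K L : ℕ} (k : ℤ) (G : Dy K → Dy L → ℂ) (x : Dy K) (y : Dy L) : ℂ :=
  ∑ j ∈ range (K + 1), ∑ l ∈ range (L + 1),
    if (j : ℤ) + l + 2 * k < 0 then D1 j (D2 l G) x y else 0

/-- normalized square norm over the grid -/
noncomputable def nsq {K L : ℕ} (G : Dy K → Dy L → ℂ) : ℝ :=
  (∑ x, ∑ y, ‖G x y‖ ^ 2) / (2 ^ K * 2 ^ L)

/-- Dilation and translation to the unit square. -/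
noncomputable def sc (s : ℕ) (f : ℝ × ℝ → ℂ) (x : ℝ × ℝ) : ℂ :=
  (2 : ℂ) ^ s * f ((2 : ℝ) ^ s * (x.1 - 1 / 2), (2 : ℝ) ^ s * (x.2 - 1 / 2))

/-- The logarithmic factor. -/
noncomputable def AN (N : ℕ) : ℝ := (1 + Real.log (1 + Real.log N)) ^ 10

end Pool.Agent.helper75.HT
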