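import Pool.Agent.helper75.HT.Main

/-!
# FullSup : the full maximal operator with a loglog weight

`i k = ⌊log (1 + log (1 + |k|))⌋₊`, so `|k| < exp (exp (i+1))` on the block `Λ i = {k : i k = i}`, which is finite with
`card ≤ 2 exp (exp (i+1)) + 1 ≤ exp (exp (i+1) + 2)`, so `1 + log (1 + log card) ≤ i + 4`.  By `main`:
`∫ (⨆_{k ∈ Λ i} ‖Tk‖)² ≤ C (i+4)^10 ∫ ‖f‖²`.  The weight on `Λ i` is at least `(1 + i)^6`, so the left side is at most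
`∑_i (1+i)^{-12} ∫ (⨆_{Λ i} ‖Tk‖)² ≤ C 4^10 ∑_i (1+i)^{-2} ∫ ‖f‖²`.  (`lintegral_tsum`, or monotone limits; measurability from
`Covar.continuous_Tk` and `SchNice.nice_schwartz`.)
-/

set_option autoImplicit false

namespace Pool.Agent.helper75.HT

open Finset MeasureTheory

/-- The block `{-M, ..., M}`, `M = ⌊exp (exp (i + 1))⌋₊`. -/
noncomputable def FullSup_blk (i : ℕ) : Finset ℤ :=
  Finset.Icc (-((⌊Real.exp (Real.exp ((i : ℝ) + 1))⌋₊ : ℕ) : ℤ))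
    ((⌊Real.exp (Real.exp ((i : ℝ) + 1))⌋₊ : ℕ) : ℤ)

theorem FullSup_card (i : ℕ) : AN (FullSup_blk i).card ≤ 4 ^ 10 * (1 + (i : ℝ)) ^ 10 := by
  set M : ℕ := ⌊Real.exp (Real.exp ((i : ℝ) + 1))⌋₊ with hM
  have hc : (FullSup_blk i).card = 2 * M + 1 := by
    unfold FullSup_blk
    rw [← hM, Int.card_Icc]
    omega
  have hi : (0 : ℝ) ≤ i := Nat.cast_nonneg i
  have hMle : (M : ℝ) ≤ Real.exp (Real.exp ((i : ℝ) + 1)) := Nat.floor_le (Real.exp_pos _).le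
  have h1 : (1 : ℝ) ≤ Real.exp (Real.exp ((i : ℝ) + 1)) := Real.one_le_exp (Real.exp_pos _).le
  have h3 : (3 : ℝ) ≤ Real.exp 2 := by
    have := Real.add_one_le_exp (2 : ℝ)
    linarith
  have hcard : (((FullSup_blk i).card : ℕ) : ℝ) ≤ Real.exp (Real.exp ((i : ℝ) + 1) + 2) := by
    rw [hc, Real.exp_add]
    push_cast
    nlinarith
  have hcpos : (1 : ℝ) ≤ (((FullSup_blk i).card : ℕ) : ℝ) := by
    rw [hc]
    push_cast
    have : (0 : ℝ) ≤ M := Nat.cast_nonneg M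
    linarith
  have hlog : Real.log (((FullSup_blk i).card : ℕ) : ℝ) ≤ Real.exp ((i : ℝ) + 1) + 2 := by
    have := Real.log_le_log (by linarith) hcard
    rwa [Real.log_exp] at this
  have hlog0 : 0 ≤ Real.log (((FullSup_blk i).card : ℕ) : ℝ) := Real.log_nonneg hcpos
  have hE : (1 : ℝ) ≤ Real.exp ((i : ℝ) + 1) := Real.one_le_exp (by linarith)
  have hE2 : 1 + Real.log (((FullSup_blk i).card : ℕ) : ℝ) ≤ Real.exp ((i : ℝ) + 3) := by
    have h : Real.exp ((i : ℝ) + 3) = Real.exp ((i : ℝ) + 1) * Real.exp 2 := by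
      rw [← Real.exp_add]
      congr 1
      ring
    rw [h]
    have h4 : (4 : ℝ) ≤ Real.exp 2 := by
      have h21 : Real.exp 2 = Real.exp 1 * Real.exp 1 := by
        rw [← Real.exp_add]
        norm_num
      have h11 : (2 : ℝ) ≤ Real.exp 1 := by
        have := Real.add_one_le_exp (1 : ℝ)
        linarith
      rw [h21]
      nlinarith
    nlinarith
  have hlog2 : Real.log (1 + Real.log (((FullSup_blk i).card : ℕ) : ℝ)) ≤ (i : ℝ) + 3 := by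
    have := Real.log_le_log (by linarith) hE2
    rwa [Real.log_exp] at this
  have hlog20 : 0 ≤ Real.log (1 + Real.log (((FullSup_blk i).card : ℕ) : ℝ)) :=
    Real.log_nonneg (by linarith)
  unfold AN
  rw [← mul_pow]
  exact pow_le_pow_left₀ (by linarith) (by linarith) 10

theorem FullSup_mem (k : ℤ) :
    k ∈ FullSup_blk ⌊Real.log (1 + Real.log (1 + |(k : ℝ)|))⌋₊ := by
  set i : ℕ := ⌊Real.log (1 + Real.log (1 + |(k : ℝ)|))⌋₊ with hi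
  have hlt : Real.log (1 + Real.log (1 + |(k : ℝ)|)) < (i : ℝ) + 1 := Nat.lt_floor_add_one _
  have hk0 : 0 ≤ |(k : ℝ)| := abs_nonneg _
  have hl0 : 0 ≤ Real.log (1 + |(k : ℝ)|) := Real.log_nonneg (by linarith)
  have h1 : 1 + Real.log (1 + |(k : ℝ)|) < Real.exp ((i : ℝ) + 1) := by
    rw [← Real.log_lt_iff_lt_exp (by linarith)]
    exact hlt
  have h2 : 1 + |(k : ℝ)| < Real.exp (Real.exp ((i : ℝ) + 1)) := by
    rw [← Real.log_lt_iff_lt_exp (by linarith)]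
    linarith
  have h3 : ((k.natAbs : ℕ) : ℝ) ≤ Real.exp (Real.exp ((i : ℝ) + 1)) := by
    rw [Nat.cast_natAbs]
    push_cast
    linarith
  have h4 : k.natAbs ≤ ⌊Real.exp (Real.exp ((i : ℝ) + 1))⌋₊ := Nat.le_floor h3
  unfold FullSup_blk
  rw [Finset.mem_Icc]
  omega

theorem full_sup (η0 : SchwartzMap ℝ ℂ) : ∃ C : ℝ, 0 ≤ C ∧ ∀ (f : SchwartzMap (ℝ × ℝ) ℂ),
    ∫⁻ x : ℝ × ℝ, (⨆ k : ℤ, ‖Tk η0 k f x‖ₑ /
        ENNReal.ofReal ((1 + Real.log (1 + Real.log (1 + |(k : ℝ)|))) ^ 6)) ^ 2 ≤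
      ENNReal.ofReal C * ∫⁻ x : ℝ × ℝ, ‖f x‖ₑ ^ 2 := by
  obtain ⟨C, hC0, hC⟩ := main η0
  have hsum : Summable fun i : ℕ => (1 / (1 + (i : ℝ)) ^ 2) := by
    have h := (summable_nat_add_iff 1).2 (Real.summable_one_div_nat_pow.2 (by norm_num : 1 < 2))
    refine h.congr fun i => ?_
    push_cast
    ring
  have hsum' : Summable fun i : ℕ => C * 4 ^ 10 * (1 / (1 + (i : ℝ)) ^ 2) := hsum.mul_left _
  refine ⟨∑' i : ℕ, C * 4 ^ 10 * (1 / (1 + (i : ℝ)) ^ 2),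
    tsum_nonneg fun i => by positivity, fun f => ?_⟩
  have hf : Nice f := nice_schwartz f
  have hmeas : ∀ k : ℤ, Measurable fun x : ℝ × ℝ => ‖Tk η0 k f x‖ₑ := fun k =>
    (continuous_Tk η0 k hf).measurable.enorm
  have hpt : ∀ x : ℝ × ℝ, (⨆ k : ℤ, ‖Tk η0 k f x‖ₑ /
        ENNReal.ofReal ((1 + Real.log (1 + Real.log (1 + |(k : ℝ)|))) ^ 6)) ^ 2 ≤
      ∑' i : ℕ, ENNReal.ofReal (1 / (1 + (i : ℝ)) ^ 12) *
        (⨆ k ∈ FullSup_blk i, ‖Tk η0 k f x‖ₑ) ^ 2 := by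
    intro x
    rw [← ENNReal.rpow_natCast]
    rw [ENNReal.le_rpow_inv_iff (by norm_num : (0 : ℝ) < ((2 : ℕ) : ℝ)) |>.symm]
    refine iSup_le fun k => ?_
    rw [ENNReal.le_rpow_inv_iff (by norm_num : (0 : ℝ) < ((2 : ℕ) : ℝ))]
    rw [ENNReal.rpow_natCast]
    set i : ℕ := ⌊Real.log (1 + Real.log (1 + |(k : ℝ)|))⌋₊ with hi
    have hk0 : 0 ≤ |(k : ℝ)| := abs_nonneg _
    have hl0 : 0 ≤ Real.log (1 + |(k : ℝ)|) := Real.log_nonneg (by linarith)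
    have hl1 : 0 ≤ Real.log (1 + Real.log (1 + |(k : ℝ)|)) := Real.log_nonneg (by linarith)
    have hile : (i : ℝ) ≤ Real.log (1 + Real.log (1 + |(k : ℝ)|)) := Nat.floor_le hl1
    have hw : (1 + (i : ℝ)) ^ 6 ≤ (1 + Real.log (1 + Real.log (1 + |(k : ℝ)|))) ^ 6 :=
      pow_le_pow_left₀ (by positivity) (by linarith) 6
    have h1 : ‖Tk η0 k f x‖ₑ / ENNReal.ofReal
        ((1 + Real.log (1 + Real.log (1 + |(k : ℝ)|))) ^ 6) ≤
        ENNReal.ofReal (1 / (1 + (i : ℝ)) ^ 6) * (⨆ k ∈ FullSup_blk i, ‖Tk η0 k f x‖ₑ) := by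
      rw [div_eq_mul_inv, mul_comm]
      refine mul_le_mul' ?_ ?_
      · rw [← ENNReal.ofReal_inv_of_pos (by positivity)]
        refine ENNReal.ofReal_le_ofReal ?_
        rw [one_div]
        exact inv_anti₀ (by positivity) hw
      · exact le_iSup₂_of_le k (FullSup_mem k) le_rfl
    have h2 : (‖Tk η0 k f x‖ₑ / ENNReal.ofReal
        ((1 + Real.log (1 + Real.log (1 + |(k : ℝ)|))) ^ 6)) ^ 2 ≤
        ENNReal.ofReal (1 / (1 + (i : ℝ)) ^ 12) *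
          (⨆ k ∈ FullSup_blk i, ‖Tk η0 k f x‖ₑ) ^ 2 := by
      refine (pow_le_pow_left' h1 2).trans (le_of_eq ?_)
      rw [mul_pow, ← ENNReal.ofReal_pow (by positivity)]
      congr 2
      rw [div_pow, one_pow, ← pow_mul]
    exact h2.trans (ENNReal.le_tsum i)
  calc ∫⁻ x : ℝ × ℝ, (⨆ k : ℤ, ‖Tk η0 k f x‖ₑ /
        ENNReal.ofReal ((1 + Real.log (1 + Real.log (1 + |(k : ℝ)|))) ^ 6)) ^ 2
      ≤ ∫⁻ x : ℝ × ℝ, ∑' i : ℕ, ENNReal.ofReal (1 / (1 + (i : ℝ)) ^ 12) *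
        (⨆ k ∈ FullSup_blk i, ‖Tk η0 k f x‖ₑ) ^ 2 := lintegral_mono hpt
    _ = ∑' i : ℕ, ∫⁻ x : ℝ × ℝ, ENNReal.ofReal (1 / (1 + (i : ℝ)) ^ 12) *
        (⨆ k ∈ FullSup_blk i, ‖Tk η0 k f x‖ₑ) ^ 2 := by
      refine lintegral_tsum fun i => Measurable.aemeasurable ?_
      refine Measurable.const_mul (Measurable.pow_const ?_ 2) _
      exact Measurable.biSup _ (FullSup_blk i).countable_toSet fun k _ => hmeas k
    _ ≤ ∑' i : ℕ, ENNReal.ofReal (C * 4 ^ 10 * (1 / (1 + (i : ℝ)) ^ 2)) *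
        ∫⁻ x : ℝ × ℝ, ‖f x‖ₑ ^ 2 := by
      refine ENNReal.tsum_le_tsum fun i => ?_
      rw [lintegral_const_mul' _ _ ENNReal.ofReal_ne_top]
      refine (mul_le_mul_right (hC (FullSup_blk i) f) _).trans ?_
      rw [← mul_assoc, ← ENNReal.ofReal_mul (by positivity)]
      refine mul_le_mul_left (ENNReal.ofReal_le_ofReal ?_) _
      have h := FullSup_card i
      have h5 : C * AN (FullSup_blk i).card ≤ C * (4 ^ 10 * (1 + (i : ℝ)) ^ 10) :=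
        mul_le_mul_of_nonneg_left h hC0
      calc 1 / (1 + (i : ℝ)) ^ 12 * (C * AN (FullSup_blk i).card)
          ≤ 1 / (1 + (i : ℝ)) ^ 12 * (C * (4 ^ 10 * (1 + (i : ℝ)) ^ 10)) :=
            mul_le_mul_of_nonneg_left h5 (by positivity)
        _ = C * 4 ^ 10 * (1 / (1 + (i : ℝ)) ^ 2) := by
            field_simp
    _ = ENNReal.ofReal (∑' i : ℕ, C * 4 ^ 10 * (1 / (1 + (i : ℝ)) ^ 2)) *
        ∫⁻ x : ℝ × ℝ, ‖f x‖ₑ ^ 2 := by
      rw [ENNReal.tsum_mul_right, ENNReal.ofReal_tsum_of_nonneg (fun i => by positivity) hsum']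

end Pool.Agent.helper75.HT
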