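import Pool.Agent.helper75.HT.Defs

/-!
# HaarFT : Fourier transform of the Haar function and of the unit interval

`hh = 1_{[0,1/2)} - 1_{[1/2,1)}`.  `|FT1 hh t| ≤ ∫_0^1 |e^{-2πixt} - 1| dx ≤ π|t|`, and
`FT1 hh t = (1 - e^{-πit})²/(2πit)` (`integral_exp_mul_complex`), so `|FT1 hh t| ≤ 4/(2π|t|) ≤ 1/|t|`; similarly for the interval.
-/

set_option autoImplicit false

namespace Pool.Agent.helper75.HT

open Finset MeasureTheory Pool.Agent.helper18.HC

/-- The Haar function. -/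
noncomputable def hh (x : ℝ) : ℂ :=
  if 0 ≤ x ∧ x < 1 / 2 then 1 else if 1 / 2 ≤ x ∧ x < 1 then -1 else 0

/-- The indicator of the unit interval. -/
noncomputable def ii (x : ℝ) : ℂ := if 0 ≤ x ∧ x < 1 then 1 else 0

/-! ### auxiliary facts -/

private theorem HaarFT_hh_eq : hh = fun y =>
    Set.indicator (Set.Ico (0 : ℝ) (1 / 2)) (fun _ => (1 : ℂ)) y -
      Set.indicator (Set.Ico (1 / 2 : ℝ) 1) (fun _ => (1 : ℂ)) y := by
  funext y
  unfold hh
  by_cases h1 : 0 ≤ y ∧ y < 1 / 2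
  · rw [if_pos h1, Set.indicator_of_mem (show y ∈ Set.Ico (0 : ℝ) (1 / 2) from h1),
      Set.indicator_of_notMem (fun h : y ∈ Set.Ico (1 / 2 : ℝ) 1 => absurd h1.2 (not_lt.2 h.1)),
      sub_zero]
  · rw [if_neg h1, Set.indicator_of_notMem (show y ∉ Set.Ico (0 : ℝ) (1 / 2) from h1)]
    by_cases h2 : 1 / 2 ≤ y ∧ y < 1
    · rw [if_pos h2, Set.indicator_of_mem (show y ∈ Set.Ico (1 / 2 : ℝ) 1 from h2), zero_sub]
    · rw [if_neg h2, Set.indicator_of_notMem (show y ∉ Set.Ico (1 / 2 : ℝ) 1 from h2), sub_zero]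

private theorem HaarFT_ii_eq : ii = fun y =>
    Set.indicator (Set.Ico (0 : ℝ) 1) (fun _ => (1 : ℂ)) y := by
  funext y
  unfold ii
  by_cases h1 : 0 ≤ y ∧ y < 1
  · rw [if_pos h1, Set.indicator_of_mem (show y ∈ Set.Ico (0 : ℝ) 1 from h1)]
  · rw [if_neg h1, Set.indicator_of_notMem (show y ∉ Set.Ico (0 : ℝ) 1 from h1)]

private theorem HaarFT_int_ind (a b : ℝ) :
    Integrable (Set.indicator (Set.Ico a b) (fun _ => (1 : ℂ))) := by
  rw [integrable_indicator_iff measurableSet_Ico]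
  exact integrableOn_const (by simp)

/-- the exponential -/
private noncomputable def HaarFT_E (t y : ℝ) : ℂ :=
  Complex.exp (-(2 * (Real.pi : ℂ) * Complex.I * ((y * t : ℝ) : ℂ)))

private theorem HaarFT_E_cont (t : ℝ) : Continuous (HaarFT_E t) := by
  unfold HaarFT_E
  fun_prop

private theorem HaarFT_E_norm (t y : ℝ) : ‖HaarFT_E t y‖ = 1 := by
  unfold HaarFT_E
  have h : -(2 * (Real.pi : ℂ) * Complex.I * ((y * t : ℝ) : ℂ)) =
      ((-(2 * Real.pi * (y * t)) : ℝ) : ℂ) * Complex.I := by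
    push_cast
    ring
  rw [h, Complex.norm_exp_ofReal_mul_I]

private theorem HaarFT_mul_ind (t a b y : ℝ) :
    HaarFT_E t y * Set.indicator (Set.Ico a b) (fun _ => (1 : ℂ)) y =
      Set.indicator (Set.Ico a b) (HaarFT_E t) y := by
  by_cases h : y ∈ Set.Ico a b
  · rw [Set.indicator_of_mem h, Set.indicator_of_mem h, mul_one]
  · rw [Set.indicator_of_notMem h, Set.indicator_of_notMem h, mul_zero]

private theorem HaarFT_int_E (t a b : ℝ) :
    Integrable (Set.indicator (Set.Ico a b) (HaarFT_E t)) := by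
  rw [integrable_indicator_iff measurableSet_Ico]
  exact ((HaarFT_E_cont t).integrableOn_Icc (a := a) (b := b)).mono_set Set.Ico_subset_Icc_self

private theorem HaarFT_integral (t : ℝ) {a b : ℝ} (hab : a ≤ b) :
    ∫ y, Set.indicator (Set.Ico a b) (HaarFT_E t) y = ∫ y in a..b, HaarFT_E t y := by
  rw [integral_indicator measurableSet_Ico, integral_Ico_eq_integral_Ioc,
    intervalIntegral.integral_of_le hab]

private theorem HaarFT_hh (t : ℝ) : FT1 hh t =
    (∫ y in (0 : ℝ)..(1 / 2), HaarFT_E t y) - ∫ y in (1 / 2 : ℝ)..1, HaarFT_E t y := by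
  have h1 : FT1 hh t = ∫ y : ℝ, (Set.indicator (Set.Ico (0 : ℝ) (1 / 2)) (HaarFT_E t) y -
      Set.indicator (Set.Ico (1 / 2 : ℝ) 1) (HaarFT_E t) y) := by
    unfold FT1
    refine integral_congr_ae (Filter.Eventually.of_forall fun y => ?_)
    show HaarFT_E t y * hh y = _
    rw [HaarFT_hh_eq]
    show HaarFT_E t y * (_ - _) = _
    rw [mul_sub, HaarFT_mul_ind, HaarFT_mul_ind]
  rw [h1, integral_sub (HaarFT_int_E t _ _) (HaarFT_int_E t _ _),
    HaarFT_integral t (by norm_num), HaarFT_integral t (by norm_num)]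

private theorem HaarFT_ii (t : ℝ) : FT1 ii t = ∫ y in (0 : ℝ)..1, HaarFT_E t y := by
  have h1 : FT1 ii t = ∫ y : ℝ, Set.indicator (Set.Ico (0 : ℝ) 1) (HaarFT_E t) y := by
    unfold FT1
    refine integral_congr_ae (Filter.Eventually.of_forall fun y => ?_)
    show HaarFT_E t y * ii y = _
    rw [HaarFT_ii_eq]
    show HaarFT_E t y * _ = _
    rw [HaarFT_mul_ind]
  rw [h1, HaarFT_integral t (by norm_num)]

private theorem HaarFT_primitive (t : ℝ) (ht : t ≠ 0) (a b : ℝ) :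
    ∫ y in a..b, HaarFT_E t y =
      (HaarFT_E t b - HaarFT_E t a) / (-(2 * (Real.pi : ℂ) * Complex.I * (t : ℂ))) := by
  have hc : -(2 * (Real.pi : ℂ) * Complex.I * (t : ℂ)) ≠ 0 := by
    refine neg_ne_zero.2 (mul_ne_zero (mul_ne_zero (mul_ne_zero two_ne_zero ?_)
      Complex.I_ne_zero) ?_)
    · exact_mod_cast Real.pi_ne_zero
    · exact_mod_cast ht
  have h1 : ∀ y : ℝ, HaarFT_E t y =
      Complex.exp (-(2 * (Real.pi : ℂ) * Complex.I * (t : ℂ)) * (y : ℂ)) := by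
    intro y
    unfold HaarFT_E
    congr 1
    push_cast
    ring
  simp only [h1]
  rw [integral_exp_mul_complex hc]

private theorem HaarFT_norm_c (t : ℝ) :
    ‖-(2 * (Real.pi : ℂ) * Complex.I * (t : ℂ))‖ = 2 * Real.pi * |t| := by
  rw [norm_neg, norm_mul, norm_mul, norm_mul, Complex.norm_I, Complex.norm_real,
    Complex.norm_real, Real.norm_eq_abs, Real.norm_eq_abs, abs_of_pos Real.pi_pos, mul_one]
  simp

theorem integrable_hh : Integrable hh := by
  rw [HaarFT_hh_eq]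
  exact (HaarFT_int_ind _ _).sub (HaarFT_int_ind _ _)

theorem FT1_hh_le (t : ℝ) : ‖FT1 hh t‖ ≤ 4 * |t| := by
  have h1 : (∫ y in (1 / 2 : ℝ)..1, HaarFT_E t y) =
      ∫ y in (0 : ℝ)..(1 / 2), HaarFT_E t (y + 1 / 2) := by
    rw [intervalIntegral.integral_comp_add_right (fun y => HaarFT_E t y)]
    norm_num
  have hc2 : Continuous fun y : ℝ => HaarFT_E t (y + 1 / 2) :=
    (HaarFT_E_cont t).comp (continuous_add_right (1 / 2))
  rw [HaarFT_hh, h1, ← intervalIntegral.integral_sub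
    ((HaarFT_E_cont t).intervalIntegrable _ _) (hc2.intervalIntegrable _ _)]
  have h2 : ∀ y ∈ Set.uIoc (0 : ℝ) (1 / 2),
      ‖HaarFT_E t y - HaarFT_E t (y + 1 / 2)‖ ≤ Real.pi * |t| := by
    intro y _
    have e1 : HaarFT_E t (y + 1 / 2) =
        HaarFT_E t y * Complex.exp (Complex.I * ((-(Real.pi * t) : ℝ) : ℂ)) := by
      unfold HaarFT_E
      rw [← Complex.exp_add]
      congr 1
      push_cast
      ring
    have e2 : HaarFT_E t y - HaarFT_E t (y + 1 / 2) =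
        -(HaarFT_E t y * (Complex.exp (Complex.I * ((-(Real.pi * t) : ℝ) : ℂ)) - 1)) := by
      rw [e1]
      ring
    rw [e2, norm_neg, norm_mul, HaarFT_E_norm, one_mul]
    refine Real.norm_exp_I_mul_ofReal_sub_one_le.trans ?_
    rw [Real.norm_eq_abs, abs_neg, abs_mul, abs_of_pos Real.pi_pos]
  have h3 := intervalIntegral.norm_integral_le_of_norm_le_const h2
  refine h3.trans ?_
  rw [sub_zero, abs_of_pos (by norm_num : (0 : ℝ) < 1 / 2)]
  have h4 := Real.pi_le_four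
  have h5 := abs_nonneg t
  nlinarith

theorem FT1_hh_le' (t : ℝ) (ht : t ≠ 0) : ‖FT1 hh t‖ ≤ 1 / |t| := by
  have ht' : 0 < |t| := abs_pos.2 ht
  rw [HaarFT_hh, HaarFT_primitive t ht, HaarFT_primitive t ht, ← sub_div, norm_div,
    HaarFT_norm_c]
  have h1 : ‖HaarFT_E t (1 / 2) - HaarFT_E t 0 - (HaarFT_E t 1 - HaarFT_E t (1 / 2))‖ ≤ 4 := by
    have a1 := norm_sub_le (HaarFT_E t (1 / 2) - HaarFT_E t 0)
      (HaarFT_E t 1 - HaarFT_E t (1 / 2))
    have a2 := norm_sub_le (HaarFT_E t (1 / 2)) (HaarFT_E t 0)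
    have a3 := norm_sub_le (HaarFT_E t 1) (HaarFT_E t (1 / 2))
    rw [HaarFT_E_norm, HaarFT_E_norm] at a2 a3
    linarith
  have h2 := Real.two_le_pi
  rw [div_le_div_iff₀ (by positivity) ht']
  nlinarith

theorem FT1_ii_le (t : ℝ) : ‖FT1 ii t‖ ≤ 1 := by
  rw [HaarFT_ii]
  have h := intervalIntegral.norm_integral_le_of_norm_le_const (a := 0) (b := 1) (C := 1)
    (f := HaarFT_E t) (fun y _ => (HaarFT_E_norm t y).le)
  simpa using h

theorem FT1_ii_le' (t : ℝ) (ht : t ≠ 0) : ‖FT1 ii t‖ ≤ 1 / |t| := by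
  have ht' : 0 < |t| := abs_pos.2 ht
  rw [HaarFT_ii, HaarFT_primitive t ht, norm_div, HaarFT_norm_c]
  have h1 : ‖HaarFT_E t 1 - HaarFT_E t 0‖ ≤ 2 := by
    have a2 := norm_sub_le (HaarFT_E t 1) (HaarFT_E t 0)
    rw [HaarFT_E_norm, HaarFT_E_norm] at a2
    linarith
  have h2 := Real.two_le_pi
  rw [div_le_div_iff₀ (by positivity) ht']
  nlinarith

end Pool.Agent.helper75.HT
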