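import Pool.Agent.helper75.HT.Defs

/-!
# Step : step functions on the dyadic grid

The cell of the word `w` is the interval `[v, v + 2^{-K})`, `v = ∑ w i 2^{-i-1}`; `lintegral_dg` by induction on `K` or
by the bijection of words with `{0, ..., 2^K - 1}`.  `dg` is measurable (floor functions).
`FT_stp2`: Fubini.
-/

set_option autoImplicit false

namespace Pool.Agent.helper75.HT

open Finset MeasureTheory Pool.Agent.helper18.HC

variable {K L : ℕ}

theorem measurable_dg (K : ℕ) : Measurable (dg K) := by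
  refine measurable_pi_iff.2 fun i => ?_
  have h1 : Measurable fun x : ℝ => ⌊(2 : ℝ) ^ (i.val + 1) * x⌋ :=
    Int.measurable_floor.comp (measurable_const_mul _)
  have h2 : Measurable fun m : ℤ => decide (m % 2 = 1) := measurable_from_top
  exact h2.comp h1

/-- the unit interval -/
theorem Step_stp_eq (g : Dy K → ℂ) :
    stp g = (Set.Ico (0 : ℝ) 1).indicator fun x => g (dg K x) := by
  classical
  funext x
  unfold stp
  rw [Set.indicator_apply]
  rfl

theorem Step_stp2_eq (G : Dy K → Dy L → ℂ) :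
    stp2 G = (Set.Ico (0 : ℝ) 1 ×ˢ Set.Ico (0 : ℝ) 1).indicator
      fun x : ℝ × ℝ => G (dg K x.1) (dg L x.2) := by
  classical
  funext x
  unfold stp2
  rw [Set.indicator_apply]
  rfl

theorem Step_meas1 {β : Type} [MeasurableSpace β] (φ : Dy K → β) :
    Measurable fun x : ℝ => φ (dg K x) :=
  (measurable_of_countable φ).comp (measurable_dg K)

theorem Step_meas2 {β : Type} [MeasurableSpace β] (φ : Dy K → Dy L → β) :
    Measurable fun x : ℝ × ℝ => φ (dg K x.1) (dg L x.2) := by
  have h1 : Measurable fun z : Dy K × Dy L => φ z.1 z.2 := measurable_of_countable _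
  have h2 : Measurable fun x : ℝ × ℝ => (dg K x.1, dg L x.2) :=
    ((measurable_dg K).comp measurable_fst).prodMk ((measurable_dg L).comp measurable_snd)
  exact h1.comp h2

theorem measurable_stp (g : Dy K → ℂ) : Measurable (stp g) := by
  rw [Step_stp_eq]
  exact (Step_meas1 g).indicator measurableSet_Ico

theorem Step_sq : MeasurableSet (Set.Ico (0 : ℝ) 1 ×ˢ Set.Ico (0 : ℝ) 1) :=
  measurableSet_Ico.prod measurableSet_Ico

theorem measurable_stp2 (G : Dy K → Dy L → ℂ) : Measurable (stp2 G) := by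
  rw [Step_stp2_eq]
  exact (Step_meas2 G).indicator Step_sq

/-- the cell of a word -/
theorem Step_cell : ∀ (K : ℕ) (w : Dy K), ∃ M : ℤ, 0 ≤ M ∧ M < 2 ^ K ∧
    ∀ x : ℝ, 0 ≤ x → x < 1 → (dg K x = w ↔ ⌊(2 : ℝ) ^ K * x⌋ = M) := by
  intro K
  induction K with
  | zero =>
    intro w
    refine ⟨0, le_rfl, by norm_num, fun x h0 h1 => ?_⟩
    constructor
    · intro _
      rw [Int.floor_eq_iff]
      constructor
      · push_cast
        simpa using h0
      · push_cast
        simpa using h1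
    · intro _
      exact Subsingleton.elim _ _
  | succ K ih =>
    intro w
    obtain ⟨M, hM0, hM1, hM⟩ := ih fun i => w i.castSucc
    refine ⟨2 * M + (if w (Fin.last K) then 1 else 0), by split_ifs <;> omega, ?_,
      fun x h0 h1 => ?_⟩
    · rw [pow_succ]
      split_ifs <;> omega
    · have hx := hM x h0 h1
      set q := ⌊(2 : ℝ) ^ K * x⌋ with hq
      set p := ⌊(2 : ℝ) ^ (K + 1) * x⌋ with hp
      have hq1 : (q : ℝ) ≤ 2 ^ K * x := Int.floor_le _
      have hq2 : 2 ^ K * x < (q : ℝ) + 1 := Int.lt_floor_add_one _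
      have hp1 : 2 * q ≤ p := by
        rw [hp, Int.le_floor]
        push_cast
        rw [pow_succ]
        linarith
      have hp2 : p < 2 * q + 2 := by
        rw [hp, Int.floor_lt]
        push_cast
        rw [pow_succ]
        linarith
      have hsplit : dg (K + 1) x = w ↔ dg K x = (fun i => w i.castSucc) ∧
          decide (p % 2 = 1) = w (Fin.last K) := by
        constructor
        · intro h
          refine ⟨?_, ?_⟩
          · funext i
            have h2 := congrFun h i.castSucc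
            exact h2
          · have h2 := congrFun h (Fin.last K)
            exact h2
        · rintro ⟨h2, h3⟩
          funext i
          refine Fin.lastCases ?_ (fun i => ?_) i
          · exact h3
          · exact congrFun h2 i
      rw [hsplit, hx]
      cases hw : w (Fin.last K)
      · simp only [decide_eq_false_iff_not, Bool.false_eq_true, if_false]
        omega
      · simp only [decide_eq_true_eq, if_true]
        omega

theorem Step_vol (w : Dy K) :
    (volume.restrict (Set.Ico (0 : ℝ) 1)) (dg K ⁻¹' {w}) = (2 ^ K)⁻¹ := by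
  obtain ⟨M, hM0, hM1, hM⟩ := Step_cell K w
  rw [Measure.restrict_apply ((measurable_dg K) (measurableSet_singleton w))]
  have h2 : (0 : ℝ) < 2 ^ K := by positivity
  have hset : dg K ⁻¹' {w} ∩ Set.Ico (0 : ℝ) 1 =
      Set.Ico ((M : ℝ) / 2 ^ K) (((M : ℝ) + 1) / 2 ^ K) := by
    ext x
    simp only [Set.mem_inter_iff, Set.mem_preimage, Set.mem_singleton_iff, Set.mem_Ico]
    have hM0' : (0 : ℝ) ≤ M := by exact_mod_cast hM0
    have hM1' : (M : ℝ) + 1 ≤ 2 ^ K := by
      have : M + 1 ≤ 2 ^ K := hM1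
      exact_mod_cast this
    constructor
    · rintro ⟨h3, h4, h5⟩
      rw [hM x h4 h5, Int.floor_eq_iff] at h3
      rw [div_le_iff₀ h2, lt_div_iff₀ h2]
      constructor
      · linarith [h3.1]
      · linarith [h3.2]
    · rintro ⟨h3, h4⟩
      have h5 : 0 ≤ x := le_trans (by positivity) h3
      have h6 : x < 1 := lt_of_lt_of_le h4 (by rw [div_le_one h2]; exact hM1')
      refine ⟨?_, h5, h6⟩
      rw [hM x h5 h6, Int.floor_eq_iff]
      rw [div_le_iff₀ h2] at h3
      rw [lt_div_iff₀ h2] at h4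
      constructor
      · linarith
      · linarith
  rw [hset, Real.volume_Ico]
  have h3 : ((M : ℝ) + 1) / 2 ^ K - (M : ℝ) / 2 ^ K = (2 ^ K)⁻¹ := by
    field_simp
    ring
  rw [h3, ENNReal.ofReal_inv_of_pos h2, ENNReal.ofReal_pow (by norm_num)]
  norm_num

/-- Integral of a function of the digits. -/
theorem lintegral_dg (φ : Dy K → ENNReal) :
    ∫⁻ x in Set.Ico (0 : ℝ) 1, φ (dg K x) = (∑ w, φ w) / 2 ^ K := by
  have h1 : ∫⁻ x in Set.Ico (0 : ℝ) 1, φ (dg K x) =
      ∫⁻ w, φ w ∂(Measure.map (dg K) (volume.restrict (Set.Ico (0 : ℝ) 1))) :=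
    (lintegral_map (measurable_of_countable φ) (measurable_dg K)).symm
  rw [h1, lintegral_fintype]
  have h2 : ∀ w : Dy K, (Measure.map (dg K) (volume.restrict (Set.Ico (0 : ℝ) 1))) {w} =
      (2 ^ K)⁻¹ := by
    intro w
    rw [Measure.map_apply (measurable_dg K) (measurableSet_singleton w), Step_vol]
  simp only [h2]
  rw [← Finset.sum_mul, ENNReal.div_eq_inv_mul, mul_comm]

theorem lintegral_stp_sq (g : Dy K → ℂ) :
    ∫⁻ x, ‖stp g x‖ₑ ^ 2 = (∑ w, ‖g w‖ₑ ^ 2) / 2 ^ K := by
  rw [← lintegral_dg, ← lintegral_indicator measurableSet_Ico]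
  congr 1
  funext x
  rw [Step_stp_eq, Set.indicator_apply, Set.indicator_apply]
  split_ifs
  · rfl
  · simp

/-- The same for the maximum of finitely many step functions (or any function of the cells). -/
theorem lintegral_dg2 (φ : Dy K → Dy L → ENNReal) :
    ∫⁻ x in Set.Ico (0 : ℝ) 1 ×ˢ Set.Ico (0 : ℝ) 1, φ (dg K x.1) (dg L x.2) =
      (∑ x, ∑ y, φ x y) / (2 ^ K * 2 ^ L) := by
  have h1 := setLIntegral_prod (μ := (volume : Measure ℝ)) (ν := (volume : Measure ℝ))
    (s := Set.Ico (0 : ℝ) 1) (t := Set.Ico (0 : ℝ) 1)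
    (fun x : ℝ × ℝ => φ (dg K x.1) (dg L x.2)) (Step_meas2 φ).aemeasurable
  rw [Measure.volume_eq_prod, h1]
  simp only
  have h2 : ∀ x : ℝ, ∫⁻ y in Set.Ico (0 : ℝ) 1, φ (dg K x) (dg L y) =
      (∑ y, φ (dg K x) y) / 2 ^ L := fun x => lintegral_dg _
  simp only [h2]
  rw [lintegral_dg (fun w => (∑ y, φ w y) / 2 ^ L)]
  simp only [ENNReal.div_eq_inv_mul]
  rw [← Finset.mul_sum, ← mul_assoc]
  congr 1
  rw [ENNReal.mul_inv (Or.inl (by positivity)) (Or.inl (by finiteness))]

theorem lintegral_stp2_sq (G : Dy K → Dy L → ℂ) :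
    ∫⁻ x, ‖stp2 G x‖ₑ ^ 2 = ENNReal.ofReal (nsq G) := by
  have h1 : ∫⁻ x, ‖stp2 G x‖ₑ ^ 2 = (∑ x, ∑ y, ‖G x y‖ₑ ^ 2) / (2 ^ K * 2 ^ L) := by
    rw [← lintegral_dg2, ← lintegral_indicator Step_sq]
    congr 1
    funext x
    rw [Step_stp2_eq, Set.indicator_apply, Set.indicator_apply]
    split_ifs
    · rfl
    · simp
  rw [h1]
  unfold nsq
  rw [ENNReal.ofReal_div_of_pos (by positivity), ENNReal.ofReal_mul (by positivity),
    ENNReal.ofReal_pow (by norm_num), ENNReal.ofReal_pow (by norm_num),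
    ENNReal.ofReal_sum_of_nonneg fun x _ => Finset.sum_nonneg fun y _ => by positivity]
  congr 1
  · refine Finset.sum_congr rfl fun x _ => ?_
    rw [ENNReal.ofReal_sum_of_nonneg fun y _ => by positivity]
    refine Finset.sum_congr rfl fun y _ => ?_
    rw [ENNReal.ofReal_pow (norm_nonneg _), ofReal_norm]
  · norm_num

theorem integrable_stp (g : Dy K → ℂ) : Integrable (stp g) := by
  rw [Step_stp_eq, integrable_indicator_iff measurableSet_Ico]
  refine Measure.integrableOn_of_bounded (M := ∑ w, ‖g w‖) (by simp)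
    (Step_meas1 g).aestronglyMeasurable (Filter.Eventually.of_forall fun x => ?_)
  exact Finset.single_le_sum (f := fun w => ‖g w‖) (fun w _ => norm_nonneg _)
    (Finset.mem_univ _)

theorem Step_volsq : volume (Set.Ico (0 : ℝ) 1 ×ˢ Set.Ico (0 : ℝ) 1) ≠ ⊤ := by
  rw [Measure.volume_eq_prod, Measure.prod_prod]
  simp

theorem Step_bound (G : Dy K → Dy L → ℂ) (x : ℝ × ℝ) :
    ‖G (dg K x.1) (dg L x.2)‖ ≤ ∑ u, ∑ v, ‖G u v‖ :=
  (Finset.single_le_sum (f := fun v => ‖G (dg K x.1) v‖) (fun _ _ => norm_nonneg _)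
    (Finset.mem_univ _)).trans
    (Finset.single_le_sum (f := fun u => ∑ v, ‖G u v‖)
      (fun _ _ => Finset.sum_nonneg fun _ _ => norm_nonneg _) (Finset.mem_univ _))

theorem integrable_stp2 (G : Dy K → Dy L → ℂ) : Integrable (stp2 G) := by
  rw [Step_stp2_eq, integrable_indicator_iff Step_sq]
  exact Measure.integrableOn_of_bounded (M := ∑ u, ∑ v, ‖G u v‖) Step_volsq
    (Step_meas2 G).aestronglyMeasurable (Filter.Eventually.of_forall fun x => Step_bound G x)

theorem memLp_stp2 (G : Dy K → Dy L → ℂ) : MemLp (stp2 G) 2 := by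
  rw [Step_stp2_eq, memLp_indicator_iff_restrict Step_sq]
  have : IsFiniteMeasure (volume.restrict (Set.Ico (0 : ℝ) 1 ×ˢ Set.Ico (0 : ℝ) 1)) :=
    ⟨by
      rw [Measure.restrict_apply_univ]
      exact Step_volsq.lt_top⟩
  exact MemLp.of_bound (Step_meas2 G).aestronglyMeasurable (∑ u, ∑ v, ‖G u v‖)
    (Filter.Eventually.of_forall fun x => Step_bound G x)

/-- the exponential -/
noncomputable def Step_e (t : ℝ) : ℂ :=
  Complex.exp (-(2 * (Real.pi : ℂ) * Complex.I * (t : ℂ)))

theorem Step_e_norm (t : ℝ) : ‖Step_e t‖ = 1 := by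
  unfold Step_e
  have h : -(2 * (Real.pi : ℂ) * Complex.I * (t : ℂ)) =
      ((-(2 * Real.pi * t) : ℝ) : ℂ) * Complex.I := by
    push_cast
    ring
  rw [h, Complex.norm_exp_ofReal_mul_I]

theorem Step_e_cont : Continuous Step_e := by
  unfold Step_e
  fun_prop

theorem Step_e_add (s t : ℝ) : Step_e (s + t) = Step_e s * Step_e t := by
  unfold Step_e
  rw [← Complex.exp_add]
  congr 1
  push_cast
  ring

theorem Step_FT1 (g : ℝ → ℂ) (t : ℝ) : FT1 g t = ∫ y : ℝ, Step_e (y * t) * g y := rfl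

theorem Step_FT (g : ℝ × ℝ → ℂ) (ξ : ℝ × ℝ) :
    FT g ξ = ∫ y : ℝ × ℝ, Step_e (y.1 * ξ.1 + y.2 * ξ.2) * g y := rfl

theorem Step_int2 {g : ℝ × ℝ → ℂ} (hg : Integrable g) (ξ : ℝ × ℝ) :
    Integrable fun y : ℝ × ℝ => Step_e (y.1 * ξ.1 + y.2 * ξ.2) * g y :=
  hg.bdd_mul (c := 1) (Step_e_cont.comp (by fun_prop)).aestronglyMeasurable
    (Filter.Eventually.of_forall fun y => (Step_e_norm _).le)

theorem Step_int1 {g : ℝ → ℂ} (hg : Integrable g) (t : ℝ) :
    Integrable fun y : ℝ => Step_e (y * t) * g y :=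
  hg.bdd_mul (c := 1) (Step_e_cont.comp (by fun_prop)).aestronglyMeasurable
    (Filter.Eventually.of_forall fun y => (Step_e_norm _).le)

/-- The Fourier transform of a step function, one variable after the other. -/
theorem FT_stp2 (G : Dy K → Dy L → ℂ) (ξ : ℝ × ℝ) :
    FT (stp2 G) ξ = FT1 (stp fun x => FT1 (stp (G x)) ξ.2) ξ.1 := by
  rw [Step_FT, Step_FT1]
  have h1 := Step_int2 (integrable_stp2 G) ξ
  rw [Measure.volume_eq_prod] at h1 ⊢
  rw [integral_prod _ h1]
  refine integral_congr_ae (Filter.Eventually.of_forall fun x => ?_)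
  show ∫ y : ℝ, Step_e (x * ξ.1 + y * ξ.2) * stp2 G (x, y) =
    Step_e (x * ξ.1) * stp (fun x => FT1 (stp (G x)) ξ.2) x
  by_cases hx : 0 ≤ x ∧ x < 1
  · have h2 : stp (fun x => FT1 (stp (G x)) ξ.2) x = FT1 (stp (G (dg K x))) ξ.2 := by
      unfold stp
      rw [if_pos hx]
    rw [h2, Step_FT1, ← integral_const_mul]
    congr 1
    funext y
    rw [Step_e_add, mul_assoc]
    congr 2
    unfold stp2 stp
    by_cases hy : 0 ≤ y ∧ y < 1
    · rw [if_pos ⟨hx, hy⟩, if_pos hy]
    · rw [if_neg (fun h => hy h.2), if_neg hy]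
  · have h2 : stp (fun x => FT1 (stp (G x)) ξ.2) x = 0 := by
      unfold stp
      rw [if_neg hx]
    rw [h2, mul_zero]
    refine integral_eq_zero_of_ae (Filter.Eventually.of_forall fun y => ?_)
    show Step_e (x * ξ.1 + y * ξ.2) * stp2 G (x, y) = 0
    unfold stp2
    rw [if_neg (fun h => hx h.1), mul_zero]

theorem FT_stp2' (G : Dy K → Dy L → ℂ) (ξ : ℝ × ℝ) :
    FT (stp2 G) ξ = FT1 (stp fun y => FT1 (stp fun x => G x y) ξ.1) ξ.2 := by
  rw [Step_FT, Step_FT1]
  have h1 := Step_int2 (integrable_stp2 G) ξ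
  rw [Measure.volume_eq_prod] at h1 ⊢
  rw [integral_prod_symm _ h1]
  refine integral_congr_ae (Filter.Eventually.of_forall fun y => ?_)
  show ∫ x : ℝ, Step_e (x * ξ.1 + y * ξ.2) * stp2 G (x, y) =
    Step_e (y * ξ.2) * stp (fun y => FT1 (stp fun x => G x y) ξ.1) y
  by_cases hy : 0 ≤ y ∧ y < 1
  · have h2 : stp (fun y => FT1 (stp fun x => G x y) ξ.1) y =
        FT1 (stp fun x => G x (dg L y)) ξ.1 := by
      unfold stp
      rw [if_pos hy]
    rw [h2, Step_FT1, ← integral_const_mul]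
    congr 1
    funext x
    rw [Step_e_add, mul_comm (Step_e (x * ξ.1)), mul_assoc]
    congr 2
    unfold stp2 stp
    by_cases hx : 0 ≤ x ∧ x < 1
    · rw [if_pos ⟨hx, hy⟩, if_pos hx]
    · rw [if_neg (fun h => hx h.1), if_neg hx]
  · have h2 : stp (fun y => FT1 (stp fun x => G x y) ξ.1) y = 0 := by
      unfold stp
      rw [if_neg hy]
    rw [h2, mul_zero]
    refine integral_eq_zero_of_ae (Filter.Eventually.of_forall fun x => ?_)
    show Step_e (x * ξ.1 + y * ξ.2) * stp2 G (x, y) = 0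
    unfold stp2
    rw [if_neg (fun h => hy h.2), mul_zero]

/-- Linearity. -/
theorem FT_stp2_sum {ι : Type} (s : Finset ι) (G : ι → Dy K → Dy L → ℂ) (ξ : ℝ × ℝ) :
    FT (stp2 fun x y => ∑ i ∈ s, G i x y) ξ = ∑ i ∈ s, FT (stp2 (G i)) ξ := by
  simp only [Step_FT]
  rw [← integral_finsetSum s fun i _ => Step_int2 (integrable_stp2 (G i)) ξ]
  congr 1
  funext y
  rw [← Finset.mul_sum]
  congr 1
  unfold stp2
  split_ifs
  · rfl
  · simp

/-- `FT1 (stp g) t` is a linear combination of the values of `g`. -/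
theorem FT1_stp_lin (K : ℕ) (t : ℝ) : ∃ c : Dy K → ℂ, ∀ g : Dy K → ℂ,
    FT1 (stp g) t = ∑ w, c w * g w := by
  classical
  refine ⟨fun w => FT1 (stp fun w' => if w' = w then 1 else 0) t, fun g => ?_⟩
  simp only [Step_FT1]
  have h1 : ∀ w : Dy K, (∫ y : ℝ, Step_e (y * t) * stp (fun w' => if w' = w then 1 else 0) y) *
      g w = ∫ y : ℝ, Step_e (y * t) * stp (fun w' => if w' = w then 1 else 0) y * g w :=
    fun w => (integral_mul_const _ _).symm
  simp only [h1]
  rw [← integral_finsetSum _ fun w _ => (Step_int1 (integrable_stp _) t).mul_const _]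
  congr 1
  funext y
  simp only [mul_assoc]
  rw [← Finset.mul_sum]
  congr 1
  unfold stp
  split_ifs
  · simp
  · simp

theorem continuous_FT1_stp (g : Dy K → ℂ) : Continuous (FT1 (stp g)) := by
  have h : FT1 (stp g) = fun t => ∫ y : ℝ, Step_e (y * t) * stp g y := rfl
  rw [h]
  refine continuous_of_dominated (bound := fun y => ‖stp g y‖)
    (fun t => (Step_int1 (integrable_stp g) t).aestronglyMeasurable)
    (fun t => Filter.Eventually.of_forall fun y => ?_) (integrable_stp g).norm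
    (Filter.Eventually.of_forall fun y => ?_)
  · rw [norm_mul, Step_e_norm, one_mul]
  · exact (Step_e_cont.comp (by fun_prop)).mul continuous_const

end Pool.Agent.helper75.HT
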