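import Pool.Agent.helper75.HT.Poly
import Pool.Agent.helper75.HT.Step

/-!
# Key1 : the weighted estimate for one difference, one variable

`j = 0`: `stp g = c · ii`, `c` the constant value (`j ≤ K`; if `g` is constant).  `weighted_ii`.
`j = J + 1`: with `c m = stp g (m/2^J)`: `stp g x = ∑_{m<2^J} c m · hh (2^J x - m)` (the first `J+1` digits of `x` and of `m/2^J` agree if
`x ∈ [m/2^J, (m+1/2)/2^J)`, and differ exactly in digit number `J` if `x` is in the other half).  So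
`FT1 (stp g) ξ = 2^{-J} FT1 hh (2^{-J}ξ) tp (2^J) c (2^{-J}ξ)`; substitute `t = 2^{-J}ξ`, `wt (ξ/2^j) = wt (t/2) ≤ 3 wt t`:
left side `≤ 2^J · 9 · 2^{-2J} C ∑|c m|² = 9C 2^{-J} ∑ |c m|²`, and `(∑_w |g w|²)/2^K = 2^{-J} ∑ |c m|²` (`lintegral_stp_sq`).
-/

set_option autoImplicit false

namespace Pool.Agent.helper75.HT

open Finset MeasureTheory Pool.Agent.helper18.HC

theorem Key1_digit {J i : ℕ} (hi : i < J) {m : ℕ} {y : ℝ} (hy0 : 0 ≤ y) (hy1 : y < 1) :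
    ⌊(2 : ℝ) ^ (i + 1) * ((y + m) / 2 ^ J)⌋ = ⌊(2 : ℝ) ^ (i + 1) * ((m : ℝ) / 2 ^ J)⌋ := by
  obtain ⟨d, rfl⟩ := Nat.exists_eq_add_of_lt hi
  have hD : (0 : ℝ) < 2 ^ d := by positivity
  have e : ∀ z : ℝ, (2 : ℝ) ^ (i + 1) * (z / 2 ^ (i + d + 1)) = z / 2 ^ d := by
    intro z
    have h : (2 : ℝ) ^ (i + d + 1) = 2 ^ (i + 1) * 2 ^ d := by ring
    rw [h]
    field_simp
  rw [e, e]
  set q := ⌊(m : ℝ) / 2 ^ d⌋ with hq
  rw [Int.floor_eq_iff]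
  have h1 : (q : ℝ) ≤ m / 2 ^ d := Int.floor_le _
  have h2 : (m : ℝ) / 2 ^ d < q + 1 := Int.lt_floor_add_one _
  rw [le_div_iff₀ hD] at h1
  rw [div_lt_iff₀ hD] at h2
  have h3 : (m : ℤ) < (q + 1) * 2 ^ d := by exact_mod_cast h2
  have h4 : (m : ℤ) + 1 ≤ (q + 1) * 2 ^ d := h3
  have h5 : (m : ℝ) + 1 ≤ (q + 1) * 2 ^ d := by exact_mod_cast h4
  constructor
  · rw [le_div_iff₀ hD]
    linarith
  · rw [div_lt_iff₀ hD]
    linarith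

theorem Key1_top (J m : ℕ) {y : ℝ} (hy0 : 0 ≤ y) (hy1 : y < 1 / 2) :
    ⌊(2 : ℝ) ^ (J + 1) * ((y + m) / 2 ^ J)⌋ = 2 * m := by
  have e : (2 : ℝ) ^ (J + 1) * ((y + m) / 2 ^ J) = 2 * (y + m) := by
    rw [pow_succ]
    field_simp
  rw [e, Int.floor_eq_iff]
  push_cast
  constructor <;> linarith

theorem Key1_top' (J m : ℕ) {y : ℝ} (hy0 : 1 / 2 ≤ y) (hy1 : y < 1) :
    ⌊(2 : ℝ) ^ (J + 1) * ((y + m) / 2 ^ J)⌋ = 2 * m + 1 := by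
  have e : (2 : ℝ) ^ (J + 1) * ((y + m) / 2 ^ J) = 2 * (y + m) := by
    rw [pow_succ]
    field_simp
  rw [e, Int.floor_eq_iff]
  push_cast
  constructor <;> linarith

theorem Key1_top0 (J m : ℕ) : ⌊(2 : ℝ) ^ (J + 1) * ((m : ℝ) / 2 ^ J)⌋ = 2 * m := by
  have h := Key1_top J m (y := 0) le_rfl (by norm_num)
  rwa [zero_add] at h

theorem Key1_mem {J m : ℕ} (hm : m < 2 ^ J) {y : ℝ} (hy0 : 0 ≤ y) (hy1 : y < 1) :
    0 ≤ (y + m) / 2 ^ J ∧ (y + m) / 2 ^ J < 1 := by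
  have h1 : (m : ℝ) + 1 ≤ 2 ^ J := by exact_mod_cast hm
  constructor
  · positivity
  · rw [div_lt_one (by positivity)]
    linarith

theorem Key1_cell {K J : ℕ} {g : Dy K → ℂ} (hg : HaarAt (J + 1) g) {m : ℕ} (hm : m < 2 ^ J)
    {y : ℝ} (hy0 : 0 ≤ y) (hy1 : y < 1) :
    stp g ((y + m) / 2 ^ J) = stp g ((m : ℝ) / 2 ^ J) * hh y := by
  obtain ⟨h1, h2⟩ := hg
  have hx := Key1_mem hm hy0 hy1
  have hm' := Key1_mem hm (y := 0) le_rfl one_pos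
  rw [zero_add] at hm'
  unfold stp
  rw [if_pos hx, if_pos hm']
  by_cases hy : y < 1 / 2
  · have h3 : hh y = 1 := by
      unfold hh
      rw [if_pos ⟨hy0, hy⟩]
    rw [h3, mul_one]
    apply h1
    intro i hi
    unfold dg
    rcases Nat.lt_succ_iff_lt_or_eq.1 hi with hi | hi
    · rw [Key1_digit hi hy0 hy1]
    · rw [hi, Key1_top J m hy0 hy, Key1_top0]
  · have hy' : 1 / 2 ≤ y := not_lt.1 hy
    have h3 : hh y = -1 := by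
      unfold hh
      rw [if_neg (fun h => hy h.2), if_pos ⟨hy', hy1⟩]
    have h4 : g (fl J (dg K ((y + m) / 2 ^ J))) = g (dg K ((m : ℝ) / 2 ^ J)) := by
      apply h1
      intro i hi
      unfold fl dg
      rcases Nat.lt_succ_iff_lt_or_eq.1 hi with hi | hi
      · rw [if_neg (Nat.ne_of_lt hi), Key1_digit hi hy0 hy1]
      · rw [if_pos hi, hi, Key1_top' J m hy' hy1, Key1_top0]
        have e1 : (2 * (m : ℤ) + 1) % 2 = 1 := by omega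
        have e2 : ¬((2 * (m : ℤ)) % 2 = 1) := by omega
        simp [e1]
    rw [h3, ← h4, h2]
    ring

theorem Key1_hh_zero {y : ℝ} (h : ¬(0 ≤ y ∧ y < 1)) : hh y = 0 := by
  unfold hh
  rw [if_neg, if_neg]
  · rintro ⟨h1, h2⟩
    exact h ⟨by linarith, h2⟩
  · rintro ⟨h1, h2⟩
    exact h ⟨h1, by linarith⟩

/-- the cell of a point -/
theorem Key1_cases (J : ℕ) (x : ℝ) : (∀ m ∈ range (2 ^ J), hh (2 ^ J * x - m) = 0) ∧
    ¬(0 ≤ x ∧ x < 1) ∨ ∃ m ∈ range (2 ^ J), 0 ≤ 2 ^ J * x - m ∧ 2 ^ J * x - m < 1 ∧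
      ∀ m' ∈ range (2 ^ J), m' ≠ m → hh (2 ^ J * x - m') = 0 := by
  have h2 : (0 : ℝ) < 2 ^ J := by positivity
  by_cases hx : 0 ≤ x ∧ x < 1
  · right
    have h3 : 0 ≤ 2 ^ J * x := mul_nonneg h2.le hx.1
    have h4 : 2 ^ J * x < 2 ^ J := by nlinarith [hx.2]
    have h5 := Nat.floor_le h3
    have h6 := Nat.lt_floor_add_one (2 ^ J * x)
    refine ⟨⌊2 ^ J * x⌋₊, ?_, by linarith, by linarith, ?_⟩
    · rw [Finset.mem_range]
      have h7 : (⌊2 ^ J * x⌋₊ : ℝ) < ((2 ^ J : ℕ) : ℝ) := by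
        push_cast
        linarith
      exact_mod_cast h7
    · intro m' _ hne
      apply Key1_hh_zero
      rintro ⟨h7, h8⟩
      apply hne
      symm
      rw [Nat.floor_eq_iff h3]
      constructor <;> linarith
  · left
    refine ⟨fun m hm => ?_, hx⟩
    rw [Finset.mem_range] at hm
    have h1 : (m : ℝ) + 1 ≤ 2 ^ J := by exact_mod_cast hm
    apply Key1_hh_zero
    rintro ⟨h7, h8⟩
    apply hx
    have h9 : (0 : ℝ) ≤ m := Nat.cast_nonneg m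
    constructor
    · by_contra hneg
      rw [not_le] at hneg
      nlinarith
    · by_contra hneg
      rw [not_lt] at hneg
      nlinarith

theorem Key1_stp {K J : ℕ} {g : Dy K → ℂ} (hg : HaarAt (J + 1) g) (x : ℝ) :
    stp g x = ∑ m ∈ range (2 ^ J), stp g ((m : ℝ) / 2 ^ J) * hh (2 ^ J * x - m) := by
  rcases Key1_cases J x with ⟨h1, h2⟩ | ⟨m, hm, h1, h2, h3⟩
  · have h4 : stp g x = 0 := by
      unfold stp
      rw [if_neg h2]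
    rw [h4]
    symm
    apply Finset.sum_eq_zero
    intro m hm
    rw [h1 m hm, mul_zero]
  · rw [Finset.sum_eq_single_of_mem m hm fun m' hm' hne => by rw [h3 m' hm' hne, mul_zero]]
    rw [← Key1_cell hg (Finset.mem_range.1 hm) h1 h2]
    congr 1
    field_simp
    ring

theorem Key1_stp_sq {K J : ℕ} {g : Dy K → ℂ} (hg : HaarAt (J + 1) g) (x : ℝ) :
    ‖stp g x‖ₑ ^ 2 = ∑ m ∈ range (2 ^ J), ‖stp g ((m : ℝ) / 2 ^ J)‖ₑ ^ 2 *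
      ‖hh (2 ^ J * x - m)‖ₑ ^ 2 := by
  rw [Key1_stp hg x]
  rcases Key1_cases J x with ⟨h1, h2⟩ | ⟨m, hm, h1, h2, h3⟩
  · rw [Finset.sum_eq_zero fun m hm => by rw [h1 m hm, mul_zero],
      Finset.sum_eq_zero fun m hm => by rw [h1 m hm, enorm_zero, zero_pow two_ne_zero, mul_zero]]
    simp
  · rw [Finset.sum_eq_single_of_mem m hm fun m' hm' hne => by rw [h3 m' hm' hne, mul_zero],
      Finset.sum_eq_single_of_mem m hm fun m' hm' hne => by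
        rw [h3 m' hm' hne, enorm_zero, zero_pow two_ne_zero, mul_zero]]
    rw [enorm_mul, mul_pow]

theorem Key1_meas_hh : Measurable hh := by
  unfold hh
  exact Measurable.ite measurableSet_Ico measurable_const
    (Measurable.ite measurableSet_Ico measurable_const measurable_const)

theorem Key1_lint_hh : ∫⁻ y, ‖hh y‖ₑ ^ 2 = 1 := by
  have h : (fun y => ‖hh y‖ₑ ^ 2) = (Set.Ico (0 : ℝ) 1).indicator 1 := by
    funext y
    by_cases h1 : y ∈ Set.Ico (0 : ℝ) 1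
    · rw [Set.indicator_of_mem h1, Pi.one_apply]
      unfold hh
      by_cases h2 : y < 1 / 2
      · rw [if_pos ⟨h1.1, h2⟩]
        simp
      · rw [if_neg (fun h => h2 h.2), if_pos ⟨not_lt.1 h2, h1.2⟩]
        simp
    · rw [Set.indicator_of_notMem h1, Key1_hh_zero h1]
      simp
  rw [h, lintegral_indicator_one measurableSet_Ico, Real.volume_Ico]
  simp

theorem Key1_lint_mul {a : ℝ} (ha : 0 < a) (F : ℝ → ENNReal) :
    ∫⁻ x, F (a * x) = ENNReal.ofReal a⁻¹ * ∫⁻ t, F t := by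
  have h := Real.smul_map_volume_mul_left ha.ne'
  rw [abs_of_pos ha] at h
  conv_rhs => rw [← h]
  rw [lintegral_smul_measure]
  have h2 : ∫⁻ t, F t ∂(Measure.map (fun x : ℝ => a * x) volume) = ∫⁻ x, F (a * x) :=
    lintegral_map_equiv F (Homeomorph.mulLeft₀ a ha.ne').toMeasurableEquiv
  rw [h2, smul_eq_mul, ← mul_assoc, ← ENNReal.ofReal_mul (by positivity),
    inv_mul_cancel₀ ha.ne', ENNReal.ofReal_one, one_mul]

theorem Key1_sq {K J : ℕ} {g : Dy K → ℂ} (hg : HaarAt (J + 1) g) :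
    (∑ w, ‖g w‖ₑ ^ 2) / 2 ^ K = ENNReal.ofReal ((2 : ℝ) ^ J)⁻¹ *
      ∑ m ∈ range (2 ^ J), ‖stp g ((m : ℝ) / 2 ^ J)‖ₑ ^ 2 := by
  rw [← lintegral_stp_sq, lintegral_congr (fun x => Key1_stp_sq hg x), lintegral_finsetSum]
  · rw [Finset.mul_sum]
    refine Finset.sum_congr rfl fun m _ => ?_
    rw [lintegral_const_mul]
    · have h1 := Key1_lint_mul (a := 2 ^ J) (by positivity) (fun z => ‖hh (z - m)‖ₑ ^ 2)
      have h2 : ∫⁻ t : ℝ, ‖hh (t - m)‖ₑ ^ 2 = ∫⁻ t, ‖hh t‖ₑ ^ 2 :=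
        lintegral_sub_right_eq_self (fun t => ‖hh t‖ₑ ^ 2) (m : ℝ)
      rw [h1, h2, Key1_lint_hh, mul_one, mul_comm]
    · exact ((Key1_meas_hh.comp ((measurable_const_mul _).sub_const _)).enorm.pow_const _)
  · intro m _
    exact ((Key1_meas_hh.comp ((measurable_const_mul _).sub_const _)).enorm.pow_const
      _).const_mul _

theorem Key1_int (J m : ℕ) : Integrable fun x : ℝ => hh (2 ^ J * x - m) := by
  have h1 := (integrable_hh.comp_sub_right (m : ℝ)).comp_mul_left' (R := (2 : ℝ) ^ J)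
    (by positivity)
  exact h1

theorem Key1_shift (J m : ℕ) (ξ : ℝ) :
    ∫ x : ℝ, Step_e (x * ξ) * hh (2 ^ J * x - m) =
      ((2 : ℂ) ^ J)⁻¹ * (Step_e (m * (ξ / 2 ^ J)) * FT1 hh (ξ / 2 ^ J)) := by
  have h2 : (0 : ℝ) < 2 ^ J := by positivity
  have h3 : ∀ x : ℝ, Step_e (x * ξ) * hh (2 ^ J * x - m) =
      (fun z : ℝ => (fun y : ℝ => Step_e (m * (ξ / 2 ^ J)) *
        (Step_e (y * (ξ / 2 ^ J)) * hh y)) (z - m)) (2 ^ J * x) := by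
    intro x
    simp only
    rw [← mul_assoc, ← Step_e_add]
    congr 2
    field_simp
    ring
  simp only [h3]
  rw [Measure.integral_comp_mul_left (fun z : ℝ => (fun y : ℝ => Step_e (m * (ξ / 2 ^ J)) *
        (Step_e (y * (ξ / 2 ^ J)) * hh y)) (z - m)) ((2 : ℝ) ^ J),
    integral_sub_right_eq_self (fun y : ℝ => Step_e (m * (ξ / 2 ^ J)) *
        (Step_e (y * (ξ / 2 ^ J)) * hh y)) (m : ℝ), integral_const_mul, ← Step_FT1,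
    abs_of_pos (by positivity), Complex.real_smul]
  push_cast
  rfl

theorem Key1_FT {K J : ℕ} {g : Dy K → ℂ} (hg : HaarAt (J + 1) g) (ξ : ℝ) :
    FT1 (stp g) ξ = ((2 : ℂ) ^ J)⁻¹ * (FT1 hh (ξ / 2 ^ J) *
      tp (2 ^ J) (fun m => stp g ((m : ℝ) / 2 ^ J)) (ξ / 2 ^ J)) := by
  rw [Step_FT1]
  have h1 : ∀ x : ℝ, Step_e (x * ξ) * stp g x = ∑ m ∈ range (2 ^ J),
      stp g ((m : ℝ) / 2 ^ J) * (Step_e (x * ξ) * hh (2 ^ J * x - m)) := by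
    intro x
    rw [Key1_stp hg x, Finset.mul_sum]
    refine Finset.sum_congr rfl fun m _ => ?_
    ring
  simp only [h1]
  rw [integral_finsetSum _ fun m _ => (Step_int1 (Key1_int J m) ξ).const_mul _]
  unfold tp
  rw [Finset.mul_sum, Finset.mul_sum]
  refine Finset.sum_congr rfl fun m _ => ?_
  rw [integral_const_mul, Key1_shift]
  unfold Step_e
  ring

theorem Key1_wt (ξ : ℝ) (J : ℕ) : wt (ξ / 2 ^ (J + 1)) ^ 2 ≤ 9 * wt (ξ / 2 ^ J) ^ 2 := by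
  have h1 : ξ / 2 ^ (J + 1) = 1 / 2 * (ξ / 2 ^ J) := by
    rw [pow_succ]
    field_simp
  have h2 : wt (ξ / 2 ^ (J + 1)) ≤ 3 * wt (ξ / 2 ^ J) := by
    rw [h1]
    refine (wt_mul_le _ _).trans ?_
    exact mul_le_mul_of_nonneg_right wt_half (wt_nonneg _)
  have h3 := wt_nonneg (ξ / 2 ^ (J + 1))
  calc wt (ξ / 2 ^ (J + 1)) ^ 2 ≤ (3 * wt (ξ / 2 ^ J)) ^ 2 := pow_le_pow_left₀ h3 h2 2
    _ = 9 * wt (ξ / 2 ^ J) ^ 2 := by ring

theorem Key1_zero {C2 : ℝ}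
    (h2 : ∫⁻ t, ENNReal.ofReal (wt t ^ 2) * ‖FT1 ii t‖ₑ ^ 2 ≤ ENNReal.ofReal C2)
    (K : ℕ) (g : Dy K → ℂ) (hg : HaarAt 0 g) :
    ∫⁻ ξ, ENNReal.ofReal (wt (ξ / 2 ^ 0) ^ 2) * ‖FT1 (stp g) ξ‖ₑ ^ 2 ≤
      ENNReal.ofReal C2 * ((∑ w, ‖g w‖ₑ ^ 2) / 2 ^ K) := by
  set c : ℂ := g (fun _ => false) with hc
  have h3 : ∀ w, g w = c := fun w => hg w _
  have h4 : ∀ x, stp g x = c * ii x := by
    intro x
    unfold stp ii
    split_ifs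
    · rw [h3, mul_one]
    · rw [mul_zero]
  have h5 : ∀ ξ, FT1 (stp g) ξ = c * FT1 ii ξ := by
    intro ξ
    rw [Step_FT1, Step_FT1, ← integral_const_mul]
    congr 1
    funext y
    rw [h4]
    ring
  have h6 : (∑ w, ‖g w‖ₑ ^ 2) / 2 ^ K = ‖c‖ₑ ^ 2 := by
    simp only [h3]
    rw [Finset.sum_const, Finset.card_univ]
    have h7 : Fintype.card (Dy K) = 2 ^ K := by simp [Dy]
    rw [h7, nsmul_eq_mul, Nat.cast_pow, Nat.cast_ofNat, mul_comm]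
    exact ENNReal.mul_div_cancel_right (by positivity) (by finiteness)
  rw [h6]
  have h8 : ∀ ξ : ℝ, ENNReal.ofReal (wt (ξ / 2 ^ 0) ^ 2) * ‖FT1 (stp g) ξ‖ₑ ^ 2 =
      ‖c‖ₑ ^ 2 * (ENNReal.ofReal (wt ξ ^ 2) * ‖FT1 ii ξ‖ₑ ^ 2) := by
    intro ξ
    rw [h5, pow_zero, div_one, enorm_mul, mul_pow]
    ring
  simp only [h8]
  rw [lintegral_const_mul' _ _ (by finiteness), mul_comm]
  exact mul_le_mul_left h2 _

theorem Key1_succ {C1 : ℝ} (hC1 : 0 ≤ C1) (h1 : ∀ (M : ℕ) (c : ℕ → ℂ),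
    ∫⁻ t, ENNReal.ofReal (wt t ^ 2) * ‖FT1 hh t * tp M c t‖ₑ ^ 2 ≤
      ENNReal.ofReal C1 * ∑ m ∈ range M, ‖c m‖ₑ ^ 2)
    (K J : ℕ) (g : Dy K → ℂ) (hg : HaarAt (J + 1) g) :
    ∫⁻ ξ, ENNReal.ofReal (wt (ξ / 2 ^ (J + 1)) ^ 2) * ‖FT1 (stp g) ξ‖ₑ ^ 2 ≤
      ENNReal.ofReal (9 * C1) * ((∑ w, ‖g w‖ₑ ^ 2) / 2 ^ K) := by
  have hp : (0 : ℝ) < 2 ^ J := by positivity
  set c : ℕ → ℂ := fun m => stp g ((m : ℝ) / 2 ^ J) with hc
  set F : ℝ → ENNReal := fun t => ENNReal.ofReal (9 * (((2 : ℝ) ^ J)⁻¹) ^ 2) *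
    (ENNReal.ofReal (wt t ^ 2) * ‖FT1 hh t * tp (2 ^ J) c t‖ₑ ^ 2) with hF
  have h2 : ∀ ξ : ℝ, ENNReal.ofReal (wt (ξ / 2 ^ (J + 1)) ^ 2) * ‖FT1 (stp g) ξ‖ₑ ^ 2 ≤
      F (((2 : ℝ) ^ J)⁻¹ * ξ) := by
    intro ξ
    have e0 : ((2 : ℝ) ^ J)⁻¹ * ξ = ξ / 2 ^ J := by
      rw [mul_comm, div_eq_mul_inv]
    have e1 : ‖((2 : ℂ) ^ J)⁻¹‖ₑ = ENNReal.ofReal (((2 : ℝ) ^ J)⁻¹) := by
      rw [← ofReal_norm, norm_inv, norm_pow, Complex.norm_ofNat]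
    rw [Key1_FT hg ξ, enorm_mul, mul_pow, e1, hF]
    simp only
    have e2 : ENNReal.ofReal (9 * (((2 : ℝ) ^ J)⁻¹) ^ 2) =
        ENNReal.ofReal 9 * ENNReal.ofReal (((2 : ℝ) ^ J)⁻¹) ^ 2 := by
      rw [ENNReal.ofReal_mul (by norm_num), ENNReal.ofReal_pow (by positivity)]
    rw [e0, e2]
    calc ENNReal.ofReal (wt (ξ / 2 ^ (J + 1)) ^ 2) * (ENNReal.ofReal (((2 : ℝ) ^ J)⁻¹) ^ 2 *
          ‖FT1 hh (ξ / 2 ^ J) * tp (2 ^ J) c (ξ / 2 ^ J)‖ₑ ^ 2) ≤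
        ENNReal.ofReal (9 * wt (ξ / 2 ^ J) ^ 2) * (ENNReal.ofReal (((2 : ℝ) ^ J)⁻¹) ^ 2 *
          ‖FT1 hh (ξ / 2 ^ J) * tp (2 ^ J) c (ξ / 2 ^ J)‖ₑ ^ 2) := by
          gcongr
          exact Key1_wt ξ J
      _ = _ := by
          rw [ENNReal.ofReal_mul (by norm_num : (0 : ℝ) ≤ 9)]
          ring
  refine (lintegral_mono h2).trans ?_
  rw [Key1_lint_mul (inv_pos.2 hp) F, inv_inv, hF, lintegral_const_mul' _ _ (by finiteness),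
    Key1_sq hg]
  calc ENNReal.ofReal (2 ^ J) * (ENNReal.ofReal (9 * (((2 : ℝ) ^ J)⁻¹) ^ 2) *
        ∫⁻ t, ENNReal.ofReal (wt t ^ 2) * ‖FT1 hh t * tp (2 ^ J) c t‖ₑ ^ 2) ≤
      ENNReal.ofReal (2 ^ J) * (ENNReal.ofReal (9 * (((2 : ℝ) ^ J)⁻¹) ^ 2) *
        (ENNReal.ofReal C1 * ∑ m ∈ range (2 ^ J), ‖c m‖ₑ ^ 2)) := by
        gcongr
        exact h1 _ _
    _ = ENNReal.ofReal (2 ^ J * (9 * (((2 : ℝ) ^ J)⁻¹) ^ 2) * C1) *
        ∑ m ∈ range (2 ^ J), ‖c m‖ₑ ^ 2 := by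
        rw [ENNReal.ofReal_mul (p := 2 ^ J * (9 * (((2 : ℝ) ^ J)⁻¹) ^ 2)) (by positivity),
          ENNReal.ofReal_mul (p := 2 ^ J) (by positivity)]
        ring
    _ = ENNReal.ofReal (9 * C1 * ((2 : ℝ) ^ J)⁻¹) * ∑ m ∈ range (2 ^ J), ‖c m‖ₑ ^ 2 := by
        congr 2
        field_simp
    _ = _ := by
        rw [ENNReal.ofReal_mul (by positivity)]
        ring

theorem key1 : ∃ C : ℝ, 0 ≤ C ∧ ∀ (K j : ℕ) (_ : j ≤ K) (g : Dy K → ℂ) (_ : HaarAt j g),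
    ∫⁻ ξ, ENNReal.ofReal (wt (ξ / 2 ^ j) ^ 2) * ‖FT1 (stp g) ξ‖ₑ ^ 2 ≤
      ENNReal.ofReal C * ((∑ w, ‖g w‖ₑ ^ 2) / 2 ^ K) := by
  obtain ⟨C1, hC1, h1⟩ := weighted_hh
  obtain ⟨C2, hC2, h2⟩ := weighted_ii
  refine ⟨9 * C1 + C2, by positivity, fun K j _ g hg => ?_⟩
  cases j with
  | zero =>
    refine (Key1_zero h2 K g hg).trans ?_
    gcongr
    linarith
  | succ J =>
    refine (Key1_succ hC1 h1 K J g hg).trans ?_
    gcongr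
    linarith

end Pool.Agent.helper75.HT
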