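import Pool.Agent.helper75.HT.Key1

/-!
# Key2 : the weighted estimate for one double difference

`FT_stp2`: for fixed `ξ.2` the function `x ↦ FT1 (stp (g x)) ξ.2` is `HaarAt j` (`FT1_stp_lin`: it is a linear combination of the
`g · y`).  Tonelli (`lintegral_prod`), `key1` in the first variable, then multiply by `wt (ξ.2/2^l)²`, integrate and use
`key1` in the second variable for every `x`.  Constant `C²`.
-/

set_option autoImplicit false

namespace Pool.Agent.helper75.HT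

open Finset MeasureTheory Pool.Agent.helper18.HC

/-- the square norm over the grid -/
theorem Key2_nsq {K L : ℕ} (G : Dy K → Dy L → ℂ) :
    ENNReal.ofReal (nsq G) = (∑ x, (∑ y, ‖G x y‖ₑ ^ 2) / 2 ^ L) / 2 ^ K := by
  unfold nsq
  rw [ENNReal.ofReal_div_of_pos (by positivity), ENNReal.ofReal_mul (by positivity),
    ENNReal.ofReal_pow (by norm_num), ENNReal.ofReal_pow (by norm_num),
    ENNReal.ofReal_sum_of_nonneg fun x _ => Finset.sum_nonneg fun y _ => by positivity]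
  have h1 : ∀ x : Dy K, ENNReal.ofReal (∑ y, ‖G x y‖ ^ 2) = ∑ y, ‖G x y‖ₑ ^ 2 := by
    intro x
    rw [ENNReal.ofReal_sum_of_nonneg fun y _ => by positivity]
    refine Finset.sum_congr rfl fun y _ => ?_
    rw [ENNReal.ofReal_pow (norm_nonneg _), ofReal_norm]
  have h2 : ENNReal.ofReal 2 = 2 := by norm_num
  simp only [h1, h2]
  simp only [div_eq_mul_inv]
  rw [← Finset.sum_mul, mul_assoc, ENNReal.mul_inv (Or.inl (by positivity))
    (Or.inl (by finiteness)), mul_comm (((2 : ENNReal) ^ K)⁻¹)]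

/-- The partial transforms are again differences of the same level. -/
theorem Key2_haar {K L j : ℕ} {g : Dy K → Dy L → ℂ} (hg : ∀ y, HaarAt j fun x => g x y) (t : ℝ) :
    HaarAt j fun x => FT1 (stp (g x)) t := by
  obtain ⟨c, hc⟩ := FT1_stp_lin L t
  simp only [hc]
  cases j with
  | zero =>
    intro x x'
    refine Finset.sum_congr rfl fun y _ => ?_
    have h : g x y = g x' y := hg y x x'
    rw [h]
  | succ j =>
    refine ⟨fun x x' h => ?_, fun x => ?_⟩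
    · refine Finset.sum_congr rfl fun y _ => ?_
      have h1 : g x y = g x' y := (hg y).1 x x' h
      rw [h1]
    · rw [← Finset.sum_neg_distrib]
      refine Finset.sum_congr rfl fun y _ => ?_
      have h : g (fl j x) y = -g x y := (hg y).2 x
      rw [h, mul_neg]

theorem Key2_meas1 {L : ℕ} (g : Dy L → ℂ) : Measurable fun t => ‖FT1 (stp g) t‖ₑ ^ 2 :=
  (continuous_FT1_stp g).measurable.enorm.pow_const _

theorem Key2_measwt (n : ℕ) : Measurable fun t : ℝ => ENNReal.ofReal (wt (t / 2 ^ n) ^ 2) :=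
  ENNReal.measurable_ofReal.comp ((measurable_wt.comp (measurable_id.div_const _)).pow_const _)

theorem Key2_meas {K L : ℕ} (G : Dy K → Dy L → ℂ) : Measurable (FT (stp2 G)) := by
  unfold FT
  have h1 : StronglyMeasurable (Function.uncurry fun (ξ y : ℝ × ℝ) =>
      Complex.exp (-(2 * (Real.pi : ℂ) * Complex.I * (((y.1 * ξ.1 + y.2 * ξ.2 : ℝ)) : ℂ))) *
        stp2 G y) := by
    refine StronglyMeasurable.mul ?_ ?_
    · refine Continuous.stronglyMeasurable ?_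
      fun_prop
    · exact ((measurable_stp2 G).comp measurable_snd).stronglyMeasurable
  exact (StronglyMeasurable.integral_prod_right h1).measurable

theorem key2 : ∃ C : ℝ, 0 ≤ C ∧ ∀ (K L j l : ℕ) (_ : j ≤ K) (_ : l ≤ L) (g : Dy K → Dy L → ℂ)
    (_ : ∀ y, HaarAt j fun x => g x y) (_ : ∀ x, HaarAt l fun y => g x y),
    ∫⁻ ξ : ℝ × ℝ, ENNReal.ofReal (wt (ξ.1 / 2 ^ j) ^ 2 * wt (ξ.2 / 2 ^ l) ^ 2) *
        ‖FT (stp2 g) ξ‖ₑ ^ 2 ≤
      ENNReal.ofReal (C * nsq g) := by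
  obtain ⟨C, hC, h⟩ := key1
  refine ⟨C * C, by positivity, fun K L j l hj hl g hgx hgy => ?_⟩
  have hmeas : Measurable fun ξ : ℝ × ℝ =>
      ENNReal.ofReal (wt (ξ.1 / 2 ^ j) ^ 2 * wt (ξ.2 / 2 ^ l) ^ 2) * ‖FT (stp2 g) ξ‖ₑ ^ 2 := by
    refine Measurable.mul ?_ ((Key2_meas g).enorm.pow_const _)
    refine ENNReal.measurable_ofReal.comp (Measurable.mul ?_ ?_)
    · exact (measurable_wt.comp (measurable_fst.div_const _)).pow_const _
    · exact (measurable_wt.comp (measurable_snd.div_const _)).pow_const _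
  rw [Measure.volume_eq_prod, lintegral_prod_symm _ hmeas.aemeasurable]
  have h1 : ∀ t : ℝ, ∫⁻ s : ℝ, ENNReal.ofReal (wt (s / 2 ^ j) ^ 2 * wt (t / 2 ^ l) ^ 2) *
      ‖FT (stp2 g) (s, t)‖ₑ ^ 2 ≤
      ENNReal.ofReal C * ((2 ^ K)⁻¹ * ∑ w, ENNReal.ofReal (wt (t / 2 ^ l) ^ 2) *
        ‖FT1 (stp (g w)) t‖ₑ ^ 2) := by
    intro t
    have h2 : ∀ s : ℝ, ENNReal.ofReal (wt (s / 2 ^ j) ^ 2 * wt (t / 2 ^ l) ^ 2) *
        ‖FT (stp2 g) (s, t)‖ₑ ^ 2 = ENNReal.ofReal (wt (t / 2 ^ l) ^ 2) *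
        (ENNReal.ofReal (wt (s / 2 ^ j) ^ 2) *
          ‖FT1 (stp fun x => FT1 (stp (g x)) t) s‖ₑ ^ 2) := by
      intro s
      rw [FT_stp2, ENNReal.ofReal_mul (by positivity)]
      ring
    simp only [h2]
    rw [lintegral_const_mul' _ _ (by finiteness)]
    calc ENNReal.ofReal (wt (t / 2 ^ l) ^ 2) * ∫⁻ s : ℝ, (ENNReal.ofReal (wt (s / 2 ^ j) ^ 2) *
          ‖FT1 (stp fun x => FT1 (stp (g x)) t) s‖ₑ ^ 2)
        ≤ ENNReal.ofReal (wt (t / 2 ^ l) ^ 2) *
          (ENNReal.ofReal C * ((∑ w, ‖FT1 (stp (g w)) t‖ₑ ^ 2) / 2 ^ K)) := by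
          gcongr
          exact h K j hj _ (Key2_haar hgx t)
      _ = _ := by
          rw [← Finset.mul_sum, ENNReal.div_eq_inv_mul]
          ring
  calc ∫⁻ t : ℝ, ∫⁻ s : ℝ, ENNReal.ofReal (wt (s / 2 ^ j) ^ 2 * wt (t / 2 ^ l) ^ 2) *
      ‖FT (stp2 g) (s, t)‖ₑ ^ 2
      ≤ ∫⁻ t : ℝ, ENNReal.ofReal C * ((2 ^ K)⁻¹ * ∑ w, ENNReal.ofReal (wt (t / 2 ^ l) ^ 2) *
        ‖FT1 (stp (g w)) t‖ₑ ^ 2) := lintegral_mono h1
    _ = ENNReal.ofReal C * ((2 ^ K)⁻¹ * ∑ w, ∫⁻ t : ℝ, ENNReal.ofReal (wt (t / 2 ^ l) ^ 2) *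
        ‖FT1 (stp (g w)) t‖ₑ ^ 2) := by
        rw [lintegral_const_mul' _ _ (by finiteness),
          lintegral_const_mul' _ _ (by
            simp),
          lintegral_finsetSum]
        intro w _
        exact (Key2_measwt l).mul (Key2_meas1 (g w))
    _ ≤ ENNReal.ofReal C * ((2 ^ K)⁻¹ * ∑ w, ENNReal.ofReal C * ((∑ y, ‖g w y‖ₑ ^ 2) / 2 ^ L)) := by
        gcongr with w _
        exact h L l hl (g w) (hgy w)
    _ = ENNReal.ofReal (C * C * nsq g) := by
        rw [ENNReal.ofReal_mul (by positivity), ENNReal.ofReal_mul hC, Key2_nsq,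
          ← Finset.mul_sum, div_eq_mul_inv]
        ring

end Pool.Agent.helper75.HT
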