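import Pool.Agent.helper75.HT.Defs

/-!
# SchNice : Schwartz functions are `Nice`

Transfer `f` to `E = EuclideanSpace ℝ (Fin 2)` (`SchwartzMap.compCLMOfContinuousLinearEquiv`); there `𝓕 f` is a Schwartz
function, so it is continuous, integrable and in `L²`; `FT f` is `𝓕` of the transferred function composed with
the linear equivalence.
-/

set_option autoImplicit false

namespace Pool.Agent.helper75.HT

open MeasureTheory FourierTransform

/-- the Euclidean plane -/
abbrev SchNice_E : Type := WithLp 2 (ℝ × ℝ)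

/-- the equivalence with the product -/
noncomputable def SchNice_e : SchNice_E ≃L[ℝ] ℝ × ℝ := WithLp.prodContinuousLinearEquiv 2 ℝ ℝ ℝ

/-- the Fourier transform as a Schwartz function on the product -/
noncomputable def SchNice_F (f : SchwartzMap (ℝ × ℝ) ℂ) : SchwartzMap (ℝ × ℝ) ℂ :=
  SchwartzMap.compCLMOfContinuousLinearEquiv ℂ SchNice_e.symm
    (𝓕 (SchwartzMap.compCLMOfContinuousLinearEquiv ℂ SchNice_e f))

theorem SchNice_FT (f : SchwartzMap (ℝ × ℝ) ℂ) : FT f = SchNice_F f := by
  funext ξ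
  have h1 : SchNice_F f ξ = 𝓕 (fun v : SchNice_E => f (SchNice_e v)) (SchNice_e.symm ξ) := rfl
  rw [h1, Real.fourier_eq', FT, ← (WithLp.volume_preserving_ofLp ℝ ℝ).integral_comp'
    (f := (MeasurableEquiv.toLp 2 (ℝ × ℝ)).symm)]
  refine integral_congr_ae (Filter.Eventually.of_forall fun v => ?_)
  have h2 : inner ℝ v (SchNice_e.symm ξ) = v.fst * ξ.1 + v.snd * ξ.2 := by
    rw [WithLp.prod_inner_apply]
    show ξ.1 * v.fst + ξ.2 * v.snd = _
    ring
  show Complex.exp (-(2 * (Real.pi : ℂ) * Complex.I * (((v.fst * ξ.1 + v.snd * ξ.2 : ℝ)) : ℂ))) *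
    f (SchNice_e v) = Complex.exp (((-2 * Real.pi * inner ℝ v (SchNice_e.symm ξ) : ℝ) : ℂ) *
      Complex.I) • f (SchNice_e v)
  rw [h2, smul_eq_mul]
  congr 2
  push_cast
  ring

theorem nice_schwartz (f : SchwartzMap (ℝ × ℝ) ℂ) : Nice f where
  cont := f.continuous
  int := f.integrable
  sq := f.memLp 2
  contF := by
    rw [SchNice_FT]
    exact (SchNice_F f).continuous
  intF := by
    rw [SchNice_FT]
    exact (SchNice_F f).integrable
  sqF := by
    rw [SchNice_FT]
    exact (SchNice_F f).memLp 2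

end Pool.Agent.helper75.HT
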