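import Pool.Agent.helper75.HT.Assemble
import Pool.Agent.helper75.HT.Approx
import Pool.Agent.helper75.HT.Covar
import Pool.Agent.helper75.HT.SchNice

/-!
# Main : the theorem for the plane

`f` Schwartz, `N = |Λ| ≥ 1` (for `Λ = ∅` the left side is `0`).  For `ε > 0` take `s, K, G` from `approx`; `max_sc`, `assemble` for
`sc s f` (`nice_sc`, `nice_schwartz`) and `Λ - s` (same cardinality), `lintegral_sc_sq`; let `ε → 0`
(`ENNReal.le_of_forall_pos_le_add` or similar).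
-/

set_option autoImplicit false

namespace Pool.Agent.helper75.HT

open Finset MeasureTheory

theorem main (η0 : SchwartzMap ℝ ℂ) : ∃ C : ℝ, 0 ≤ C ∧ ∀ (Λ : Finset ℤ)
    (f : SchwartzMap (ℝ × ℝ) ℂ),
    ∫⁻ x : ℝ × ℝ, (⨆ k ∈ Λ, ‖Tk η0 k f x‖ₑ) ^ 2 ≤
      ENNReal.ofReal (C * AN Λ.card) * ∫⁻ x : ℝ × ℝ, ‖f x‖ₑ ^ 2 := by
  obtain ⟨C, hC0, hC⟩ := assemble η0
  refine ⟨C, hC0, fun Λ f => ?_⟩
  have hf : Nice f := nice_schwartz f
  rcases Λ.eq_empty_or_nonempty with hΛ | hΛ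
  · subst hΛ
    have h0 : ∀ x : ℝ × ℝ, (⨆ k ∈ (∅ : Finset ℤ), ‖Tk η0 k f x‖ₑ) ^ 2 = 0 := by
      intro x
      simp
    simp only [h0, lintegral_zero]
    exact zero_le
  obtain ⟨B, hB0, hB⟩ := hC Λ.card hΛ.card_pos
  refine ENNReal.le_of_forall_pos_le_add fun ε hε _ => ?_
  have hε' : (0 : ENNReal) < ENNReal.ofReal ((ε : ℝ) / (B + 1)) := by
    rw [ENNReal.ofReal_pos]
    have : (0 : ℝ) < ε := by exact_mod_cast hε
    positivity
  obtain ⟨s, K, G, hG⟩ := approx hf.cont hf.sq hε'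
  have hcard : (Λ.image (fun k => k - (s : ℤ))).card = Λ.card :=
    card_image_of_injective _ (sub_left_injective)
  rw [max_sc η0 Λ s hf]
  refine (hB _ hcard (sc s f) (nice_sc s hf) K K G).trans ?_
  rw [lintegral_sc_sq s hf.cont]
  refine add_le_add le_rfl ((mul_le_mul_right hG _).trans ?_)
  rw [← ENNReal.ofReal_mul hB0]
  have h1 : B * ((ε : ℝ) / (B + 1)) ≤ ε := by
    have h2 : (0 : ℝ) ≤ ε := ε.2
    rw [mul_div_assoc', div_le_iff₀ (by positivity)]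
    nlinarith
  refine (ENNReal.ofReal_le_ofReal h1).trans (le_of_eq ?_)
  exact ENNReal.ofReal_coe_nnreal

end Pool.Agent.helper75.HT
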