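import Pool.Agent.helper75.HT.Defs

/-!
# Planch : Plancherel for functions in `L¹ ∩ L²` of the plane

`planch2`: let `E = EuclideanSpace ℝ (Fin 2)`, transfer `u`, `g` from `ℝ × ℝ` to `E` (measure preserving linear equivalence,
e.g. `EuclideanSpace.volume_preserving_...` composed with `MeasureTheory.volume_preserving_finTwoArrow`).
1. For `h ∈ L¹ ∩ L²(E)`: `𝓕 (toLp h) = toLp-class of the integral 𝓕 h` a.e.: for every Schwartz (compactly supported smooth) `φ`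
`∫ (𝓕_{L²} h) φ = ∫ h 𝓕φ` (`MeasureTheory.Lp.fourier_toTemperedDistribution_eq`, or `inner_fourier_eq` with a Schwartz function)
`= ∫ (𝓕 h) φ` (`VectorFourier.integral_fourierIntegral_smul_eq_flip`); both are locally integrable, so they
agree a.e. (`ae_eq_of_integral_contDiff_smul_eq`).  The same for the inverse transform (`𝓕⁻ h = 𝓕 h ∘ (-·)`).
2. `‖𝓕⁻u - g‖_{L²} = ‖u - 𝓕g‖_{L²}` by the isometry `MeasureTheory.Lp.fourierTransformₗᵢ`.
-/

set_option autoImplicit false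

namespace Pool.Agent.helper75.HT

open MeasureTheory

section gen

open FourierTransform SchwartzMap RealInnerProductSpace

variable {E : Type*} [NormedAddCommGroup E] [InnerProductSpace ℝ E] [FiniteDimensional ℝ E]
  [MeasurableSpace E] [BorelSpace E]

private theorem Planch_flip {φ h : E → ℂ} (hφ : Integrable φ) (hh : Integrable h) :
    ∫ ξ, 𝓕 φ ξ • h ξ = ∫ x, φ x • 𝓕 h x := by
  have h1 := VectorFourier.integral_fourierIntegral_smul_eq_flip (L := innerₗ E)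
    Real.continuous_fourierChar continuous_inner hφ hh
  have h2 : (innerₗ E).flip = innerₗ E := by
    ext x y
    exact real_inner_comm x y
  rw [h2] at h1
  exact h1

private theorem Planch_flip_inv {φ h : E → ℂ} (hφ : Integrable φ) (hh : Integrable h) :
    ∫ ξ, 𝓕⁻ φ ξ • h ξ = ∫ x, φ x • 𝓕⁻ h x := by
  have h1 := VectorFourier.integral_fourierIntegral_smul_eq_flip (L := -innerₗ E)
    Real.continuous_fourierChar
    (show Continuous fun p : E × E => -(inner ℝ p.1 p.2 : ℝ) from continuous_inner.neg) hφ hh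
  have h2 : (-innerₗ E).flip = -innerₗ E := by
    ext x y
    simp [real_inner_comm]
  rw [h2] at h1
  exact h1

private theorem Planch_cont {h : E → ℂ} (h1 : Integrable h) : Continuous (𝓕 h) :=
  VectorFourier.fourierIntegral_continuous Real.continuous_fourierChar continuous_inner h1

private theorem Planch_cont_inv {h : E → ℂ} (h1 : Integrable h) : Continuous (𝓕⁻ h) := by
  have e : 𝓕⁻ h = fun w => 𝓕 h (-w) := by
    ext w
    exact Real.fourierInv_eq_fourier_neg h w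
  rw [e]
  exact (Planch_cont h1).comp continuous_neg

private theorem Planch_fourier_toLp {h : E → ℂ} (h1 : Integrable h) (h2 : MemLp h 2) :
    ((𝓕 (h2.toLp h) : Lp ℂ 2 (volume : Measure E)) : E → ℂ) =ᵐ[volume] 𝓕 h := by
  refine ae_eq_of_integral_contDiff_smul_eq ((Lp.memLp _).locallyIntegrable (by norm_num))
    (Planch_cont h1).locallyIntegrable ?_
  intro φ hφ hφc
  have hc1 : HasCompactSupport (fun x => (φ x : ℂ)) := hφc.comp_left Complex.ofReal_zero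
  have hc2 : ContDiff ℝ ((⊤ : ℕ∞) : WithTop ℕ∞) (fun x => (φ x : ℂ)) :=
    Complex.ofRealCLM.contDiff.comp hφ
  have hφ1 : Integrable (fun x => (φ x : ℂ)) :=
    hc2.continuous.integrable_of_hasCompactSupport hc1
  have e1 := congrArg (fun T => T (hc1.toSchwartzMap hc2))
    (Lp.fourier_toTemperedDistribution_eq (h2.toLp h))
  simp only [TemperedDistribution.fourier_apply, Lp.toTemperedDistribution_apply] at e1
  have e2 : ∫ x, (𝓕 (hc1.toSchwartzMap hc2) : 𝓢(E, ℂ)) x • (h2.toLp h : E → ℂ) x =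
      ∫ x, 𝓕 (fun x => (φ x : ℂ)) x • h x := by
    refine integral_congr_ae ?_
    filter_upwards [h2.coeFn_toLp] with x hx
    rw [hx]
    rfl
  rw [e2, Planch_flip hφ1 h1] at e1
  have e3 : ∀ (g : E → ℂ), ∫ x, φ x • g x = ∫ x, (φ x : ℂ) • g x := by
    intro g
    refine integral_congr_ae (Filter.Eventually.of_forall fun x => ?_)
    simp
  rw [e3, e3]
  exact e1.symm

private theorem Planch_fourierInv_toLp {h : E → ℂ} (h1 : Integrable h) (h2 : MemLp h 2) :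
    ((𝓕⁻ (h2.toLp h) : Lp ℂ 2 (volume : Measure E)) : E → ℂ) =ᵐ[volume] 𝓕⁻ h := by
  refine ae_eq_of_integral_contDiff_smul_eq ((Lp.memLp _).locallyIntegrable (by norm_num))
    (Planch_cont_inv h1).locallyIntegrable ?_
  intro φ hφ hφc
  have hc1 : HasCompactSupport (fun x => (φ x : ℂ)) := hφc.comp_left Complex.ofReal_zero
  have hc2 : ContDiff ℝ ((⊤ : ℕ∞) : WithTop ℕ∞) (fun x => (φ x : ℂ)) :=
    Complex.ofRealCLM.contDiff.comp hφ
  have hφ1 : Integrable (fun x => (φ x : ℂ)) :=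
    hc2.continuous.integrable_of_hasCompactSupport hc1
  have e1 := congrArg (fun T => T (hc1.toSchwartzMap hc2))
    (Lp.fourierInv_toTemperedDistribution_eq (h2.toLp h))
  simp only [TemperedDistribution.fourierInv_apply, Lp.toTemperedDistribution_apply] at e1
  have e2 : ∫ x, (𝓕⁻ (hc1.toSchwartzMap hc2) : 𝓢(E, ℂ)) x • (h2.toLp h : E → ℂ) x =
      ∫ x, 𝓕⁻ (fun x => (φ x : ℂ)) x • h x := by
    refine integral_congr_ae ?_
    filter_upwards [h2.coeFn_toLp] with x hx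
    rw [hx, SchwartzMap.fourierInv_coe]
    rfl
  rw [e2, Planch_flip_inv hφ1 h1] at e1
  have e3 : ∀ (g : E → ℂ), ∫ x, φ x • g x = ∫ x, (φ x : ℂ) • g x := by
    intro g
    refine integral_congr_ae (Filter.Eventually.of_forall fun x => ?_)
    simp
  rw [e3, e3]
  exact e1.symm

private theorem Planch_gen {u g : E → ℂ} (hu1 : Integrable u) (hu2 : MemLp u 2)
    (hg1 : Integrable g) (hg2 : MemLp g 2) :
    ∫⁻ x, ‖𝓕⁻ u x - g x‖ₑ ^ 2 = ∫⁻ ξ, ‖u ξ - 𝓕 g ξ‖ₑ ^ 2 := by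
  have key : ∀ F : Lp ℂ 2 (volume : Measure E),
      ∫⁻ x, ‖(F : E → ℂ) x‖ₑ ^ 2 = (‖F‖ₑ) ^ 2 := by
    intro F
    rw [Lp.enorm_def]
    have h := eLpNorm_nnreal_pow_eq_lintegral (μ := (volume : Measure E)) (f := (F : E → ℂ))
      (p := 2) (by norm_num)
    simp only [NNReal.coe_ofNat, ENNReal.rpow_ofNat, ENNReal.coe_ofNat] at h
    exact h.symm
  have h1 : ∫⁻ x, ‖𝓕⁻ u x - g x‖ₑ ^ 2 = ‖𝓕⁻ (hu2.toLp u) - hg2.toLp g‖ₑ ^ 2 := by
    rw [← key]
    refine lintegral_congr_ae ?_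
    filter_upwards [Lp.coeFn_sub (𝓕⁻ (hu2.toLp u)) (hg2.toLp g), hg2.coeFn_toLp,
      Planch_fourierInv_toLp hu1 hu2] with x h1 h2 h3
    rw [h1, Pi.sub_apply, h2, h3]
  have h2 : ∫⁻ ξ, ‖u ξ - 𝓕 g ξ‖ₑ ^ 2 = ‖hu2.toLp u - 𝓕 (hg2.toLp g)‖ₑ ^ 2 := by
    rw [← key]
    refine lintegral_congr_ae ?_
    filter_upwards [Lp.coeFn_sub (hu2.toLp u) (𝓕 (hg2.toLp g)), hu2.coeFn_toLp,
      Planch_fourier_toLp hg1 hg2] with x h1 h2 h3
    rw [h1, Pi.sub_apply, h2, h3]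
  have h3 : ‖𝓕⁻ (hu2.toLp u) - hg2.toLp g‖ = ‖hu2.toLp u - 𝓕 (hg2.toLp g)‖ := by
    have e1 : 𝓕 (𝓕⁻ (hu2.toLp u) - hg2.toLp g) = 𝓕 (𝓕⁻ (hu2.toLp u)) - 𝓕 (hg2.toLp g) :=
      map_sub (Lp.fourierTransformₗᵢ E ℂ) _ _
    rw [← Lp.norm_fourier_eq (𝓕⁻ (hu2.toLp u) - hg2.toLp g), e1,
      FourierTransform.fourier_fourierInv_eq]
  rw [h1, h2]
  congr 1
  rw [← ofReal_norm, ← ofReal_norm, h3]

end gen

section plane

open WithLp FourierTransform RealInnerProductSpace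

private theorem Planch_FT (g : ℝ × ℝ → ℂ) (ξ : WithLp 2 (ℝ × ℝ)) :
    𝓕 (fun x : WithLp 2 (ℝ × ℝ) => g (ofLp x)) ξ = FT g (ofLp ξ) := by
  have hmp := WithLp.volume_preserving_ofLp ℝ ℝ
  have hme : MeasurableEmbedding (@ofLp 2 (ℝ × ℝ)) :=
    (MeasurableEquiv.toLp 2 (ℝ × ℝ)).symm.measurableEmbedding
  rw [Real.fourier_eq', FT, ← hmp.integral_comp hme]
  refine integral_congr_ae (Filter.Eventually.of_forall fun x => ?_)
  simp only [smul_eq_mul]
  congr 2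
  rw [WithLp.prod_inner_apply]
  push_cast
  simp
  ring

private theorem Planch_IFT (g : ℝ × ℝ → ℂ) (ξ : WithLp 2 (ℝ × ℝ)) :
    𝓕⁻ (fun x : WithLp 2 (ℝ × ℝ) => g (ofLp x)) ξ = IFT g (ofLp ξ) := by
  have hmp := WithLp.volume_preserving_ofLp ℝ ℝ
  have hme : MeasurableEmbedding (@ofLp 2 (ℝ × ℝ)) :=
    (MeasurableEquiv.toLp 2 (ℝ × ℝ)).symm.measurableEmbedding
  rw [Real.fourierInv_eq', IFT, ← hmp.integral_comp hme]
  refine integral_congr_ae (Filter.Eventually.of_forall fun x => ?_)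
  simp only [smul_eq_mul]
  congr 2
  rw [WithLp.prod_inner_apply]
  push_cast
  simp
  ring

theorem planch2 {u g : ℝ × ℝ → ℂ} (hu1 : Integrable u) (hu2 : MemLp u 2) (hg1 : Integrable g)
    (hg2 : MemLp g 2) :
    ∫⁻ x, ‖IFT u x - g x‖ₑ ^ 2 = ∫⁻ ξ, ‖u ξ - FT g ξ‖ₑ ^ 2 := by
  have hmp := WithLp.volume_preserving_ofLp ℝ ℝ
  have hme : MeasurableEmbedding (@ofLp 2 (ℝ × ℝ)) :=
    (MeasurableEquiv.toLp 2 (ℝ × ℝ)).symm.measurableEmbedding
  have h := Planch_gen (E := WithLp 2 (ℝ × ℝ)) (u := fun x => u (ofLp x))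
    (g := fun x => g (ofLp x)) (hmp.integrable_comp_of_integrable hu1)
    (hu2.comp_measurePreserving hmp) (hmp.integrable_comp_of_integrable hg1)
    (hg2.comp_measurePreserving hmp)
  simp only [Planch_FT, Planch_IFT] at h
  rw [← hmp.lintegral_comp_emb hme, ← hmp.lintegral_comp_emb hme]
  exact h

theorem planch {g : ℝ × ℝ → ℂ} (hg1 : Integrable g) (hg2 : MemLp g 2) :
    ∫⁻ ξ, ‖FT g ξ‖ₑ ^ 2 = ∫⁻ x, ‖g x‖ₑ ^ 2 := by
  have h := planch2 (u := fun _ => 0) (integrable_zero _ _ _) MemLp.zero' hg1 hg2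
  have e1 : ∀ x, IFT (fun _ => 0) x = 0 := by
    intro x
    simp [IFT]
  simp only [e1, zero_sub, enorm_neg] at h
  exact h.symm

end plane

end Pool.Agent.helper75.HT
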