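import Pool.Agent.helper75.HT.Weights
import Pool.Agent.helper75.HT.HaarFT

/-!
# Poly : weighted square integrals of trigonometric polynomials

`tp M c t = ∑_{m<M} c_m e^{-2πimt}`; on every interval `[n, n+1)` the square integral is `∑ |c_m|²` (orthogonality of the
exponentials).  `weighted`: on `[n, n+1)` the factor `wt(t)² |FT1 hh t|²` is at most `4|t|^{-1/2} 16 t² ≤ 64` for `n = 0, -1`
(at `t = 0` it is `0`), at most `4|t|^{1/2}/t² ≤ 4 n^{-3/2}` for `n ≥ 1` and `≤ 4|n+1|^{-3/2}` for `n ≤ -2`; the sum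
over `n` converges.
-/

set_option autoImplicit false

namespace Pool.Agent.helper75.HT

open Finset MeasureTheory

/-- trigonometric polynomial -/
noncomputable def tp (M : ℕ) (c : ℕ → ℂ) (t : ℝ) : ℂ :=
  ∑ m ∈ range M, c m * Complex.exp (-(2 * (Real.pi : ℂ) * Complex.I * ((m * t : ℝ) : ℂ)))

/-- the exponentials -/
noncomputable def Poly_e (k : ℤ) (t : ℝ) : ℂ :=
  Complex.exp (-(2 * (Real.pi : ℂ) * Complex.I * (k : ℂ)) * (t : ℂ))

theorem Poly_e_cont (k : ℤ) : Continuous (Poly_e k) := by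
  unfold Poly_e
  fun_prop

theorem Poly_e_int (k : ℤ) (n : ℤ) :
    ∫ t in (n : ℝ)..((n : ℝ) + 1), Poly_e k t = if k = 0 then 1 else 0 := by
  unfold Poly_e
  split_ifs with hk
  · subst hk
    simp
  · have hc : -(2 * (Real.pi : ℂ) * Complex.I * (k : ℂ)) ≠ 0 := by
      have h1 : (Real.pi : ℂ) ≠ 0 := Complex.ofReal_ne_zero.2 Real.pi_ne_zero
      have h2 : (k : ℂ) ≠ 0 := Int.cast_ne_zero.2 hk
      simp [h1, h2]
    rw [integral_exp_mul_complex hc]
    have h1 : Complex.exp (-(2 * (Real.pi : ℂ) * Complex.I * (k : ℂ)) * (((n : ℝ) + 1 : ℝ) : ℂ)) =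
        Complex.exp (-(2 * (Real.pi : ℂ) * Complex.I * (k : ℂ)) * ((n : ℝ) : ℂ)) := by
      have h2 : -(2 * (Real.pi : ℂ) * Complex.I * (k : ℂ)) * (((n : ℝ) + 1 : ℝ) : ℂ) =
          -(2 * (Real.pi : ℂ) * Complex.I * (k : ℂ)) * ((n : ℝ) : ℂ) +
            ((-k : ℤ) : ℂ) * (2 * Real.pi * Complex.I) := by
        push_cast
        ring
      rw [h2, Complex.exp_add, Complex.exp_int_mul_two_pi_mul_I, mul_one]
    rw [h1, sub_self, zero_div]

theorem Poly_tp (M : ℕ) (c : ℕ → ℂ) (t : ℝ) :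
    tp M c t = ∑ m ∈ range M, c m * Poly_e m t := by
  unfold tp Poly_e
  refine Finset.sum_congr rfl fun m _ => ?_
  congr 2
  push_cast
  ring

theorem Poly_e_conj (k : ℤ) (t : ℝ) : (starRingEnd ℂ) (Poly_e k t) = Poly_e (-k) t := by
  unfold Poly_e
  rw [← Complex.exp_conj]
  congr 1
  simp only [map_mul, map_neg, Complex.conj_ofReal, Complex.conj_I, map_ofNat, map_intCast]
  push_cast
  ring

theorem Poly_e_add (a b : ℤ) (t : ℝ) : Poly_e a t * Poly_e b t = Poly_e (a + b) t := by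
  unfold Poly_e
  rw [← Complex.exp_add]
  congr 1
  push_cast
  ring

theorem Poly_cont (M : ℕ) (c : ℕ → ℂ) : Continuous (tp M c) := by
  unfold tp
  fun_prop

theorem Poly_sq (M : ℕ) (c : ℕ → ℂ) (n : ℤ) :
    ∫ t in (n : ℝ)..((n : ℝ) + 1), ‖tp M c t‖ ^ 2 = ∑ m ∈ range M, ‖c m‖ ^ 2 := by
  have h1 : ∀ t : ℝ, ((‖tp M c t‖ ^ 2 : ℝ) : ℂ) =
      ∑ m ∈ range M, ∑ l ∈ range M, c m * (starRingEnd ℂ) (c l) * Poly_e ((m : ℤ) - l) t := by
    intro t
    have h2 : ((‖tp M c t‖ ^ 2 : ℝ) : ℂ) = tp M c t * (starRingEnd ℂ) (tp M c t) := by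
      rw [Complex.mul_conj, Complex.normSq_eq_norm_sq]
    rw [h2, Poly_tp, map_sum, Finset.sum_mul_sum]
    refine Finset.sum_congr rfl fun m _ => Finset.sum_congr rfl fun l _ => ?_
    rw [map_mul, Poly_e_conj, sub_eq_add_neg, ← Poly_e_add]
    ring
  have h3 : ((∫ t in (n : ℝ)..((n : ℝ) + 1), ‖tp M c t‖ ^ 2 : ℝ) : ℂ) =
      ((∑ m ∈ range M, ‖c m‖ ^ 2 : ℝ) : ℂ) := by
    rw [← intervalIntegral.integral_ofReal]
    simp only [h1]
    rw [intervalIntegral.integral_finset_sum]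
    · push_cast
      refine Finset.sum_congr rfl fun m hm => ?_
      rw [intervalIntegral.integral_finset_sum]
      · rw [Finset.sum_eq_single m]
        · rw [intervalIntegral.integral_const_mul, sub_self, Poly_e_int, if_pos rfl, mul_one,
            Complex.mul_conj, Complex.normSq_eq_norm_sq]
          push_cast
          rfl
        · intro l _ hl
          rw [intervalIntegral.integral_const_mul, Poly_e_int, if_neg, mul_zero]
          intro h
          apply hl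
          omega
        · intro h
          exact absurd hm h
      · intro l _
        exact (continuous_const.mul (Poly_e_cont _)).intervalIntegrable _ _
    · intro m _
      refine Continuous.intervalIntegrable ?_ _ _
      exact continuous_finset_sum _ fun l _ => continuous_const.mul (Poly_e_cont _)
  exact_mod_cast h3

theorem lintegral_tp (M : ℕ) (c : ℕ → ℂ) (n : ℤ) :
    ∫⁻ t in Set.Ico (n : ℝ) (n + 1), ‖tp M c t‖ₑ ^ 2 = ∑ m ∈ range M, ‖c m‖ₑ ^ 2 := by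
  have hle : (n : ℝ) ≤ n + 1 := by linarith
  have hc : Continuous fun t => ‖tp M c t‖ ^ 2 := (Poly_cont M c).norm.pow 2
  have h1 : ∫⁻ t in Set.Ico (n : ℝ) (n + 1), ‖tp M c t‖ₑ ^ 2 =
      ENNReal.ofReal (∫ t in Set.Ico (n : ℝ) (n + 1), ‖tp M c t‖ ^ 2) := by
    rw [ofReal_integral_eq_lintegral_ofReal]
    · refine lintegral_congr fun t => ?_
      rw [ENNReal.ofReal_pow (norm_nonneg _), ofReal_norm_eq_enorm]
    · exact (hc.integrableOn_Icc (a := (n : ℝ)) (b := n + 1)).mono_set Set.Ico_subset_Icc_self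
    · exact Filter.Eventually.of_forall fun t => by positivity
  rw [h1, integral_Ico_eq_integral_Ioc, ← intervalIntegral.integral_of_le hle, Poly_sq,
    ENNReal.ofReal_sum_of_nonneg fun m _ => by positivity]
  refine Finset.sum_congr rfl fun m _ => ?_
  rw [ENNReal.ofReal_pow (norm_nonneg _), ofReal_norm_eq_enorm]

/-- decomposition into unit intervals -/
theorem Poly_split {f g : ℝ → ENNReal} {S : ENNReal} {K : ℝ} (hK : 0 ≤ K)
    (hf : ∀ t : ℝ, 1 ≤ |t| → f t ≤ ENNReal.ofReal (4 * |t| ^ (-(3 / 2) : ℝ)))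
    (hg : ∀ n : ℤ, ∫⁻ t in Set.Ico (n : ℝ) (n + 1), g t = S)
    (h0 : ∫⁻ t in Set.Ico (0 : ℝ) 1, f t * g t ≤ ENNReal.ofReal K * S)
    (h1 : ∫⁻ t in Set.Ico (-1 : ℝ) 0, f t * g t ≤ ENNReal.ofReal K * S) :
    ∫⁻ t, f t * g t ≤
      ENNReal.ofReal (2 * ∑' n : ℕ, if n = 0 then K else 4 * (n : ℝ) ^ (-(3 / 2) : ℝ)) * S := by
  set b : ℕ → ℝ := fun n => if n = 0 then K else 4 * (n : ℝ) ^ (-(3 / 2) : ℝ) with hb
  have hb0 : ∀ n, 0 ≤ b n := by
    intro n
    simp only [hb]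
    split_ifs
    · exact hK
    · positivity
  have hbs : Summable b := by
    have h2 : Summable fun n : ℕ => 4 * (n : ℝ) ^ (-(3 / 2) : ℝ) :=
      (Real.summable_nat_rpow.2 (by norm_num)).mul_left 4
    refine (summable_congr_cofinite ?_).1 h2
    have h3 : ∀ᶠ n : ℕ in Filter.cofinite, n ∉ ({0} : Set ℕ) :=
      (Set.finite_singleton 0).compl_mem_cofinite
    filter_upwards [h3] with n hn
    have hn' : n ≠ 0 := hn
    simp only [hb, if_neg hn']
  have key : ∀ (n : ℕ), n ≠ 0 → ∀ s : Set ℝ, MeasurableSet s → (∀ t ∈ s, (n : ℝ) ≤ |t|) →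
      (∫⁻ t in s, g t = S) → ∫⁻ t in s, f t * g t ≤ ENNReal.ofReal (b n) * S := by
    intro n hn s hs hst hgs
    rw [← hgs, ← lintegral_const_mul' _ _ ENNReal.ofReal_ne_top]
    refine setLIntegral_mono' hs fun t ht => ?_
    have hn1 : (1 : ℝ) ≤ n := by
      have : 1 ≤ n := Nat.one_le_iff_ne_zero.2 hn
      exact_mod_cast this
    have ht' := hst t ht
    gcongr
    refine (hf t (hn1.trans ht')).trans ?_
    apply ENNReal.ofReal_le_ofReal
    simp only [hb, if_neg hn]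
    have := Real.rpow_le_rpow_of_nonpos (z := (-(3 / 2) : ℝ)) (by linarith : (0 : ℝ) < n) ht'
      (by norm_num)
    linarith
  have hpos : ∀ n : ℕ, ∫⁻ t in Set.Ico (n : ℝ) (n + 1), f t * g t ≤
      ENNReal.ofReal (b n) * S := by
    intro n
    rcases Nat.eq_zero_or_pos n with hn | hn
    · subst hn
      have h2 : b 0 = K := by simp [hb]
      rw [h2]
      simpa using h0
    · refine key n hn.ne' _ measurableSet_Ico (fun t ht => ht.1.trans (le_abs_self t)) ?_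
      have := hg n
      push_cast at this
      exact this
  have hneg : ∀ n : ℕ, ∫⁻ t in Set.Ico (-((n : ℝ) + 1)) (-(n : ℝ)), f t * g t ≤
      ENNReal.ofReal (b n) * S := by
    intro n
    rcases Nat.eq_zero_or_pos n with hn | hn
    · subst hn
      have h2 : b 0 = K := by simp [hb]
      rw [h2]
      simpa using h1
    · refine key n hn.ne' _ measurableSet_Ico (fun t ht => ?_) ?_
      · have := neg_le_abs t
        linarith [ht.2]
      · have := hg (-((n : ℤ) + 1))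
        push_cast at this
        have h3 : -((n : ℝ) + 1) + 1 = -(n : ℝ) := by ring
        rwa [h3] at this
  have hU : (⋃ n : ℤ, Set.Ico (n : ℝ) (n + 1)) = Set.univ := iUnion_Ico_intCast ℝ
  have hsum : ∑' n : ℕ, ENNReal.ofReal (b n) = ENNReal.ofReal (∑' n, b n) :=
    (ENNReal.ofReal_tsum_of_nonneg hb0 hbs).symm
  calc ∫⁻ t, f t * g t = ∫⁻ t in ⋃ n : ℤ, Set.Ico (n : ℝ) (n + 1), f t * g t := by
        rw [hU, Measure.restrict_univ]
    _ ≤ ∑' n : ℤ, ∫⁻ t in Set.Ico (n : ℝ) (n + 1), f t * g t := lintegral_iUnion_le _ _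
    _ = (∑' n : ℕ, ∫⁻ t in Set.Ico (((n : ℤ) : ℝ)) (((n : ℤ) : ℝ) + 1), f t * g t) +
        ∑' n : ℕ, ∫⁻ t in Set.Ico (((-((n : ℤ) + 1) : ℤ) : ℝ)) (((-((n : ℤ) + 1) : ℤ) : ℝ) + 1),
          f t * g t :=
        tsum_of_nat_of_neg_add_one ENNReal.summable ENNReal.summable
    _ ≤ (∑' n : ℕ, ENNReal.ofReal (b n) * S) + ∑' n : ℕ, ENNReal.ofReal (b n) * S := by
        refine add_le_add (ENNReal.tsum_le_tsum fun n => ?_) (ENNReal.tsum_le_tsum fun n => ?_)
        · have := hpos n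
          push_cast
          exact this
        · have := hneg n
          push_cast
          have h3 : -((n : ℝ) + 1) + 1 = -(n : ℝ) := by ring
          rw [h3]
          exact this
    _ = ENNReal.ofReal (2 * ∑' n, b n) * S := by
        rw [ENNReal.tsum_mul_right, hsum, ← add_mul, ← ENNReal.ofReal_add, ← two_mul]
        · exact tsum_nonneg hb0
        · exact tsum_nonneg hb0

theorem Poly_wt0 : wt 0 = 0 := by
  unfold wt
  rw [abs_zero, Real.zero_rpow (by norm_num), Real.zero_rpow (by norm_num), add_zero]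

theorem Poly_large {t : ℝ} (ht : 1 ≤ |t|) {u : ℂ} (hu : ‖u‖ ≤ 1 / |t|) :
    ENNReal.ofReal (wt t ^ 2) * ‖u‖ₑ ^ 2 ≤ ENNReal.ofReal (4 * |t| ^ (-(3 / 2) : ℝ)) := by
  have h0 : 0 < |t| := by linarith
  have h1 : ‖u‖ₑ ^ 2 = ENNReal.ofReal (‖u‖ ^ 2) := by
    rw [ENNReal.ofReal_pow (norm_nonneg _), ofReal_norm_eq_enorm]
  rw [h1, ← ENNReal.ofReal_mul (by positivity)]
  apply ENNReal.ofReal_le_ofReal
  have h2 := wt_sq_le_large ht
  have h3 : ‖u‖ ^ 2 ≤ |t| ^ (-2 : ℝ) := by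
    rw [Real.rpow_neg h0.le, Real.rpow_two]
    calc ‖u‖ ^ 2 ≤ (1 / |t|) ^ 2 := by gcongr
      _ = (|t| ^ 2)⁻¹ := by rw [one_div, inv_pow]
  calc wt t ^ 2 * ‖u‖ ^ 2 ≤ (4 * |t| ^ (1 / 2 : ℝ)) * |t| ^ (-2 : ℝ) := by gcongr
    _ = 4 * (|t| ^ (1 / 2 : ℝ) * |t| ^ (-2 : ℝ)) := by ring
    _ = 4 * |t| ^ (-(3 / 2) : ℝ) := by
      rw [← Real.rpow_add h0]
      norm_num

theorem weighted_hh : ∃ C : ℝ, 0 ≤ C ∧ ∀ (M : ℕ) (c : ℕ → ℂ),
    ∫⁻ t, ENNReal.ofReal (wt t ^ 2) * ‖FT1 hh t * tp M c t‖ₑ ^ 2 ≤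
      ENNReal.ofReal C * ∑ m ∈ range M, ‖c m‖ₑ ^ 2 := by
  refine ⟨2 * ∑' n : ℕ, if n = 0 then (64 : ℝ) else 4 * (n : ℝ) ^ (-(3 / 2) : ℝ), ?_, ?_⟩
  · refine mul_nonneg zero_le_two (tsum_nonneg fun n => ?_)
    split_ifs <;> positivity
  · intro M c
    have hsm : ∀ t : ℝ, |t| ≤ 1 → ENNReal.ofReal (wt t ^ 2) * ‖FT1 hh t‖ₑ ^ 2 ≤
        ENNReal.ofReal 64 := by
      intro t ht
      have h1 : ‖FT1 hh t‖ₑ ^ 2 = ENNReal.ofReal (‖FT1 hh t‖ ^ 2) := by
        rw [ENNReal.ofReal_pow (norm_nonneg _), ofReal_norm_eq_enorm]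
      rw [h1, ← ENNReal.ofReal_mul (by positivity)]
      apply ENNReal.ofReal_le_ofReal
      by_cases h0 : t = 0
      · rw [h0, Poly_wt0]
        norm_num
      · have h2 := wt_sq_le_small h0 ht
        have h3 := FT1_hh_le t
        have h4 : 0 < |t| := abs_pos.2 h0
        calc wt t ^ 2 * ‖FT1 hh t‖ ^ 2 ≤ (4 * |t| ^ (-(1 / 2) : ℝ)) * (4 * |t|) ^ 2 := by
              gcongr
          _ = 64 * (|t| ^ (-(1 / 2) : ℝ) * |t| ^ (2 : ℝ)) := by
              rw [Real.rpow_two]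
              ring
          _ = 64 * |t| ^ (3 / 2 : ℝ) := by
              rw [← Real.rpow_add h4]
              norm_num
          _ ≤ 64 * 1 := by
              gcongr
              exact Real.rpow_le_one h4.le ht (by norm_num)
          _ = 64 := mul_one _
    have hS : ∀ n : ℤ, ∫⁻ t in Set.Ico (n : ℝ) (n + 1), ‖tp M c t‖ₑ ^ 2 =
      ∑ m ∈ range M, ‖c m‖ₑ ^ 2 := lintegral_tp M c
    have hnear : ∀ s : Set ℝ, MeasurableSet s → (∀ t ∈ s, |t| ≤ 1) →
        (∫⁻ t in s, ‖tp M c t‖ₑ ^ 2 = ∑ m ∈ range M, ‖c m‖ₑ ^ 2) →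
        ∫⁻ t in s, ENNReal.ofReal (wt t ^ 2) * ‖FT1 hh t‖ₑ ^ 2 * ‖tp M c t‖ₑ ^ 2 ≤
          ENNReal.ofReal 64 * ∑ m ∈ range M, ‖c m‖ₑ ^ 2 := by
      intro s hs hst hgs
      rw [← hgs, ← lintegral_const_mul' _ _ ENNReal.ofReal_ne_top]
      refine setLIntegral_mono' hs fun t ht => ?_
      gcongr
      exact hsm t (hst t ht)
    have hmain := Poly_split (f := fun t => ENNReal.ofReal (wt t ^ 2) * ‖FT1 hh t‖ₑ ^ 2)
      (g := fun t => ‖tp M c t‖ₑ ^ 2) (S := ∑ m ∈ range M, ‖c m‖ₑ ^ 2) (K := 64) (by norm_num)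
      (fun t ht => Poly_large ht (FT1_hh_le' t (by
        rintro rfl
        norm_num at ht))) hS
      (hnear _ measurableSet_Ico (fun t ht => by
        rw [abs_of_nonneg ht.1]
        exact ht.2.le) (by simpa using hS 0))
      (hnear _ measurableSet_Ico (fun t ht => by
        rw [abs_of_neg ht.2]
        linarith [ht.1]) (by simpa using hS (-1)))
    refine le_trans (le_of_eq (lintegral_congr fun t => ?_)) hmain
    rw [enorm_mul, mul_pow, mul_assoc]

theorem Poly_int0 : IntegrableOn (fun t : ℝ => 4 * |t| ^ (-(1 / 2) : ℝ)) (Set.Ico (0 : ℝ) 1) := by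
  have h1 : IntervalIntegrable (fun t : ℝ => t ^ (-(1 / 2) : ℝ)) volume 0 1 :=
    intervalIntegral.intervalIntegrable_rpow' (by norm_num)
  rw [intervalIntegrable_iff_integrableOn_Ico_of_le zero_le_one] at h1
  refine (IntegrableOn.congr_fun h1 (fun t ht => ?_) measurableSet_Ico).const_mul 4
  rw [abs_of_nonneg ht.1]

theorem Poly_int1 : IntegrableOn (fun t : ℝ => 4 * |t| ^ (-(1 / 2) : ℝ)) (Set.Ico (-1 : ℝ) 0) := by
  have h1 : IntervalIntegrable (fun t : ℝ => t ^ (-(1 / 2) : ℝ)) volume 0 1 :=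
    intervalIntegral.intervalIntegrable_rpow' (by norm_num)
  have h2 := (h1.comp_mul_left (c := -1)).symm
  have h3 : (1 : ℝ) / -1 = -1 := by norm_num
  have h4 : (0 : ℝ) / -1 = 0 := by norm_num
  rw [h3, h4, intervalIntegrable_iff_integrableOn_Ico_of_le (by norm_num)] at h2
  refine (IntegrableOn.congr_fun h2 (fun t ht => ?_) measurableSet_Ico).const_mul 4
  show (-1 * t) ^ (-(1 / 2) : ℝ) = |t| ^ (-(1 / 2) : ℝ)
  rw [abs_of_neg ht.2]
  congr 1
  ring

/-- For the interval: only a constant, `wt(t)² |FT1 ii t|² ≤ 4|t|^{-1/2}` near `0`, integrable. -/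
theorem weighted_ii : ∃ C : ℝ, 0 ≤ C ∧
    ∫⁻ t, ENNReal.ofReal (wt t ^ 2) * ‖FT1 ii t‖ₑ ^ 2 ≤ ENNReal.ofReal C := by
  set K : ℝ := max (∫ t in Set.Ico (0 : ℝ) 1, 4 * |t| ^ (-(1 / 2) : ℝ))
    (∫ t in Set.Ico (-1 : ℝ) 0, 4 * |t| ^ (-(1 / 2) : ℝ)) with hK
  have hK0 : 0 ≤ K := by
    refine le_trans ?_ (le_max_left _ _)
    exact integral_nonneg fun t => by positivity
  refine ⟨2 * ∑' n : ℕ, if n = 0 then K else 4 * (n : ℝ) ^ (-(3 / 2) : ℝ), ?_, ?_⟩
  · refine mul_nonneg zero_le_two (tsum_nonneg fun n => ?_)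
    split_ifs
    · exact hK0
    · positivity
  · have hsm : ∀ t : ℝ, |t| ≤ 1 → ENNReal.ofReal (wt t ^ 2) * ‖FT1 ii t‖ₑ ^ 2 ≤
        ENNReal.ofReal (4 * |t| ^ (-(1 / 2) : ℝ)) := by
      intro t ht
      have h1 : ‖FT1 ii t‖ₑ ^ 2 = ENNReal.ofReal (‖FT1 ii t‖ ^ 2) := by
        rw [ENNReal.ofReal_pow (norm_nonneg _), ofReal_norm_eq_enorm]
      rw [h1, ← ENNReal.ofReal_mul (by positivity)]
      apply ENNReal.ofReal_le_ofReal
      by_cases h0 : t = 0
      · rw [h0, Poly_wt0]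
        have : (0 : ℝ) ≤ 4 * |(0 : ℝ)| ^ (-(1 / 2) : ℝ) := by positivity
        simpa using this
      · have h2 := wt_sq_le_small h0 ht
        have h3 := FT1_ii_le t
        calc wt t ^ 2 * ‖FT1 ii t‖ ^ 2 ≤ (4 * |t| ^ (-(1 / 2) : ℝ)) * 1 ^ 2 := by
              gcongr
          _ = _ := by ring
    have hnear : ∀ s : Set ℝ, MeasurableSet s → (∀ t ∈ s, |t| ≤ 1) →
        IntegrableOn (fun t : ℝ => 4 * |t| ^ (-(1 / 2) : ℝ)) s →
        (∫ t in s, 4 * |t| ^ (-(1 / 2) : ℝ)) ≤ K →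
        ∫⁻ t in s, ENNReal.ofReal (wt t ^ 2) * ‖FT1 ii t‖ₑ ^ 2 * 1 ≤ ENNReal.ofReal K * 1 := by
      intro s hs hst hi hle
      simp only [mul_one]
      calc ∫⁻ t in s, ENNReal.ofReal (wt t ^ 2) * ‖FT1 ii t‖ₑ ^ 2 ≤
            ∫⁻ t in s, ENNReal.ofReal (4 * |t| ^ (-(1 / 2) : ℝ)) :=
            setLIntegral_mono' hs fun t ht => hsm t (hst t ht)
        _ = ENNReal.ofReal (∫ t in s, 4 * |t| ^ (-(1 / 2) : ℝ)) := by
            rw [ofReal_integral_eq_lintegral_ofReal hi]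
            exact Filter.Eventually.of_forall fun t => by positivity
        _ ≤ ENNReal.ofReal K := ENNReal.ofReal_le_ofReal hle
    have hmain := Poly_split (f := fun t => ENNReal.ofReal (wt t ^ 2) * ‖FT1 ii t‖ₑ ^ 2)
      (g := fun _ => 1) (S := 1) (K := K) hK0
      (fun t ht => Poly_large ht (FT1_ii_le' t (by
        rintro rfl
        norm_num at ht))) (fun n => by simp)
      (hnear _ measurableSet_Ico (fun t ht => by
        rw [abs_of_nonneg ht.1]
        exact ht.2.le) Poly_int0 (le_max_left _ _))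
      (hnear _ measurableSet_Ico (fun t ht => by
        rw [abs_of_neg ht.2]
        linarith [ht.1]) Poly_int1 (le_max_right _ _))
    simpa using hmain

end Pool.Agent.helper75.HT
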