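import Pool.Agent.helper75.HT.Defs

/-!
# Weights : elementary properties of the weight

`wt_mul_le`: expand the product.  `sum_inv_wt`: `1/wt x ≤ min(|x|^{1/4}, |x|^{-1/4})`; with `2^m ≤ |t| < 2^{m+1}` and
`r = 2^{-1/4} ≤ 0.841` the terms are at most `r^{m-j}` for `j ≤ m` and `r^{j-m-1}` for `j > m`, sum `≤ 2/(1-r) ≤ 13`.
-/

set_option autoImplicit false

namespace Pool.Agent.helper75.HT

open Finset

private theorem Weights_pos {t : ℝ} (ht : t ≠ 0) : 0 < |t| ^ (1 / 4 : ℝ) :=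
  Real.rpow_pos_of_pos (abs_pos.2 ht) _

private theorem Weights_inv (t : ℝ) : |t| ^ (-(1 / 4) : ℝ) = (|t| ^ (1 / 4 : ℝ))⁻¹ :=
  Real.rpow_neg (abs_nonneg t) _

private theorem Weights_eq (t : ℝ) : wt t = |t| ^ (1 / 4 : ℝ) + (|t| ^ (1 / 4 : ℝ))⁻¹ := by
  rw [wt, Weights_inv]

theorem wt_nonneg (t : ℝ) : 0 ≤ wt t := by
  unfold wt
  positivity

theorem two_le_wt {t : ℝ} (ht : t ≠ 0) : 2 ≤ wt t := by
  rw [Weights_eq]
  have ha := Weights_pos ht
  set a := |t| ^ (1 / 4 : ℝ) with haa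
  have h1 : a + a⁻¹ - 2 = (a - 1) ^ 2 / a := by
    field_simp
    ring
  have h2 : 0 ≤ (a - 1) ^ 2 / a := by positivity
  linarith

theorem wt_mul_le (s t : ℝ) : wt (s * t) ≤ wt s * wt t := by
  rw [Weights_eq, Weights_eq, Weights_eq, abs_mul, Real.mul_rpow (abs_nonneg _) (abs_nonneg _),
    mul_inv]
  have ha : 0 ≤ |s| ^ (1 / 4 : ℝ) := by positivity
  have hb : 0 ≤ |t| ^ (1 / 4 : ℝ) := by positivity
  have h1 : 0 ≤ |s| ^ (1 / 4 : ℝ) * (|t| ^ (1 / 4 : ℝ))⁻¹ := by positivity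
  have h2 : 0 ≤ (|s| ^ (1 / 4 : ℝ))⁻¹ * |t| ^ (1 / 4 : ℝ) := by positivity
  nlinarith

theorem wt_half : wt (1 / 2) ≤ 3 := by
  have h0 : |(1 / 2 : ℝ)| = 1 / 2 := abs_of_pos (by norm_num)
  unfold wt
  rw [h0]
  have h1 : (1 / 2 : ℝ) ^ (1 / 4 : ℝ) ≤ 1 :=
    Real.rpow_le_one (by norm_num) (by norm_num) (by norm_num)
  have h2 : (1 / 2 : ℝ) ^ (-(1 / 4) : ℝ) ≤ 2 := by
    have h3 : (1 / 2 : ℝ) ^ (-(1 / 4) : ℝ) ≤ (1 / 2 : ℝ) ^ (-1 : ℝ) :=
      Real.rpow_le_rpow_of_exponent_ge (by norm_num) (by norm_num) (by norm_num)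
    rw [Real.rpow_neg_one] at h3
    norm_num at h3 ⊢
    exact h3
  linarith

theorem wt_neg (t : ℝ) : wt (-t) = wt t := by
  unfold wt
  rw [abs_neg]

theorem measurable_wt : Measurable wt := by
  unfold wt
  exact (continuous_abs.measurable.pow_const _).add (continuous_abs.measurable.pow_const _)

private theorem Weights_sum {r : ℝ} (hr0 : 0 < r) (hr1 : r < 1) : ∀ (n : ℕ) (a : ℝ), 0 < a →
    ∑ j ∈ range n, (a * r ^ j + (a * r ^ j)⁻¹)⁻¹ ≤
      if a ≤ 1 then a / (1 - r) else (2 - r / a) / (1 - r) := by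
  have hr : 0 < 1 - r := by linarith
  intro n
  induction n with
  | zero =>
    intro a ha
    rw [Finset.range_zero, Finset.sum_empty]
    split_ifs with h
    · positivity
    · have h1 : r / a ≤ 1 := by
        rw [div_le_one ha]
        linarith
      exact div_nonneg (by linarith) hr.le
  | succ n ih =>
    intro a ha
    have h0 : ∑ j ∈ range (n + 1), (a * r ^ j + (a * r ^ j)⁻¹)⁻¹ =
        ∑ j ∈ range n, ((a * r) * r ^ j + ((a * r) * r ^ j)⁻¹)⁻¹ + (a + a⁻¹)⁻¹ := by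
      rw [Finset.sum_range_succ']
      congr 1
      · refine Finset.sum_congr rfl fun j _ => ?_
        rw [pow_succ, mul_assoc a r, mul_comm r (r ^ j)]
      · rw [pow_zero, mul_one]
    rw [h0]
    have h1 := ih (a * r) (by positivity)
    have h2 : (a + a⁻¹)⁻¹ ≤ a := by
      have : a⁻¹ ≤ a + a⁻¹ := by linarith
      have h3 := inv_anti₀ (inv_pos.2 ha) this
      rwa [inv_inv] at h3
    have h3 : (a + a⁻¹)⁻¹ ≤ a⁻¹ := by
      have : 0 < a⁻¹ := inv_pos.2 ha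
      exact inv_anti₀ ha (by linarith)
    by_cases ha1 : a ≤ 1
    · rw [if_pos ha1]
      have h4 : a * r ≤ 1 := by nlinarith
      rw [if_pos h4] at h1
      have h5 : a / (1 - r) = a * r / (1 - r) + a := by
        field_simp
        ring
      rw [h5]
      linarith
    · rw [if_neg ha1]
      have ha2 : 1 < a := not_le.1 ha1
      by_cases h4 : a * r ≤ 1
      · rw [if_pos h4] at h1
        have h5 : a⁻¹ + a * r / (1 - r) ≤ (2 - r / a) / (1 - r) := by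
          rw [← sub_nonneg]
          have h6 : (2 - r / a) / (1 - r) - (a⁻¹ + a * r / (1 - r)) =
              (2 - a⁻¹ - a * r) / (1 - r) := by
            field_simp
            ring
          rw [h6]
          have h7 : a⁻¹ ≤ 1 := inv_le_one_of_one_le₀ ha2.le
          exact div_nonneg (by linarith) hr.le
        linarith
      · rw [if_neg h4] at h1
        have h5 : (2 - r / a) / (1 - r) = a⁻¹ + (2 - r / (a * r)) / (1 - r) := by
          field_simp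
          ring
        rw [h5]
        linarith

theorem sum_inv_wt {t : ℝ} (ht : t ≠ 0) (n : ℕ) : ∑ j ∈ range n, (wt (t / 2 ^ j))⁻¹ ≤ 16 := by
  set r : ℝ := (1 / 2 : ℝ) ^ (1 / 4 : ℝ) with hr
  have hr0 : 0 < r := Real.rpow_pos_of_pos (by norm_num) _
  have hr4 : r ^ 4 = 1 / 2 := by
    rw [hr, ← Real.rpow_natCast, ← Real.rpow_mul (by norm_num)]
    norm_num
  have hr78 : r ≤ 7 / 8 := by
    by_contra h
    push_neg at h
    have : (7 / 8 : ℝ) ^ 4 < r ^ 4 := pow_lt_pow_left₀ h (by norm_num) (by norm_num)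
    rw [hr4] at this
    norm_num at this
  have ha := Weights_pos ht
  set a := |t| ^ (1 / 4 : ℝ) with haa
  have h1 : ∀ j : ℕ, wt (t / 2 ^ j) = a * r ^ j + (a * r ^ j)⁻¹ := by
    intro j
    have h2 : |t / 2 ^ j| = |t| * (1 / 2) ^ j := by
      rw [abs_div, abs_of_pos (by positivity : (0 : ℝ) < 2 ^ j), one_div, inv_pow,
        div_eq_mul_inv]
    have h3 : |t / 2 ^ j| ^ (1 / 4 : ℝ) = a * r ^ j := by
      rw [h2, Real.mul_rpow (abs_nonneg _) (by positivity), hr, ← Real.rpow_natCast,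
        ← Real.rpow_natCast, ← Real.rpow_mul (by norm_num), ← Real.rpow_mul (by norm_num),
        mul_comm (j : ℝ)]
    rw [Weights_eq, h3]
  simp only [h1]
  refine (Weights_sum hr0 (by linarith) n a ha).trans ?_
  have h5 : (0 : ℝ) < 1 - r := by linarith
  split_ifs with h
  · rw [div_le_iff₀ h5]
    linarith
  · rw [div_le_iff₀ h5]
    have h6 : 0 ≤ r / a := by positivity
    linarith

/-- Bounds of the weight: on `0 < |t| ≤ 1` and on `|t| ≥ 1`. -/
theorem wt_sq_le_small {t : ℝ} (h0 : t ≠ 0) (h1 : |t| ≤ 1) :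
    wt t ^ 2 ≤ 4 * |t| ^ (-(1 / 2) : ℝ) := by
  have ha := Weights_pos h0
  have h2 : |t| ^ (-(1 / 2) : ℝ) = ((|t| ^ (1 / 4 : ℝ))⁻¹) ^ 2 := by
    rw [← Weights_inv, ← Real.rpow_natCast, ← Real.rpow_mul (abs_nonneg _)]
    norm_num
  have h3 : |t| ^ (1 / 4 : ℝ) ≤ 1 := Real.rpow_le_one (abs_nonneg _) h1 (by norm_num)
  rw [Weights_eq, h2]
  set a := |t| ^ (1 / 4 : ℝ) with haa
  have h4 : 1 ≤ a⁻¹ := (one_le_inv₀ ha).2 h3
  nlinarith

theorem wt_sq_le_large {t : ℝ} (h1 : 1 ≤ |t|) : wt t ^ 2 ≤ 4 * |t| ^ (1 / 2 : ℝ) := by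
  have h0 : t ≠ 0 := by
    rintro rfl
    rw [abs_zero] at h1
    linarith
  have ha := Weights_pos h0
  have h2 : |t| ^ (1 / 2 : ℝ) = (|t| ^ (1 / 4 : ℝ)) ^ 2 := by
    rw [← Real.rpow_natCast, ← Real.rpow_mul (abs_nonneg _)]
    norm_num
  have h3 : 1 ≤ |t| ^ (1 / 4 : ℝ) := Real.one_le_rpow h1 (by norm_num)
  rw [Weights_eq, h2]
  set a := |t| ^ (1 / 4 : ℝ) with haa
  have h4 : a⁻¹ ≤ 1 := inv_le_one_of_one_le₀ h3
  have h5 : 0 < a⁻¹ := inv_pos.2 ha
  nlinarith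

end Pool.Agent.helper75.HT
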